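import Pool.Agent.Q69.FL.E

/-!
# First passage percolation: lower tail about a general subadditive centring, deterministic part
-/

set_option autoImplicit false

open MeasureTheory ProbabilityTheory Finset Filter
open scoped Topology

namespace Q69.FM

open Q70.Fp Q69.FL

variable {Φ : ℤ × ℤ → ℝ}

/-- the properties of the centring -/
structure Sub (Φ : ℤ × ℤ → ℝ) : Prop where
  zero : Φ 0 = 0
  add : ∀ x y, Φ (x + y) ≤ Φ x + Φ y
  up : ∀ x, Φ x ≤ 3 * (dd 0 x : ℝ)
  lip : ∀ x y, Φ y ≤ Φ x + 3 * (dd x y : ℝ)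
  low : ∀ x, (dd 0 x : ℝ) / 22 ≤ Φ x

lemma Sub.nonneg (h : Sub Φ) (x : ℤ × ℤ) : 0 ≤ Φ x := le_trans (by positivity) (h.low x)

/-- the mean passage time -/
noncomputable def hm (v : ℤ × ℤ) : ℝ := ∫ w, TT (pw w) 0 v ∂nu

lemma hm_nonneg (v : ℤ × ℤ) : 0 ≤ hm v := integral_nonneg fun w => TT_nonneg (pw_nonneg w) _ _

lemma hm_add (x y : ℤ × ℤ) : hm (x + y) ≤ hm x + hm y := by
  have e1 : hm y = ∫ w, TT (pw w) x (x + y) ∂nu := by
    rw [integral_TT_sh]
    unfold hm
    congr 1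
    funext w
    congr 1
    abel
  rw [e1]
  unfold hm
  rw [← integral_add (integrable_TT _ _) (integrable_TT _ _)]
  exact integral_mono (integrable_TT _ _) ((integrable_TT _ _).add (integrable_TT _ _))
    fun w => TT_tri (pw_nonneg w) 0 x (x + y)

lemma hm_up (v : ℤ × ℤ) : hm v ≤ 2 * (dd 0 v : ℝ) := by
  obtain ⟨S, h1, h2, -, h3, h4⟩ := exists_major 0 v
  have hl : Real.log 2 ≤ 1 := by
    have := Real.log_two_lt_d9
    linarith
  have pt : ∀ w, TT (pw w) 0 v ≤ 2 * (Real.log 2 * (dd 0 v : ℝ) - 1) +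
      2 * ((2 ^ dd 0 v : ℝ)⁻¹ * Real.exp (1 / 2 * S w)) := by
    intro w
    have e1 := Real.add_one_le_exp (1 / 2 * S w - Real.log 2 * (dd 0 v : ℝ))
    have e2 : Real.exp (1 / 2 * S w - Real.log 2 * (dd 0 v : ℝ)) =
        (2 ^ dd 0 v : ℝ)⁻¹ * Real.exp (1 / 2 * S w) := by
      rw [Real.exp_sub, mul_comm (Real.log 2), Real.exp_nat_mul, Real.exp_log two_pos]
      field_simp
    rw [e2] at e1
    have := h2 w
    linarith
  have hi : Integrable (fun w => 2 * (Real.log 2 * (dd 0 v : ℝ) - 1) +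
      2 * ((2 ^ dd 0 v : ℝ)⁻¹ * Real.exp (1 / 2 * S w))) nu :=
    (integrable_const _).add ((h3.const_mul _).const_mul _)
  have e3 := integral_mono (integrable_TT 0 v) hi pt
  rw [integral_add (integrable_const _) ((h3.const_mul _).const_mul _), integral_const,
    integral_const_mul, integral_const_mul, h4, probReal_univ, one_smul,
    inv_mul_cancel₀ (by positivity)] at e3
  unfold hm
  have e4 : Real.log 2 * (dd 0 v : ℝ) ≤ 1 * (dd 0 v : ℝ) :=
    mul_le_mul_of_nonneg_right hl (Nat.cast_nonneg _)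
  linarith

lemma hm_zero : hm 0 = 0 := by
  have h1 := hm_up 0
  rw [dd_self] at h1
  have h2 := hm_nonneg 0
  push_cast at h1
  linarith

lemma hm_lip (x y : ℤ × ℤ) : hm y ≤ hm x + 2 * (dd x y : ℝ) := by
  have h1 := hm_add x (y - x)
  have h2 := hm_up (y - x)
  have h3 : dd 0 (y - x) = dd x y := by
    simp only [dd, Prod.fst_sub, Prod.snd_sub, Prod.fst_zero, Prod.snd_zero]; omega
  rw [h3] at h2
  rw [show x + (y - x) = y by abel] at h1
  linarith

lemma hm_Sub {μ : ℝ × ℝ → ℝ} (h : Shape μ) : Sub hm where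
  zero := hm_zero
  add := hm_add
  up := fun x => by
    have h1 := hm_up x
    have h2 : (0:ℝ) ≤ (dd 0 x : ℝ) := Nat.cast_nonneg _
    linarith
  lip := fun x y => by
    have h1 := hm_lip x y
    have h2 : (0:ℝ) ≤ (dd x y : ℝ) := Nat.cast_nonneg _
    linarith
  low := fun x => (mz_low h x).trans (mz_le_mean h x)

lemma F_sum (h : Sub Φ) (z : ℕ → ℤ × ℤ) (k : ℕ) :
    Φ (z k - z 0) ≤ ∑ i ∈ range k, Φ (z (i + 1) - z i) := by
  induction k with
  | zero => simp [h.zero]
  | succ k ih =>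
    rw [Finset.sum_range_succ]
    have h1 := h.add (z k - z 0) (z (k + 1) - z k)
    have h2 : z k - z 0 + (z (k + 1) - z k) = z (k + 1) - z 0 := by abel
    rw [h2] at h1
    linarith

/-- a fast piece from `x`, seen in a ball -/
def Fast (Φ : ℤ × ℤ → ℝ) (W : Ed → ℝ) (s m : ℕ) (g : ℝ) (x : ℤ × ℤ) : Prop :=
  ∃ y ∈ nb s m x, TB W (66 * (m + 4 * s)) x y < Φ (y - x) - g

/-- a small passage time forces many fast pieces which are far from each other -/
lemma far_fast (h : Sub Φ) {w : Ed → ℝ} (hw : ∀ e, 0 ≤ w e) {v : ℤ × ℤ} {n m₁ s r : ℕ}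
    (hn : dd 0 v = n) (hm1 : 1 ≤ m₁) (hs1 : 1 ≤ s) (hsm : s ≤ 66 * m₁) {S D g : ℝ} (hS1 : 1 ≤ S)
    (hD : 0 ≤ D) (hg : 0 ≤ g) (hT : TT w 0 v < Φ v - S)
    (G1 : ¬ Bad w 0 (66 * n + 1) (3 * (n:ℝ)))
    (G2 : ∀ x ∈ ball (66 * n) 0, ∀ y ∈ ball (66 * n) 0, dd x y = 66 * m₁ → 3 * (m₁:ℝ) ≤ TT w x y)
    (G3 : ∀ x ∈ ball (66 * n) 0, ∀ y ∈ ball (66 * n) 0, dd x y ≤ 664 * (66 * m₁) →
      TT w x y < 3 * ((664 * (66 * m₁) : ℕ) : ℝ))
    (G3' : ∀ x ∈ ball (66 * n) 0, TT w x (rd s x) ≤ 6 * s ∧ TT w (rd s x) x ≤ 6 * s)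
    (G4 : ∀ x ∈ (ball (66 * n) 0).image (rd s), ∀ y ∈ nb s (66 * m₁) x,
      TB w (66 * (66 * m₁ + 4 * s)) x y ≤ TT w x y)
    (G5 : ∀ x ∈ ball (66 * n) 0, ∀ y ∈ ball (66 * n) 0, dd x y ≤ 66 * m₁ →
      Φ (y - x) - D ≤ TT w x y)
    (hr : 43825 * (r:ℝ) * D + (n:ℝ) / m₁ * g + D + 1 ≤ S) :
    ∃ I : Finset (ℤ × ℤ), I ⊆ (ball (66 * n) 0).image (rd s) ∧ I.card = r ∧
      (∀ x ∈ I, ∀ y ∈ I, x ≠ y → 2 * (66 * (66 * m₁ + 4 * s)) < dd x y) ∧
      ∀ x ∈ I, Fast Φ w s (66 * m₁) (g - 24 * s) x := by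
  classical
  have hup : Φ v ≤ 3 * (n:ℝ) := by rw [← hn]; exact h.up v
  have hm0 : (0:ℝ) < m₁ := by exact_mod_cast hm1
  -- a nearly optimal walk
  obtain ⟨N, p, hp, hlt⟩ := exists_lt (show TT w 0 v < TT w 0 v + 1 by linarith)
  have hlt3 : Wt w p N < 3 * (n:ℝ) := by linarith
  have hin : ∀ j ≤ N, p j ∈ ball (66 * n) 0 := by
    intro j hj
    rw [mem_ball]
    by_contra hcon
    push Not at hcon
    obtain ⟨q, h1, h2, h3, h4⟩ := bad_of_exit hw hp hj hcon
    exact G1 ⟨q, h1, h2, h3, h4.trans hlt3.le⟩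
  obtain ⟨k, z, z0, z1, z2, z3, z4⟩ := cut_walk hw (show 1 ≤ 66 * m₁ by omega) v N 0 p hp
  have hzin : ∀ i ≤ k, z i ∈ ball (66 * n) 0 := by
    intro i hi
    obtain ⟨j, hj, hj'⟩ := z3 i hi
    rw [hj']; exact hin j hj
  have hopt : ∑ i ∈ range k, TT w (z i) (z (i + 1)) + TT w (z k) v < TT w (z 0) v + 1 := by
    rw [z0]; exact lt_of_le_of_lt z4 hlt
  -- the number of pieces
  have hge : ∀ i j : ℕ, i ≤ j → j ≤ k → ((j:ℝ) - i) * (3 * m₁) ≤
      ∑ l ∈ Finset.Ico i j, TT w (z l) (z (l + 1)) := by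
    intro i j hij hj
    calc ((j:ℝ) - i) * (3 * m₁) = ∑ _l ∈ Finset.Ico i j, (3 * (m₁:ℝ)) := by
          rw [Finset.sum_const, Nat.card_Ico, nsmul_eq_mul]
          push_cast [Nat.cast_sub hij]
          ring
      _ ≤ _ := by
          refine Finset.sum_le_sum fun l hl => ?_
          rw [Finset.mem_Ico] at hl
          exact G2 _ (hzin l (by omega)) _ (hzin (l + 1) (by omega)) (z1 l (by omega))
  have hk : (k:ℝ) ≤ n / m₁ := by
    have e1 := hge 0 k (Nat.zero_le _) le_rfl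
    rw [← Finset.range_eq_Ico] at e1
    have e2 := TT_nonneg hw (z k) v
    rw [le_div_iff₀ hm0]
    push_cast at e1
    nlinarith [hopt, z4]
  -- pieces far apart
  have hfar : ∀ i j : ℕ, i + 43825 ≤ j → j ≤ k → 664 * (66 * m₁) < dd (z i) (z j) := by
    intro i j hij hj
    by_contra hcon
    push Not at hcon
    have e1 := hge i j (by omega) hj
    have e2 := chain_opt hw hopt (show i ≤ j by omega) hj
    have e3 := G3 _ (hzin i (by omega)) _ (hzin j hj) hcon
    have e4 : (i:ℝ) + 43825 ≤ j := by exact_mod_cast hij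
    have e5 : (1:ℝ) ≤ m₁ := by exact_mod_cast hm1
    push_cast at e3
    nlinarith
  -- fast pieces
  set F : Finset ℕ := (range k).filter
    (fun i => TT w (z i) (z (i + 1)) < Φ (z (i + 1) - z i) - g) with hF
  have hdef : ∀ i < k, Φ (z (i + 1) - z i) - TT w (z i) (z (i + 1)) ≤ D := by
    intro i hi
    have := G5 _ (hzin i (by omega)) (z (i + 1)) (hzin (i + 1) (by omega)) (z1 i hi).le
    linarith
  have hcard : 43825 * r ≤ F.card := by
    by_contra hcon
    push Not at hcon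
    have c1 : (F.card : ℝ) ≤ 43825 * r := by
      have : F.card ≤ 43825 * r := hcon.le
      exact_mod_cast this
    have c2 : Φ v ≤ ∑ i ∈ range k, Φ (z (i + 1) - z i) + Φ (v - z k) := by
      have e1 := h.add (z k) (v - z k)
      have e2 := F_sum h z k
      rw [z0, sub_zero] at e2
      rw [show z k + (v - z k) = v by abel] at e1
      linarith
    have c3 : Φ (v - z k) - D ≤ TT w (z k) v :=
      G5 _ (hzin k le_rfl) v (mem_ball.2 (by omega)) z2.le
    have c4 : ∑ i ∈ range k, (Φ (z (i + 1) - z i) - TT w (z i) (z (i + 1))) ≤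
        F.card * D + k * g := by
      rw [← Finset.sum_filter_add_sum_filter_not (range k)
        (fun i => TT w (z i) (z (i + 1)) < Φ (z (i + 1) - z i) - g)]
      refine add_le_add ?_ ?_
      · calc _ ≤ ∑ _i ∈ F, D := Finset.sum_le_sum fun i hi => by
              rw [Finset.mem_filter, Finset.mem_range] at hi
              exact hdef i hi.1
          _ = _ := by rw [Finset.sum_const, nsmul_eq_mul]
      · calc _ ≤ ∑ _i ∈ (range k).filter (fun i => ¬ TT w (z i) (z (i + 1)) <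
                Φ (z (i + 1) - z i) - g), g := Finset.sum_le_sum fun i hi => by
              rw [Finset.mem_filter, not_lt] at hi
              linarith [hi.2]
          _ = (((range k).filter (fun i => ¬ TT w (z i) (z (i + 1)) <
                Φ (z (i + 1) - z i) - g)).card : ℝ) * g := by rw [Finset.sum_const, nsmul_eq_mul]
          _ ≤ k * g := by
              refine mul_le_mul_of_nonneg_right ?_ hg
              have := Finset.card_filter_le (range k) (fun i => ¬ TT w (z i) (z (i + 1)) <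
                Φ (z (i + 1) - z i) - g)
              rw [Finset.card_range] at this
              exact_mod_cast this
    rw [Finset.sum_sub_distrib] at c4
    have c5 : (F.card : ℝ) * D ≤ 43825 * r * D := mul_le_mul_of_nonneg_right c1 hD
    have c6 : (k:ℝ) * g ≤ n / m₁ * g := mul_le_mul_of_nonneg_right hk hg
    linarith
  -- one residue class
  obtain ⟨ρ, -, hρ⟩ := Finset.exists_le_card_fiber_of_mul_le_card_of_maps_to
    (s := F) (t := range 43825) (f := fun i => i % 43825) (n := r)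
    (fun i _ => Finset.mem_range.2 (Nat.mod_lt _ (by norm_num))) ⟨0, by simp⟩
    (by rw [Finset.card_range]; exact hcard)
  set F' := F.filter (fun i => i % 43825 = ρ) with hF'
  obtain ⟨F'', hF1, hF2⟩ := Finset.exists_subset_card_eq hρ
  have hmem : ∀ i ∈ F'', i < k ∧ TT w (z i) (z (i + 1)) < Φ (z (i + 1) - z i) - g ∧
      i % 43825 = ρ := by
    intro i hi
    have := hF1 hi
    rw [hF', Finset.mem_filter, hF, Finset.mem_filter, Finset.mem_range] at this
    exact ⟨this.1.1, this.1.2, this.2⟩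
  have hdist : ∀ i ∈ F'', ∀ j ∈ F'', i < j → 2 * (66 * (66 * m₁ + 4 * s)) < dd (rd s (z i)) (rd s (z j)) := by
    intro i hi j hj hij
    have e1 := hmem i hi
    have e2 := hmem j hj
    have e3 := hfar i j (by omega) (by omega)
    have e4 := dd_rd hs1 (z i)
    have e5 := dd_rd hs1 (z j)
    have e6 := dd_tri (z i) (rd s (z i)) (z j)
    have e7 := dd_tri (rd s (z i)) (rd s (z j)) (z j)
    rw [dd_comm (rd s (z j))] at e7
    omega
  have hinj : Set.InjOn (fun i => rd s (z i)) (F'' : Set ℕ) := by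
    intro i hi j hj hij
    rcases lt_trichotomy i j with hlt | heq | hgt
    · have := hdist i hi j hj hlt
      simp only at hij
      rw [hij, dd_self] at this
      omega
    · exact heq
    · have := hdist j hj i hi hgt
      simp only at hij
      rw [hij, dd_self] at this
      omega
  refine ⟨F''.image (fun i => rd s (z i)), ?_, ?_, ?_, ?_⟩
  · intro x hx
    obtain ⟨i, hi, rfl⟩ := Finset.mem_image.1 hx
    exact Finset.mem_image.2 ⟨z i, hzin i (hmem i hi).1.le, rfl⟩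
  · rw [Finset.card_image_of_injOn hinj, hF2]
  · intro x hx y hy hxy
    obtain ⟨i, hi, rfl⟩ := Finset.mem_image.1 hx
    obtain ⟨j, hj, rfl⟩ := Finset.mem_image.1 hy
    rcases lt_trichotomy i j with hlt | heq | hgt
    · exact hdist i hi j hj hlt
    · rw [heq] at hxy; exact absurd rfl hxy
    · rw [dd_comm]; exact hdist j hj i hi hgt
  · intro x hx
    obtain ⟨i, hi, rfl⟩ := Finset.mem_image.1 hx
    obtain ⟨hik, hfast, -⟩ := hmem i hi
    have d1 := dd_rd hs1 (z i)
    have d2 := dd_rd hs1 (z (i + 1))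
    have d3 := z1 i hik
    have d4 := dd_tri (rd s (z i)) (z i) (z (i + 1))
    have d5 := dd_tri (rd s (z i)) (z (i + 1)) (rd s (z (i + 1)))
    have d6 := dd_comm (rd s (z i)) (z i)
    have d7 := dd_tri (z i) (rd s (z i)) (z (i + 1))
    have d8 := dd_tri (rd s (z i)) (rd s (z (i + 1))) (z (i + 1))
    have d9 := dd_comm (rd s (z (i + 1))) (z (i + 1))
    have hy : rd s (z (i + 1)) ∈ nb s (66 * m₁) (rd s (z i)) := by
      rw [nb, Finset.mem_filter]
      refine ⟨Finset.mem_image.2 ⟨z (i + 1), mem_ball.2 (by omega), rfl⟩, by omega, by omega⟩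
    refine ⟨rd s (z (i + 1)), hy, ?_⟩
    have t1 := G4 _ (Finset.mem_image.2 ⟨z i, hzin i hik.le, rfl⟩) _ hy
    have t2 := TT_tri hw (rd s (z i)) (z i) (rd s (z (i + 1)))
    have t3 := TT_tri hw (z i) (z (i + 1)) (rd s (z (i + 1)))
    have t4 := (G3' _ (hzin i hik.le)).2
    have t5 := (G3' _ (hzin (i + 1) (by omega))).1
    have t6 := h.lip (rd s (z (i + 1)) - rd s (z i)) (z (i + 1) - z i)
    have t7 : (dd (rd s (z (i + 1)) - rd s (z i)) (z (i + 1) - z i) : ℝ) ≤ 4 * s := by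
      have e1 := dd_sub (rd s (z (i + 1))) (rd s (z i)) (z (i + 1)) (z i)
      have e2 : dd (rd s (z (i + 1)) - rd s (z i)) (z (i + 1) - z i) ≤ 4 * s := by omega
      exact_mod_cast e2
    linarith

end Q69.FM
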