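import Pool.Agent.Q69.FM.A

/-!
# First passage percolation: lower tail about a general centring, independence and one scale
-/

set_option autoImplicit false

open MeasureTheory ProbabilityTheory Finset Filter
open scoped Topology

namespace Q69.FM

open Q70.Fp Q69.FL

variable {Φ : ℤ × ℤ → ℝ}

lemma fast_set (s m : ℕ) (g : ℝ) (x : ℤ × ℤ) : {w : Ed → ℝ | Fast Φ (pw w) s m g x} =
    ⋃ y ∈ nb s m x, {w | TB (pw w) (66 * (m + 4 * s)) x y < Φ (y - x) - g} := by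
  ext w
  simp only [Fast, Set.mem_setOf_eq, Set.mem_iUnion, exists_prop]

lemma measurable_fast (s m : ℕ) (g : ℝ) (x : ℤ × ℤ) :
    MeasurableSet {w : Ed → ℝ | Fast Φ (pw w) s m g x} := by
  rw [fast_set]
  refine Finset.measurableSet_biUnion _ fun y _ => ?_
  exact measurableSet_lt (measurable_TB _ _ _) measurable_const

lemma fast_dep {s m : ℕ} {g : ℝ} {x : ℤ × ℤ} {w w' : Ed → ℝ}
    (h : ∀ e ∈ be (66 * (m + 4 * s)) x, w e = w' e) :
    Fast Φ (pw w) s m g x ↔ Fast Φ (pw w') s m g x := by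
  unfold Fast
  refine exists_congr fun y => and_congr_right fun _ => ?_
  rw [TB_dep h]

lemma fast_le {s m : ℕ} (hs : 1 ≤ s) {g p0 : ℝ} {R : ℕ} {x : ℤ × ℤ}
    (hx : x ∈ (ball R 0).image (rd s))
    (hp : ∀ z : ℤ × ℤ, m ≤ dd 0 z + 4 * s → dd 0 z ≤ m + 4 * s →
      nu.real {w | TT (pw w) 0 z < Φ z - g} ≤ p0) (hp0 : 0 ≤ p0) :
    nu.real {w | Fast Φ (pw w) s m g x} ≤ 18 * (2 * ((m / s : ℕ) : ℝ) + 9) * p0 := by
  rw [fast_set]
  calc _ ≤ ∑ y ∈ nb s m x, nu.real {w | TB (pw w) (66 * (m + 4 * s)) x y < Φ (y - x) - g} :=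
        measureReal_biUnion_finset_le _ _
    _ ≤ ∑ _y ∈ nb s m x, p0 := by
        refine Finset.sum_le_sum fun y hy => ?_
        have hy' := hy
        rw [nb, Finset.mem_filter] at hy'
        have hd : dd 0 (y - x) = dd x y := by
          simp only [dd, Prod.fst_sub, Prod.snd_sub, Prod.fst_zero, Prod.snd_zero]; omega
        refine le_trans ?_ (hp (y - x) (by rw [hd]; exact hy'.2.1) (by rw [hd]; exact hy'.2.2))
        have e1 := nu_TT_sh x y (measurableSet_Iio (a := Φ (y - x) - g))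
        have e2 : {w : Ed → ℝ | TT (pw w) 0 (y - x) < Φ (y - x) - g} =
          {w | TT (pw w) 0 (y - x) ∈ Set.Iio (Φ (y - x) - g)} := rfl
        rw [e2, ← e1]
        refine measureReal_mono ?_ (measure_ne_top _ _)
        intro w hw
        exact lt_of_le_of_lt (TT_le_TB (pw_nonneg w) (by omega)) hw
    _ = (nb s m x).card * p0 := by rw [Finset.sum_const, nsmul_eq_mul]
    _ ≤ _ := by
        refine mul_le_mul_of_nonneg_right ?_ hp0
        have := count_nb hs m hx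
        exact_mod_cast this

/-- many fast pieces far from each other are unlikely -/
lemma indep_le (Q : Finset (ℤ × ℤ)) (s m r : ℕ) (g p : ℝ)
    (hp : ∀ x ∈ Q, nu.real {w | Fast Φ (pw w) s m g x} ≤ p) (hp0 : 0 ≤ p) :
    nu.real {w | ∃ I : Finset (ℤ × ℤ), I ⊆ Q ∧ I.card = r ∧
      (∀ x ∈ I, ∀ y ∈ I, x ≠ y → 2 * (66 * (m + 4 * s)) < dd x y) ∧
      ∀ x ∈ I, Fast Φ (pw w) s m g x} ≤ (Q.card * p) ^ r := by
  classical
  obtain ⟨F, hF⟩ : ∃ F : Finset (ℤ × ℤ) → Prop,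
      F = fun I => ∀ x ∈ I, ∀ y ∈ I, x ≠ y → 2 * (66 * (m + 4 * s)) < dd x y := ⟨_, rfl⟩
  set P := (Q.powersetCard r).filter F with hP
  have hsub : {w | ∃ I : Finset (ℤ × ℤ), I ⊆ Q ∧ I.card = r ∧
      (∀ x ∈ I, ∀ y ∈ I, x ≠ y → 2 * (66 * (m + 4 * s)) < dd x y) ∧
      ∀ x ∈ I, Fast Φ (pw w) s m g x} ⊆ ⋃ I ∈ P, {w | ∀ x ∈ I, Fast Φ (pw w) s m g x} := by
    rintro w ⟨I, h1, h2, h3, h4⟩
    simp only [Set.mem_iUnion, Set.mem_setOf_eq, exists_prop]
    refine ⟨I, ?_, h4⟩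
    rw [hP, Finset.mem_filter, Finset.mem_powersetCard, hF]
    exact ⟨⟨h1, h2⟩, h3⟩
  refine (measureReal_mono hsub (measure_ne_top _ _)).trans
    ((measureReal_biUnion_finset_le _ _).trans ?_)
  have key : ∀ I ∈ P, nu.real {w | ∀ x ∈ I, Fast Φ (pw w) s m g x} ≤ p ^ r := by
    intro I hI
    rw [hP, Finset.mem_filter, Finset.mem_powersetCard, hF] at hI
    obtain ⟨⟨h1, h2⟩, h3⟩ := hI
    have e1 : nu.real {w | ∀ x ∈ I, Fast Φ (pw w) s m g x} =
        ∫ w, ∏ x ∈ I, Set.indicator {w : Ed → ℝ | Fast Φ (pw w) s m g x} (1 : (Ed → ℝ) → ℝ) w ∂nu := by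
      have hms : MeasurableSet {w : Ed → ℝ | ∀ x ∈ I, Fast Φ (pw w) s m g x} := by
        have : {w : Ed → ℝ | ∀ x ∈ I, Fast Φ (pw w) s m g x} =
            ⋂ x ∈ I, {w : Ed → ℝ | Fast Φ (pw w) s m g x} := by
          ext w; simp
        rw [this]
        exact Finset.measurableSet_biInter _ fun x _ => measurable_fast s m g x
      rw [← integral_indicator_one hms]
      refine integral_congr_ae (Eventually.of_forall fun w => ?_)
      beta_reduce
      by_cases hw : ∀ x ∈ I, Fast Φ (pw w) s m g x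
      · rw [Set.indicator_of_mem (show w ∈ {w : Ed → ℝ | ∀ x ∈ I, Fast Φ (pw w) s m g x} from hw)]
        rw [Finset.prod_eq_one]
        · rfl
        · intro x hx
          rw [Set.indicator_of_mem (show w ∈ {w : Ed → ℝ | Fast Φ (pw w) s m g x} from hw x hx)]
          rfl
      · rw [Set.indicator_of_notMem (show w ∉ {w : Ed → ℝ | ∀ x ∈ I, Fast Φ (pw w) s m g x} from hw)]
        push Not at hw
        obtain ⟨x, hx, hx'⟩ := hw
        symm
        refine Finset.prod_eq_zero hx ?_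
        rw [Set.indicator_of_notMem (show w ∉ {w : Ed → ℝ | Fast Φ (pw w) s m g x} from hx')]
    rw [e1, integral_prod_disj I (fun x => be (66 * (m + 4 * s)) x)
      (fun x => Set.indicator {w : Ed → ℝ | Fast Φ (pw w) s m g x} (1 : (Ed → ℝ) → ℝ))]
    · calc _ ≤ ∏ _x ∈ I, p := by
            refine Finset.prod_le_prod (fun x _ => integral_nonneg fun w => ?_) fun x hx => ?_
            · exact Set.indicator_nonneg (fun _ _ => zero_le_one) w
            · rw [integral_indicator_one (measurable_fast s m g x)]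
              exact hp x (h1 hx)
        _ = p ^ r := by rw [Finset.prod_const, h2]
    · intro x
      exact measurable_one.indicator (measurable_fast s m g x)
    · intro x w w' hw
      have := fast_dep (Φ := Φ) (g := g) hw
      by_cases h5 : Fast Φ (pw w) s m g x
      · rw [Set.indicator_of_mem (show w ∈ {w : Ed → ℝ | Fast Φ (pw w) s m g x} from h5),
          Set.indicator_of_mem (show w' ∈ {w : Ed → ℝ | Fast Φ (pw w) s m g x} from this.1 h5)]
        rfl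
      · rw [Set.indicator_of_notMem (show w ∉ {w : Ed → ℝ | Fast Φ (pw w) s m g x} from h5),
          Set.indicator_of_notMem (show w' ∉ {w : Ed → ℝ | Fast Φ (pw w) s m g x} from
            fun h6 => h5 (this.2 h6))]
    · intro x hx y hy hxy
      exact be_disj (h3 x hx y hy hxy)
  calc _ ≤ ∑ _I ∈ P, p ^ r := Finset.sum_le_sum key
    _ = P.card * p ^ r := by rw [Finset.sum_const, nsmul_eq_mul]
    _ ≤ (Q.card : ℝ) ^ r * p ^ r := by
        refine mul_le_mul_of_nonneg_right ?_ (by positivity)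
        have e1 : P.card ≤ Q.card ^ r := by
          refine (Finset.card_filter_le _ _).trans ?_
          rw [Finset.card_powersetCard]
          exact Nat.choose_le_pow _ _
        exact_mod_cast e1
    _ = _ := by rw [mul_pow]

/-- the lower tail at one scale -/
lemma prob_step (h : Sub Φ) {v : ℤ × ℤ} {n m₁ s r : ℕ} (hn : dd 0 v = n) (hm1 : 1 ≤ m₁)
    (hs1 : 1 ≤ s) (hsm : s ≤ m₁) (hmn : m₁ ≤ n) {S D g p0 d0 : ℝ} (hS1 : 1 ≤ S) (hD : 0 ≤ D)
    (hg : 0 ≤ g) (hp0 : 0 ≤ p0) (hd0 : 0 ≤ d0)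
    (h5 : ∀ z : ℤ × ℤ, dd 0 z ≤ 66 * m₁ → nu.real {w | TT (pw w) 0 z < Φ z - D} ≤ d0)
    (hp : ∀ z : ℤ × ℤ, 66 * m₁ ≤ dd 0 z + 4 * s → dd 0 z ≤ 66 * m₁ + 4 * s →
      nu.real {w | TT (pw w) 0 z < Φ z - (g - 24 * s)} ≤ p0)
    (hr : 43825 * (r:ℝ) * D + (n:ℝ) / m₁ * g + D + 1 ≤ S) :
    nu.real {w | TT (pw w) 0 v < Φ v - S} ≤ (133 * (n:ℝ)) ^ 4 * (7 * (1 / 2) ^ s + d0) +
      ((((ball (66 * n) 0).image (rd s)).card : ℝ) *
        (18 * (2 * ((66 * m₁ / s : ℕ) : ℝ) + 9) * p0)) ^ r := by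
  classical
  set Bl := ball (66 * n) 0 with hBl
  set Q := Bl.image (rd s) with hQ
  have hn1 : 1 ≤ n := by omega
  have hn1' : (1:ℝ) ≤ n := by exact_mod_cast hn1
  have hcard : (Bl.card : ℝ) ≤ (133 * n) ^ 2 := by
    have e1 : Bl.card ≤ (133 * n) ^ 2 := by
      refine (card_ball (66 * n)).trans (Nat.pow_le_pow_left (by omega) 2)
    exact_mod_cast e1
  have hQB : (Q.card : ℝ) ≤ (133 * n) ^ 2 := le_trans (by exact_mod_cast Finset.card_image_le) hcard
  have hN2 : (1:ℝ) ≤ (133 * (n:ℝ)) ^ 2 := one_le_pow₀ (by linarith)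
  have hN4 : (133 * (n:ℝ)) ^ 4 = (133 * n) ^ 2 * (133 * n) ^ 2 := by ring
  have hN24 : (133 * (n:ℝ)) ^ 2 ≤ (133 * n) ^ 4 := by
    rw [hN4]; exact le_mul_of_one_le_left (by positivity) hN2
  have hN14 : (1:ℝ) ≤ (133 * (n:ℝ)) ^ 4 := hN2.trans hN24
  -- the exceptional sets
  let A1 : Set (Ed → ℝ) := {w | Bad (pw w) 0 (66 * n + 1) (3 * (n:ℝ))}
  let A2 : Set (Ed → ℝ) := ⋃ x ∈ Bl, ⋃ y ∈ Bl.filter (fun y => dd x y = 66 * m₁),
    {w | TT (pw w) x y < 3 * (m₁:ℝ)}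
  let A3 : Set (Ed → ℝ) := ⋃ x ∈ Bl, ⋃ y ∈ Bl.filter (fun y => dd x y ≤ 664 * (66 * m₁)),
    {w | 3 * ((664 * (66 * m₁) : ℕ) : ℝ) ≤ TT (pw w) x y}
  let A4 : Set (Ed → ℝ) := ⋃ x ∈ Bl, ⋃ y ∈ ({rd s x} : Finset (ℤ × ℤ)),
    ({w | 3 * ((2 * s : ℕ) : ℝ) ≤ TT (pw w) x y} ∪ {w | 3 * ((2 * s : ℕ) : ℝ) ≤ TT (pw w) y x})
  let A5 : Set (Ed → ℝ) := ⋃ x ∈ Q, ⋃ y ∈ nb s (66 * m₁) x,
    {w | TT (pw w) x y < TB (pw w) (66 * (66 * m₁ + 4 * s)) x y}
  let A6 : Set (Ed → ℝ) := ⋃ x ∈ Bl, ⋃ y ∈ Bl.filter (fun y => dd x y ≤ 66 * m₁),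
    {w | TT (pw w) x y < Φ (y - x) - D}
  let A7 : Set (Ed → ℝ) := {w | ∃ I : Finset (ℤ × ℤ), I ⊆ Q ∧ I.card = r ∧
      (∀ x ∈ I, ∀ y ∈ I, x ≠ y → 2 * (66 * (66 * m₁ + 4 * s)) < dd x y) ∧
      ∀ x ∈ I, Fast Φ (pw w) s (66 * m₁) (g - 24 * s) x}
  have key := union7 {w | TT (pw w) 0 v < Φ v - S} A1 A2 A3 A4 A5 A6 A7 (by
    intro w hw n1 n2 n3 n4 n5 n6
    simp only [A2, A3, A4, A5, A6, Set.mem_iUnion, Set.mem_setOf_eq, exists_prop, not_exists,
      Finset.mem_filter, not_and, not_lt, and_imp, not_le, Finset.mem_singleton, Set.mem_union,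
      not_or] at n2 n3 n4 n5 n6
    refine far_fast h (pw_nonneg w) hn hm1 hs1 (by omega) hS1 hD hg hw n1 n2 n3 ?_ n5 ?_ hr
    · intro x hx
      have := n4 x hx (rd s x) rfl
      push_cast at this
      constructor <;> linarith [this.1, this.2]
    · exact n6)
  have b1 : nu.real A1 ≤ (133 * (n:ℝ)) ^ 4 * (1 / 2) ^ s := by
    calc _ ≤ ((1:ℝ) / 2) ^ n := bad_le 0 (by omega)
      _ ≤ (1 / 2) ^ s := half_mono (by omega)
      _ ≤ _ := le_mul_of_one_le_left (by positivity) hN14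
  have hcf : ∀ P : (ℤ × ℤ) → Prop, ∀ [DecidablePred P], (Bl.filter P).card ≤ Bl.card :=
    fun P _ => Finset.card_filter_le _ _
  have hBB : (Bl.card : ℝ) * Bl.card ≤ (133 * (n:ℝ)) ^ 4 := by
    rw [hN4]; exact mul_le_mul hcard hcard (by positivity) (by positivity)
  have pairs : ∀ (P : (ℤ × ℤ) → (ℤ × ℤ) → Prop) [∀ x, DecidablePred (P x)]
      (T : (ℤ × ℤ) → (ℤ × ℤ) → Set (Ed → ℝ)) (p : ℝ), 0 ≤ p → (∀ x y, P x y → nu.real (T x y) ≤ p) →
      nu.real (⋃ x ∈ Bl, ⋃ y ∈ Bl.filter (P x), T x y) ≤ (133 * (n:ℝ)) ^ 4 * p := by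
    intro P _ T p hp' hT
    refine (union_pairs Bl _ T hp' (fun x _ => hcf _) fun x _ y hy => hT x y
      (Finset.mem_filter.1 hy).2).trans ?_
    rw [← mul_assoc]
    exact mul_le_mul_of_nonneg_right hBB hp'
  have b2 : nu.real A2 ≤ (133 * (n:ℝ)) ^ 4 * (1 / 2) ^ s :=
    pairs (fun x y => dd x y = 66 * m₁) (fun x y => {w | TT (pw w) x y < 3 * (m₁:ℝ)}) _ (by positivity)
      fun x y hxy => (low_le hxy.ge).trans (half_mono hsm)
  have b3 : nu.real A3 ≤ (133 * (n:ℝ)) ^ 4 * (1 / 2) ^ s :=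
    pairs (fun x y => dd x y ≤ 664 * (66 * m₁))
      (fun x y => {w | 3 * ((664 * (66 * m₁) : ℕ) : ℝ) ≤ TT (pw w) x y}) _ (by positivity)
      fun x y hxy => (straight hxy).trans (half_mono (by omega))
  have b6 : nu.real A6 ≤ (133 * (n:ℝ)) ^ 4 * d0 :=
    pairs (fun x y => dd x y ≤ 66 * m₁) (fun x y => {w | TT (pw w) x y < Φ (y - x) - D}) _ hd0
      fun x y hxy => by
        have hd : dd 0 (y - x) = dd x y := by
          simp only [dd, Prod.fst_sub, Prod.snd_sub, Prod.fst_zero, Prod.snd_zero]; omega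
        have e1 := nu_TT_sh x y (measurableSet_Iio (a := Φ (y - x) - D))
        have e2 := h5 (y - x) (by rw [hd]; exact hxy)
        have e3 : {w : Ed → ℝ | TT (pw w) x y < Φ (y - x) - D} =
          {w | TT (pw w) x y ∈ Set.Iio (Φ (y - x) - D)} := rfl
        rw [e3, e1]
        exact e2
  have b4 : nu.real A4 ≤ (133 * (n:ℝ)) ^ 4 * (2 * (1 / 2) ^ s) := by
    refine (union_pairs Bl (fun x => {rd s x}) _ (c := 1) (p := 2 * (1 / 2) ^ s) (by positivity)
      (fun x _ => by simp) ?_).trans ?_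
    · intro x _ y hy
      rw [Finset.mem_singleton] at hy
      subst hy
      have e1 := dd_rd hs1 x
      have e2 : dd (rd s x) x ≤ 2 * s := by rw [dd_comm]; exact e1
      refine (measureReal_union_le _ _).trans ?_
      have e3 := straight e1
      have e4 := straight e2
      have e5 : ((1:ℝ) / 2) ^ (2 * s) ≤ (1 / 2) ^ s := half_mono (by omega)
      linarith
    · rw [Nat.cast_one, one_mul]
      exact mul_le_mul_of_nonneg_right (hcard.trans hN24) (by positivity)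
  have b5 : nu.real A5 ≤ (133 * (n:ℝ)) ^ 4 * (2 * (1 / 2) ^ s) := by
    refine (union_pairs Q (fun x => nb s (66 * m₁) x) _ (c := (133 * n) ^ 2) (p := 2 * (1 / 2) ^ s)
      (by positivity) ?_ ?_).trans ?_
    · intro x hx
      refine (count_nb hs1 (66 * m₁) hx).trans ?_
      have e1 : 66 * m₁ / s ≤ 66 * n := (Nat.div_le_self _ _).trans (by omega)
      nlinarith
    · intro x hx y hy
      have hy' := hy
      rw [nb, Finset.mem_filter] at hy'
      refine (local_le hy'.2.2).trans ?_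
      have e5 : ((1:ℝ) / 2) ^ (66 * m₁ + 4 * s) ≤ (1 / 2) ^ s := half_mono (by omega)
      linarith
    · rw [← mul_assoc]
      refine mul_le_mul_of_nonneg_right ?_ (by positivity)
      rw [hN4]
      push_cast
      exact mul_le_mul_of_nonneg_right hQB (by positivity)
  have b7 : nu.real A7 ≤ ((Q.card : ℝ) * (18 * (2 * ((66 * m₁ / s : ℕ) : ℝ) + 9) * p0)) ^ r :=
    indep_le Q s (66 * m₁) r (g - 24 * s) _ (fun x hx => fast_le hs1 hx hp hp0) (by positivity)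
  linarith

end Q69.FM
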