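import Pool.Agent.Q69.FM.C

/-!
# First passage percolation: a long vector splits into few shorter ones, mean passage times
-/

set_option autoImplicit false

open MeasureTheory ProbabilityTheory Finset Filter
open scoped Topology

namespace Q69.FM

open Q70.Fp Q69.FL

variable {μ : ℝ × ℝ → ℝ}

/-- cutting a nearly optimal walk -/
lemma cut_mean {w : Ed → ℝ} (hw : ∀ e, 0 ≤ w e) {v : ℤ × ℤ} {n m₁ : ℕ} (hn1 : 1 ≤ n)
    (hn : dd 0 v ≤ 2 * n) (hm1 : 1 ≤ m₁) (hmn : 66 * m₁ ≤ n) (hmn' : n ≤ 132 * m₁) {D : ℝ}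
    (hD : 1 ≤ D) (hT : TT w 0 v ≤ hm v + 1)
    (G1 : ¬ Bad w 0 (66 * (2 * n) + 1) (3 * ((2 * n : ℕ) : ℝ)))
    (G2 : ∀ x ∈ ball (66 * (2 * n)) 0, ∀ y ∈ ball (66 * (2 * n)) 0, dd x y = 66 * m₁ →
      3 * (m₁:ℝ) ≤ TT w x y)
    (G5 : ∀ x ∈ ball (66 * (2 * n)) 0, ∀ y ∈ ball (66 * (2 * n)) 0, dd x y ≤ 66 * m₁ →
      hm (y - x) - D ≤ TT w x y) :
    ∃ (k : ℕ) (z : ℕ → ℤ × ℤ), z 0 = 0 ∧ (∀ i < k, dd (z i) (z (i + 1)) ≤ n) ∧ dd (z k) v ≤ n ∧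
      ∑ i ∈ range k, hm (z (i + 1) - z i) + hm (v - z k) ≤ hm v + 267 * D := by
  have hm0 : (0:ℝ) < m₁ := by exact_mod_cast hm1
  have hn1' : (1:ℝ) ≤ n := by exact_mod_cast hn1
  have hup := hm_up v
  have hn' : (dd 0 v : ℝ) ≤ 2 * n := by exact_mod_cast hn
  obtain ⟨N, p, hp, hlt⟩ := exists_lt (show TT w 0 v < TT w 0 v + 1 by linarith)
  have hlt3 : Wt w p N < 3 * ((2 * n : ℕ) : ℝ) := by push_cast; linarith
  have hin : ∀ j ≤ N, p j ∈ ball (66 * (2 * n)) 0 := by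
    intro j hj
    rw [mem_ball]
    by_contra hcon
    push Not at hcon
    obtain ⟨q, h1, h2, h3, h4⟩ := bad_of_exit hw hp hj hcon
    exact G1 ⟨q, h1, h2, h3, h4.trans hlt3.le⟩
  obtain ⟨k, z, z0, z1, z2, z3, z4⟩ := cut_walk hw (show 1 ≤ 66 * m₁ by omega) v N 0 p hp
  have hzin : ∀ i ≤ k, z i ∈ ball (66 * (2 * n)) 0 := by
    intro i hi
    obtain ⟨j, hj, hj'⟩ := z3 i hi
    rw [hj']; exact hin j hj
  have hge : (k:ℝ) * (3 * m₁) ≤ ∑ i ∈ range k, TT w (z i) (z (i + 1)) := by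
    calc (k:ℝ) * (3 * m₁) = ∑ _i ∈ range k, (3 * (m₁:ℝ)) := by
          rw [Finset.sum_const, Finset.card_range, nsmul_eq_mul]
      _ ≤ _ := by
          refine Finset.sum_le_sum fun i hi => ?_
          rw [Finset.mem_range] at hi
          exact G2 _ (hzin i (by omega)) _ (hzin (i + 1) (by omega)) (z1 i hi)
  have e2 := TT_nonneg hw (z k) v
  have hk : (k:ℝ) ≤ 264 := by
    have e3 : (n:ℝ) ≤ 132 * m₁ := by exact_mod_cast hmn'
    have e4 : (k:ℝ) * (3 * m₁) ≤ 264 * (3 * m₁) := by linarith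
    exact le_of_mul_le_mul_right e4 (by positivity)
  refine ⟨k, z, z0, fun i hi => (z1 i hi).le.trans hmn, z2.le.trans hmn, ?_⟩
  have c1 : ∑ i ∈ range k, (hm (z (i + 1) - z i) - D) ≤ ∑ i ∈ range k, TT w (z i) (z (i + 1)) := by
    refine Finset.sum_le_sum fun i hi => ?_
    rw [Finset.mem_range] at hi
    exact G5 _ (hzin i (by omega)) _ (hzin (i + 1) (by omega)) (z1 i hi).le
  rw [Finset.sum_sub_distrib, Finset.sum_const, Finset.card_range, nsmul_eq_mul] at c1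
  have c2 := G5 _ (hzin k le_rfl) v (mem_ball.2 (by omega)) z2.le
  have c3 : (k:ℝ) * D ≤ 264 * D := mul_le_mul_of_nonneg_right hk (by linarith)
  linarith

/-- every long vector is a sum of few shorter ones, with almost the same mean passage times -/
lemma split_mean (h : Shape μ) {a : ℝ} (ha : 0 < a) (hS : Se hm a) :
    ∀ᶠ n : ℕ in atTop, ∀ v : ℤ × ℤ, dd 0 v ≤ 2 * n → ∃ (k : ℕ) (z : ℕ → ℤ × ℤ), z 0 = 0 ∧
      (∀ i < k, dd (z i) (z (i + 1)) ≤ n) ∧ dd (z k) v ≤ n ∧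
      ∑ i ∈ range k, hm (z (i + 1) - z i) + hm (v - z k) ≤ hm v + 267 * (n:ℝ) ^ a := by
  classical
  obtain ⟨κ, c, C, hκ, hc, hC, hU⟩ := unifL (hm_Sub h) ha hS
  obtain ⟨κ', hκ'⟩ : ∃ κ' : ℝ, κ' = min κ 1 / 2 := ⟨_, rfl⟩
  have hmin : 0 < min κ 1 := lt_min hκ one_pos
  have hκ'0 : 0 < κ' := by rw [hκ']; positivity
  have k1 : κ' < κ := by
    have := min_le_left κ 1
    rw [hκ']; linarith
  have k2 : κ' < 1 := by
    have := min_le_right κ 1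
    rw [hκ']; linarith
  have hl2 : 0 < Real.log 2 := Real.log_pos one_lt_two
  filter_upwards [eventually_ge_atTop 66,
    absorb (266 ^ 4) (show 0 < Real.log 2 / 132 by positivity) hκ'0 k2,
    absorb (266 ^ 4 * C) (show 0 < c / 2 ^ κ by positivity) hκ'0 k1,
    absorb 30 one_pos (show 0 < κ' / 2 by positivity) (show κ' / 2 < κ' by linarith)]
    with n hn66 u1 u2 u3 v hv
  obtain ⟨m₁, hm₁⟩ : ∃ m₁ : ℕ, m₁ = n / 66 := ⟨_, rfl⟩
  have hm1 : 1 ≤ m₁ := by omega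
  have hmn : 66 * m₁ ≤ n := by omega
  have hmn' : n ≤ 132 * m₁ := by omega
  have hn1 : (1:ℝ) ≤ n := by exact_mod_cast (by omega : 1 ≤ n)
  have hn0 : (0:ℝ) < n := by linarith
  have hmr : (n:ℝ) ≤ 132 * m₁ := by exact_mod_cast hmn'
  obtain ⟨D, hD⟩ : ∃ D : ℝ, D = ((66 * m₁ : ℕ) : ℝ) ^ a := ⟨_, rfl⟩
  have hM1 : (1:ℝ) ≤ ((66 * m₁ : ℕ) : ℝ) := by exact_mod_cast (by omega : 1 ≤ 66 * m₁)
  have hD1 : 1 ≤ D := by rw [hD]; exact Real.one_le_rpow hM1 ha.le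
  have hDn : D ≤ (n:ℝ) ^ a := by
    rw [hD]; exact Real.rpow_le_rpow (by linarith) (by exact_mod_cast hmn) ha.le
  set Bl := ball (66 * (2 * n)) 0 with hBl
  have hcard : (Bl.card : ℝ) ≤ (266 * n) ^ 2 := by
    have e1 : Bl.card ≤ (266 * n) ^ 2 := by
      refine (card_ball (66 * (2 * n))).trans (Nat.pow_le_pow_left (by omega) 2)
    exact_mod_cast e1
  have hN2 : (1:ℝ) ≤ (266 * (n:ℝ)) ^ 2 := one_le_pow₀ (by linarith)
  have hN4 : (266 * (n:ℝ)) ^ 4 = (266 * n) ^ 2 * (266 * n) ^ 2 := by ring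
  have hN14 : (1:ℝ) ≤ (266 * (n:ℝ)) ^ 4 := one_le_pow₀ (by linarith)
  let A0 : Set (Ed → ℝ) := {w | hm v + 1 ≤ TT (pw w) 0 v}
  let A1 : Set (Ed → ℝ) := {w | Bad (pw w) 0 (66 * (2 * n) + 1) (3 * ((2 * n : ℕ) : ℝ))}
  let A2 : Set (Ed → ℝ) := ⋃ x ∈ Bl, ⋃ y ∈ Bl.filter (fun y => dd x y = 66 * m₁),
    {w | TT (pw w) x y < 3 * (m₁:ℝ)}
  let A6 : Set (Ed → ℝ) := ⋃ x ∈ Bl, ⋃ y ∈ Bl.filter (fun y => dd x y ≤ 66 * m₁),
    {w | TT (pw w) x y < hm (y - x) - D}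
  have hcf : ∀ P : (ℤ × ℤ) → Prop, ∀ [DecidablePred P], (Bl.filter P).card ≤ Bl.card :=
    fun P _ => Finset.card_filter_le _ _
  have hBB : (Bl.card : ℝ) * Bl.card ≤ (266 * (n:ℝ)) ^ 4 := by
    rw [hN4]; exact mul_le_mul hcard hcard (by positivity) (by positivity)
  have pairs : ∀ (P : (ℤ × ℤ) → (ℤ × ℤ) → Prop) [∀ x, DecidablePred (P x)]
      (T : (ℤ × ℤ) → (ℤ × ℤ) → Set (Ed → ℝ)) (p : ℝ), 0 ≤ p → (∀ x y, P x y → nu.real (T x y) ≤ p) →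
      nu.real (⋃ x ∈ Bl, ⋃ y ∈ Bl.filter (P x), T x y) ≤ (266 * (n:ℝ)) ^ 4 * p := by
    intro P _ T p hp' hT
    refine (union_pairs Bl _ T hp' (fun x _ => hcf _) fun x _ y hy => hT x y
      (Finset.mem_filter.1 hy).2).trans ?_
    rw [← mul_assoc]
    exact mul_le_mul_of_nonneg_right hBB hp'
  have half : (266 * (n:ℝ)) ^ 4 * (1 / 2) ^ m₁ ≤ Real.exp (-((n:ℝ) ^ κ')) := by
    refine le_trans ?_ u1
    have e1 : ((1:ℝ) / 2) ^ m₁ ≤ Real.exp (-(Real.log 2 / 132 * (n:ℝ) ^ (1:ℝ))) := by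
      rw [half_exp, Real.exp_le_exp, Real.rpow_one]
      have : Real.log 2 * (n:ℝ) ≤ Real.log 2 * (132 * m₁) := mul_le_mul_of_nonneg_left hmr hl2.le
      linarith
    calc (266 * (n:ℝ)) ^ 4 * (1 / 2) ^ m₁ = 266 ^ 4 * (n:ℝ) ^ 4 * (1 / 2) ^ m₁ := by ring
      _ ≤ _ := by gcongr
  have b1 : nu.real A1 ≤ Real.exp (-((n:ℝ) ^ κ')) := by
    refine le_trans ?_ half
    calc _ ≤ ((1:ℝ) / 2) ^ (2 * n) := bad_le 0 (by omega)
      _ ≤ (1 / 2) ^ m₁ := half_mono (by omega)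
      _ ≤ _ := le_mul_of_one_le_left (by positivity) hN14
  have b2 : nu.real A2 ≤ Real.exp (-((n:ℝ) ^ κ')) :=
    (pairs (fun x y => dd x y = 66 * m₁) (fun x y => {w | TT (pw w) x y < 3 * (m₁:ℝ)}) _ (by positivity)
      fun x y hxy => (low_le hxy.ge)).trans half
  have b6 : nu.real A6 ≤ Real.exp (-((n:ℝ) ^ κ')) := by
    refine (pairs (fun x y => dd x y ≤ 66 * m₁) (fun x y => {w | TT (pw w) x y < hm (y - x) - D})
      (C * Real.exp (-(c * ((66 * m₁ : ℕ) : ℝ) ^ κ))) (by positivity) ?_).trans ?_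
    · intro x y hxy
      have hd : dd 0 (y - x) = dd x y := by
        simp only [dd, Prod.fst_sub, Prod.snd_sub, Prod.fst_zero, Prod.snd_zero]; omega
      have e1 := nu_TT_sh x y (measurableSet_Iio (a := hm (y - x) - D))
      have e2 := hU (66 * m₁) (by omega) (y - x) (by rw [hd]; exact hxy)
      rw [← hD] at e2
      have e3 : {w : Ed → ℝ | TT (pw w) x y < hm (y - x) - D} =
        {w | TT (pw w) x y ∈ Set.Iio (hm (y - x) - D)} := rfl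
      rw [e3, e1]
      exact e2
    · refine le_trans ?_ u2
      have e1 : Real.exp (-(c * ((66 * m₁ : ℕ) : ℝ) ^ κ)) ≤ Real.exp (-(c / 2 ^ κ * (n:ℝ) ^ κ)) := by
        rw [Real.exp_le_exp]
        have f1 : (n:ℝ) ^ κ ≤ 2 ^ κ * ((66 * m₁ : ℕ) : ℝ) ^ κ := by
          rw [← Real.mul_rpow (by norm_num) (by positivity)]
          refine Real.rpow_le_rpow hn0.le ?_ hκ.le
          push_cast
          linarith
        have f2 : c / 2 ^ κ * (n:ℝ) ^ κ ≤ c / 2 ^ κ * (2 ^ κ * ((66 * m₁ : ℕ) : ℝ) ^ κ) :=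
          mul_le_mul_of_nonneg_left f1 (by positivity)
        have f3 : c / 2 ^ κ * (2 ^ κ * ((66 * m₁ : ℕ) : ℝ) ^ κ) = c * ((66 * m₁ : ℕ) : ℝ) ^ κ := by
          have : (2:ℝ) ^ κ ≠ 0 := by positivity
          field_simp
        linarith
      calc (266 * (n:ℝ)) ^ 4 * (C * Real.exp (-(c * ((66 * m₁ : ℕ) : ℝ) ^ κ)))
          = 266 ^ 4 * C * (n:ℝ) ^ 4 * Real.exp (-(c * ((66 * m₁ : ℕ) : ℝ) ^ κ)) := by ring
        _ ≤ _ := by gcongr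
  -- the exceptional sets do not cover
  have b26 : nu.real (A2 ∪ A6) ≤ nu.real A2 + nu.real A6 := measureReal_union_le _ _
  have b0 : (hm v + 1) * nu.real A0 ≤ hm v :=
    mul_meas_ge_le_integral_of_nonneg (Eventually.of_forall fun w => TT_nonneg (pw_nonneg w) _ _)
      (integrable_TT 0 v) _
  have hH0 := hm_nonneg v
  have hH : hm v + 1 ≤ 5 * n := by
    have e1 := hm_up v
    have e2 : (dd 0 v : ℝ) ≤ 2 * n := by exact_mod_cast hv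
    linarith
  have small : 5 * (n:ℝ) * (3 * Real.exp (-((n:ℝ) ^ κ'))) < 1 := by
    rw [one_mul] at u3
    have e1 : (n:ℝ) ≤ (n:ℝ) ^ 4 := le_self_pow₀ hn1 (by norm_num)
    have e2 : Real.exp (-((n:ℝ) ^ (κ' / 2))) ≤ 1 := Real.exp_le_one_iff.2 (by
      have : 0 ≤ (n:ℝ) ^ (κ' / 2) := by positivity
      linarith)
    have e3 : 30 * (n:ℝ) * Real.exp (-((n:ℝ) ^ κ')) ≤ 30 * (n:ℝ) ^ 4 * Real.exp (-((n:ℝ) ^ κ')) := by
      gcongr
    linarith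
  have tot : nu.real A0 + nu.real A1 + nu.real (A2 ∪ A6) < 1 := by
    by_contra hcon
    push Not at hcon
    have e1 : 1 ≤ nu.real A0 + 3 * Real.exp (-((n:ℝ) ^ κ')) := by linarith
    have e2 : (hm v + 1) * 1 ≤ (hm v + 1) * (nu.real A0 + 3 * Real.exp (-((n:ℝ) ^ κ'))) :=
      mul_le_mul_of_nonneg_left e1 (by linarith)
    have e3 : (hm v + 1) * (3 * Real.exp (-((n:ℝ) ^ κ'))) ≤ 5 * n * (3 * Real.exp (-((n:ℝ) ^ κ'))) :=
      mul_le_mul_of_nonneg_right hH (by positivity)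
    rw [mul_add] at e2
    linarith
  obtain ⟨w, n0, n1, n26⟩ := exists_out A0 A1 (A2 ∪ A6) tot
  rw [Set.mem_union, not_or] at n26
  obtain ⟨n2, n6⟩ := n26
  simp only [A0, A2, A6, Set.mem_iUnion, Set.mem_setOf_eq, exists_prop, not_exists,
    Finset.mem_filter, not_and, not_lt, and_imp, not_le] at n0 n2 n6
  obtain ⟨k, z, z0, z1, z2, z3⟩ := cut_mean (pw_nonneg w) (show 1 ≤ n by omega) hv hm1 hmn hmn' hD1
    n0.le n1 n2 n6
  exact ⟨k, z, z0, z1, z2, by linarith⟩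

end Q69.FM
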