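import Pool.Agent.Q69.FM.A

/-!
# First passage percolation: convex hulls of normalised vectors, mean passage times
-/

set_option autoImplicit false

open MeasureTheory ProbabilityTheory Finset Filter
open scoped Topology Pointwise

namespace Q69.FM

open Q70.Fp Q69.FL

variable {μ : ℝ × ℝ → ℝ}

/-- the time constant is subadditive on the plane -/
lemma mu_add (h : Shape μ) (p q : ℝ × ℝ) : μ (p + q) ≤ μ p + μ q := by
  have h1 := fl_lim h p
  have h2 := fl_lim h q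
  have h3 := fl_lim h (p + q)
  have h4 : Tendsto (fun n : ℕ => (n:ℝ)⁻¹ * mz μ (fl n p) + (n:ℝ)⁻¹ * mz μ (fl n q) + 6 * (n:ℝ)⁻¹)
      atTop (𝓝 (μ p + μ q + 6 * 0)) := (h1.add h2).add (tendsto_inv_atTop_nhds_zero_nat.const_mul 6)
  rw [mul_zero, add_zero] at h4
  refine le_of_tendsto_of_tendsto h3 h4 ?_
  filter_upwards [eventually_ge_atTop 1] with n hn
  have hn0 : (0:ℝ) < n := by exact_mod_cast hn
  have e1 := mz_lip h (fl n p + fl n q) (fl n (p + q))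
  have e2 := mz_add h (fl n p) (fl n q)
  have e3 : dd (fl n p + fl n q) (fl n (p + q)) ≤ 2 := by
    have f : ∀ s t : ℝ, (⌊(n:ℝ) * (s + t)⌋ - (⌊(n:ℝ) * s⌋ + ⌊(n:ℝ) * t⌋)).natAbs ≤ 1 := by
      intro s t
      rw [mul_add]
      have a1 := Int.le_floor_add ((n:ℝ) * s) ((n:ℝ) * t)
      have a2 := Int.le_floor_add_floor ((n:ℝ) * s) ((n:ℝ) * t)
      omega
    have g1 := f p.1 q.1
    have g2 := f p.2 q.2
    simp only [dd, fl, Prod.fst_add, Prod.snd_add]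
    omega
  have e4 : (dd (fl n p + fl n q) (fl n (p + q)) : ℝ) ≤ 2 := by exact_mod_cast e3
  rw [inv_mul_le_iff₀ hn0]
  have h6 : (n:ℝ) * ((n:ℝ)⁻¹ * mz μ (fl n p) + (n:ℝ)⁻¹ * mz μ (fl n q) + 6 * (n:ℝ)⁻¹)
      = mz μ (fl n p) + mz μ (fl n q) + 6 := by
    field_simp
  rw [h6]
  linarith

/-- a lattice vector as a vector of the plane -/
def cv (y : ℤ × ℤ) : ℝ × ℝ := ((y.1 : ℝ), (y.2 : ℝ))

lemma cv_zero : cv 0 = 0 := by simp [cv]

lemma cv_add (x y : ℤ × ℤ) : cv (x + y) = cv x + cv y := by simp [cv]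

lemma cv_smul (n : ℕ) (x : ℤ × ℤ) : cv ((n : ℤ) • x) = (n : ℝ) • cv x := by simp [cv, Prod.smul_def]

/-- the normalised short vectors -/
def Vn (n : ℕ) : Set (ℝ × ℝ) :=
  {p | p = 0 ∨ ∃ y : ℤ × ℤ, y ≠ 0 ∧ dd 0 y ≤ n ∧ p = (hm y)⁻¹ • cv y}

/-- their convex hull -/
def Kn (n : ℕ) : Set (ℝ × ℝ) := convexHull ℝ (Vn n)

lemma Kn_conv (n : ℕ) : Convex ℝ (Kn n) := convex_convexHull ℝ _

lemma zero_Kn (n : ℕ) : (0 : ℝ × ℝ) ∈ Kn n := subset_convexHull ℝ _ (Or.inl rfl)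

lemma Kn_mono {n m : ℕ} (h : n ≤ m) : Kn n ⊆ Kn m := by
  refine convexHull_mono ?_
  rintro p (hp | ⟨y, h1, h2, h3⟩)
  · exact Or.inl hp
  · exact Or.inr ⟨y, h1, h2.trans h, h3⟩

lemma scale_mono {n : ℕ} {s t : ℝ} (hs : 0 ≤ s) (hst : s ≤ t) : s • Kn n ⊆ t • Kn n := by
  rintro p hp
  rw [Set.mem_smul_set] at hp ⊢
  obtain ⟨q, hq, rfl⟩ := hp
  rcases eq_or_lt_of_le (hs.trans hst) with ht | ht
  · have : s = 0 := by linarith
    exact ⟨q, hq, by rw [this, ← ht]⟩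
  · refine ⟨(s / t) • q, ?_, ?_⟩
    · exact (Kn_conv n).smul_mem_of_zero_mem (zero_Kn n) hq ⟨by positivity, by rw [div_le_one ht]; exact hst⟩
    · rw [smul_smul, mul_div_cancel₀ _ ht.ne']

lemma mem_self (h : Shape μ) {n : ℕ} {y : ℤ × ℤ} (hy : dd 0 y ≤ n) : cv y ∈ hm y • Kn n := by
  rw [Set.mem_smul_set]
  by_cases h0 : y = 0
  · refine ⟨0, zero_Kn n, ?_⟩
    rw [h0, cv_zero, smul_zero]
  · refine ⟨(hm y)⁻¹ • cv y, subset_convexHull ℝ _ (Or.inr ⟨y, h0, hy, rfl⟩), ?_⟩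
    have h1 : 0 < hm y := by
      have e1 := (hm_Sub h).low y
      have e2 : (1:ℝ) ≤ dd 0 y := by exact_mod_cast dd_pos h0
      linarith
    rw [smul_smul, mul_inv_cancel₀ h1.ne', one_smul]

lemma mem_add {n : ℕ} {s t : ℝ} (hs : 0 ≤ s) (ht : 0 ≤ t) {p q : ℝ × ℝ} (hp : p ∈ s • Kn n)
    (hq : q ∈ t • Kn n) : p + q ∈ (s + t) • Kn n := by
  rw [(Kn_conv n).add_smul hs ht]
  exact Set.add_mem_add hp hq

/-- the step from one scale to the next -/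
lemma Kn_step (h : Shape μ) {a : ℝ} {n : ℕ} (hn : 1 ≤ n)
    (H : ∀ v : ℤ × ℤ, dd 0 v ≤ 2 * n → ∃ (k : ℕ) (z : ℕ → ℤ × ℤ), z 0 = 0 ∧
      (∀ i < k, dd (z i) (z (i + 1)) ≤ n) ∧ dd (z k) v ≤ n ∧
      ∑ i ∈ range k, hm (z (i + 1) - z i) + hm (v - z k) ≤ hm v + 267 * (n:ℝ) ^ a) :
    Kn (2 * n) ⊆ (1 + 5874 * (n:ℝ) ^ (a - 1)) • Kn n := by
  have hn0 : (0:ℝ) < n := by exact_mod_cast hn
  have hd0 : 0 ≤ 5874 * (n:ℝ) ^ (a - 1) := by positivity
  refine convexHull_min ?_ ((Kn_conv n).smul _)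
  rintro p (rfl | ⟨y, h1, h2, rfl⟩)
  · rw [Set.mem_smul_set]
    exact ⟨0, zero_Kn n, smul_zero _⟩
  have hy1 : (1:ℝ) ≤ dd 0 y := by exact_mod_cast dd_pos h1
  have hlow := (hm_Sub h).low y
  have hpos : 0 < hm y := by linarith
  by_cases hc : dd 0 y ≤ n
  · have e1 : (hm y)⁻¹ • cv y ∈ Kn n := subset_convexHull ℝ _ (Or.inr ⟨y, h1, hc, rfl⟩)
    have e2 : (hm y)⁻¹ • cv y ∈ (1:ℝ) • Kn n := by rwa [one_smul]
    exact scale_mono zero_le_one (by linarith) e2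
  · push Not at hc
    obtain ⟨k, z, z0, z1, z2, z3⟩ := H y h2
    have key : ∀ i ≤ k, cv (z i) ∈ (∑ j ∈ range i, hm (z (j + 1) - z j)) • Kn n := by
      intro i
      induction i with
      | zero =>
        intro _
        rw [z0, cv_zero, Finset.sum_range_zero, Set.mem_smul_set]
        exact ⟨0, zero_Kn n, smul_zero _⟩
      | succ i ih =>
        intro hi
        rw [Finset.sum_range_succ]
        have e1 : cv (z (i + 1)) = cv (z i) + cv (z (i + 1) - z i) := by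
          rw [← cv_add]
          congr 1
          abel
        rw [e1]
        refine mem_add (Finset.sum_nonneg fun _ _ => hm_nonneg _) (hm_nonneg _) (ih (by omega))
          (mem_self h ?_)
        have e2 : dd 0 (z (i + 1) - z i) = dd (z i) (z (i + 1)) := by
          simp only [dd, Prod.fst_sub, Prod.snd_sub, Prod.fst_zero, Prod.snd_zero]; omega
        rw [e2]
        exact z1 i (by omega)
    have e3 : cv y ∈ (hm y + 267 * (n:ℝ) ^ a) • Kn n := by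
      have e1 : cv y = cv (z k) + cv (y - z k) := by
        rw [← cv_add]
        congr 1
        abel
      rw [e1]
      have f1 : 0 ≤ ∑ j ∈ range k, hm (z (j + 1) - z j) := Finset.sum_nonneg fun _ _ => hm_nonneg _
      refine scale_mono (add_nonneg f1 (hm_nonneg _)) z3
        (mem_add f1 (hm_nonneg _) (key k le_rfl) (mem_self h ?_))
      have e2 : dd 0 (y - z k) = dd (z k) y := by
        simp only [dd, Prod.fst_sub, Prod.snd_sub, Prod.fst_zero, Prod.snd_zero]; omega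
      rw [e2]
      exact z2
    have e4 : (hm y)⁻¹ • cv y ∈ ((hm y)⁻¹ * (hm y + 267 * (n:ℝ) ^ a)) • Kn n := by
      rw [Set.mem_smul_set] at e3 ⊢
      obtain ⟨q, hq, hq'⟩ := e3
      exact ⟨q, hq, by rw [← hq', smul_smul]⟩
    refine scale_mono (by positivity) ?_ e4
    rw [mul_add, inv_mul_cancel₀ hpos.ne']
    have e5 : (n:ℝ) / 22 ≤ hm y := by
      have : (n:ℝ) ≤ dd 0 y := by exact_mod_cast hc.le
      linarith
    have e6 : (hm y)⁻¹ * (267 * (n:ℝ) ^ a) ≤ 5874 * (n:ℝ) ^ (a - 1) := by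
      rw [inv_mul_le_iff₀ hpos]
      have e7 : (n:ℝ) ^ a = (n:ℝ) * (n:ℝ) ^ (a - 1) := by
        rw [Real.rpow_sub_one hn0.ne']
        field_simp
      have e8 : (n:ℝ) / 22 * (5874 * (n:ℝ) ^ (a - 1)) ≤ hm y * (5874 * (n:ℝ) ^ (a - 1)) :=
        mul_le_mul_of_nonneg_right e5 (by positivity)
      rw [e7]
      linarith
    linarith

/-- iteration over the scales -/
lemma Kn_iter (h : Shape μ) {a : ℝ} (ha : 0 < a) (ha1 : a < 1)
    (H : ∀ᶠ n : ℕ in atTop, ∀ v : ℤ × ℤ, dd 0 v ≤ 2 * n → ∃ (k : ℕ) (z : ℕ → ℤ × ℤ), z 0 = 0 ∧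
      (∀ i < k, dd (z i) (z (i + 1)) ≤ n) ∧ dd (z k) v ≤ n ∧
      ∑ i ∈ range k, hm (z (i + 1) - z i) + hm (v - z k) ≤ hm v + 267 * (n:ℝ) ^ a) :
    ∃ (j0 : ℕ) (A : ℝ), 0 < A ∧ ∀ j, j0 ≤ j → ∀ J, j ≤ J →
      Kn (2 ^ J) ⊆ Real.exp (A * (((2:ℝ) ^ j) ^ (a - 1))) • Kn (2 ^ j) := by
  obtain ⟨n0, hn0⟩ := eventually_atTop.1 H
  obtain ⟨ρ, hρ⟩ : ∃ ρ : ℝ, ρ = (2:ℝ) ^ (a - 1) := ⟨_, rfl⟩
  have hρ0 : 0 < ρ := by rw [hρ]; positivity
  have hρ1 : ρ < 1 := by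
    rw [hρ]
    exact Real.rpow_lt_one_of_one_lt_of_neg (by norm_num) (by linarith)
  have hpow : ∀ J : ℕ, ((2:ℝ) ^ J) ^ (a - 1) = ρ ^ J := by
    intro J
    rw [hρ, ← Real.rpow_natCast, ← Real.rpow_natCast, ← Real.rpow_mul (by norm_num),
      ← Real.rpow_mul (by norm_num), mul_comm]
  obtain ⟨A, hA⟩ : ∃ A : ℝ, A = 5874 / (1 - ρ) := ⟨_, rfl⟩
  have hA0 : 0 < A := by
    rw [hA]
    have : 0 < 1 - ρ := by linarith
    positivity
  have hA1 : A * (1 - ρ) = 5874 := by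
    rw [hA]
    have : 1 - ρ ≠ 0 := by
      have : 0 < 1 - ρ := by linarith
      exact this.ne'
    field_simp
  refine ⟨n0, A, hA0, fun j hj J hJ => ?_⟩
  rw [hpow]
  have key : ∀ i : ℕ, Kn (2 ^ (j + i)) ⊆ Real.exp (A * (ρ ^ j - ρ ^ (j + i))) • Kn (2 ^ j) := by
    intro i
    induction i with
    | zero => simp
    | succ i ih =>
      have h1 : n0 ≤ 2 ^ (j + i) := by
        have e1 : j + i < 2 ^ (j + i) := Nat.lt_two_pow_self
        omega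
      have h2 := Kn_step h (Nat.one_le_two_pow) (hn0 _ h1)
      have h3 : 2 * 2 ^ (j + i) = 2 ^ (j + (i + 1)) := by rw [← add_assoc, pow_succ]; ring
      rw [h3] at h2
      have h4 : (((2 ^ (j + i) : ℕ) : ℝ)) ^ (a - 1) = ρ ^ (j + i) := by
        push_cast
        exact hpow _
      rw [h4] at h2
      intro p hp
      obtain ⟨q, hq, rfl⟩ := Set.mem_smul_set.1 (h2 hp)
      obtain ⟨r, hr, rfl⟩ := Set.mem_smul_set.1 (ih hq)
      rw [smul_smul]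
      refine scale_mono (by positivity) ?_ (Set.smul_mem_smul_set hr)
      have e1 : A * (ρ ^ j - ρ ^ (j + (i + 1))) = 5874 * ρ ^ (j + i) + A * (ρ ^ j - ρ ^ (j + i)) := by
        rw [← hA1]
        ring
      rw [e1, Real.exp_add]
      refine mul_le_mul_of_nonneg_right ?_ (Real.exp_pos _).le
      have := Real.add_one_le_exp (5874 * ρ ^ (j + i))
      linarith
  obtain ⟨i, rfl⟩ := Nat.exists_eq_add_of_le hJ
  refine (key i).trans (scale_mono (Real.exp_pos _).le (Real.exp_le_exp.2 ?_))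
  refine mul_le_mul_of_nonneg_left ?_ hA0.le
  have : 0 < ρ ^ (j + i) := by positivity
  linarith

lemma sq_int (x y : ℤ × ℤ) : Integrable (fun w => TT (pw w) x y ^ 2) nu := by
  obtain ⟨S, h1, h2, -, h3, -⟩ := exists_major x y
  refine (h3.const_mul 8).mono' ((measurable_TT x y).pow_const 2).aestronglyMeasurable
    (Eventually.of_forall fun w => ?_)
  rw [Real.norm_eq_abs, abs_of_nonneg (sq_nonneg _)]
  have e1 := TT_nonneg (pw_nonneg w) x y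
  have e2 := h2 w
  have e3 := Real.quadratic_le_exp_of_nonneg (show 0 ≤ 1 / 2 * S w by linarith)
  nlinarith

/-- second moments -/
lemma sq_chain (x : ℤ × ℤ) (n : ℕ) :
    ∫ w, TT (pw w) 0 ((n : ℤ) • x) ^ 2 ∂nu ≤ (n:ℝ) ^ 2 * ∫ w, TT (pw w) 0 x ^ 2 ∂nu := by
  have hint : ∀ v : ℤ × ℤ, Integrable (fun w => TT (pw w) 0 v ^ 2) nu := fun v => sq_int 0 v
  have hM : 0 ≤ ∫ w, TT (pw w) 0 x ^ 2 ∂nu := integral_nonneg fun w => sq_nonneg _
  induction n with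
  | zero =>
    have e : ∀ w : Ed → ℝ, TT (pw w) 0 (((0:ℕ) : ℤ) • x) = 0 := by
      intro w
      have h1 := TT_nonneg (pw_nonneg w) 0 (((0:ℕ) : ℤ) • x)
      have h2 := TT_le (pw_nonneg w) (show IsW (0 : ℤ × ℤ) (((0:ℕ) : ℤ) • x) 0 (fun _ => 0) from
        ⟨rfl, by simp, fun i hi => absurd hi (Nat.not_lt_zero _)⟩)
      simp only [Wt, Finset.sum_range_zero] at h2
      linarith
    simp only [e]
    simp
  | succ n ih =>
    rcases Nat.eq_zero_or_pos n with h0 | h0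
    · subst h0
      simp
    have hn0 : (0:ℝ) < n := by exact_mod_cast h0
    have hms : ∫ w, TT (pw w) ((n:ℤ) • x) (((n + 1 : ℕ) : ℤ) • x) ^ 2 ∂nu = ∫ w, TT (pw w) 0 x ^ 2 ∂nu := by
      have hmb : Measurable (sh ((n:ℤ) • x)) := measurable_pi_iff.2 fun e => measurable_pi_apply _
      conv_rhs => rw [← map_sh ((n:ℤ) • x)]
      rw [integral_map hmb.aemeasurable ((measurable_TT _ _).pow_const 2).aestronglyMeasurable]
      refine integral_congr_ae (Eventually.of_forall fun w => ?_)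
      simp only [TT_sh]
      push_cast
      rw [add_smul, one_smul, zero_add, add_comm x]
    have hi2 : Integrable (fun w => TT (pw w) ((n:ℤ) • x) (((n + 1 : ℕ) : ℤ) • x) ^ 2) nu :=
      sq_int _ _
    have pt : ∀ w : Ed → ℝ, TT (pw w) 0 (((n + 1 : ℕ) : ℤ) • x) ^ 2 ≤
        (1 + (n:ℝ)⁻¹) * TT (pw w) 0 ((n : ℤ) • x) ^ 2 +
        (1 + (n:ℝ)) * TT (pw w) ((n:ℤ) • x) (((n + 1 : ℕ) : ℤ) • x) ^ 2 := by
      intro w
      have e1 := TT_tri (pw_nonneg w) 0 ((n : ℤ) • x) (((n + 1 : ℕ) : ℤ) • x)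
      have e2 := TT_nonneg (pw_nonneg w) 0 (((n + 1 : ℕ) : ℤ) • x)
      have e3 : TT (pw w) 0 (((n + 1 : ℕ) : ℤ) • x) ^ 2 ≤ (TT (pw w) 0 ((n : ℤ) • x) +
        TT (pw w) ((n:ℤ) • x) (((n + 1 : ℕ) : ℤ) • x)) ^ 2 := pow_le_pow_left₀ e2 e1 2
      refine e3.trans ?_
      generalize TT (pw w) 0 ((n : ℤ) • x) = A
      generalize TT (pw w) ((n:ℤ) • x) (((n + 1 : ℕ) : ℤ) • x) = B
      have e4 : 0 ≤ (n:ℝ)⁻¹ * (A - n * B) ^ 2 := by positivity
      have e5 : (n:ℝ)⁻¹ * (A - n * B) ^ 2 = (n:ℝ)⁻¹ * A ^ 2 - 2 * A * B + n * B ^ 2 := by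
        field_simp
        ring
      nlinarith
    have hi3 : Integrable (fun w => (1 + (n:ℝ)⁻¹) * TT (pw w) 0 ((n : ℤ) • x) ^ 2) nu :=
      (hint _).const_mul _
    have hi4 : Integrable (fun w => (1 + (n:ℝ)) *
        TT (pw w) ((n:ℤ) • x) (((n + 1 : ℕ) : ℤ) • x) ^ 2) nu := hi2.const_mul _
    have hi5 : Integrable (fun w => (1 + (n:ℝ)⁻¹) * TT (pw w) 0 ((n : ℤ) • x) ^ 2 +
        (1 + (n:ℝ)) * TT (pw w) ((n:ℤ) • x) (((n + 1 : ℕ) : ℤ) • x) ^ 2) nu := hi3.add hi4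
    have e1 := integral_mono (hint _) hi5 pt
    rw [integral_add hi3 hi4, integral_const_mul, integral_const_mul, hms] at e1
    refine e1.trans ?_
    have e2 : (1 + (n:ℝ)⁻¹) * ∫ w, TT (pw w) 0 ((n : ℤ) • x) ^ 2 ∂nu ≤
        (1 + (n:ℝ)⁻¹) * ((n:ℝ) ^ 2 * ∫ w, TT (pw w) 0 x ^ 2 ∂nu) :=
      mul_le_mul_of_nonneg_left ih (by positivity)
    refine (add_le_add_left e2 _).trans (le_of_eq ?_)
    push_cast
    field_simp
    ring

/-- the mean passage time is close to the time constant for some multiple -/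
lemma mean_lim (h : Shape μ) (x : ℤ × ℤ) :
    ∃ N : ℕ, 1 ≤ N ∧ hm ((N : ℤ) • x) ≤ N * (mz μ x + 1) := by
  obtain ⟨M, hM⟩ : ∃ M : ℝ, M = ∫ w, TT (pw w) 0 x ^ 2 ∂nu := ⟨_, rfl⟩
  have hM0 : 0 ≤ M := by rw [hM]; exact integral_nonneg fun w => sq_nonneg _
  obtain ⟨Λ, hΛ⟩ : ∃ Λ : ℝ, Λ = 4 * M + 1 := ⟨_, rfl⟩
  have hΛ0 : 0 < Λ := by rw [hΛ]; linarith
  have hlim := prob_lim h x (show (0:ℝ) < 1 / 2 by norm_num)
  obtain ⟨N, hN1, hN2⟩ := ((hlim.eventually (gt_mem_nhds (show (0:ℝ) < 1 / (4 * Λ) by positivity))).and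
    (eventually_ge_atTop 1)).exists
  refine ⟨N, hN2, ?_⟩
  have hN0 : (0:ℝ) < N := by exact_mod_cast hN2
  set E : Set (Ed → ℝ) := {w | 1 / 2 ≤ |TT (pw w) 0 ((N : ℤ) • x) / (N : ℝ) - mz μ x|} with hE
  have hEm : MeasurableSet E := by
    refine measurableSet_le measurable_const ?_
    exact continuous_abs.measurable.comp (((measurable_TT _ _).div_const _).sub_const _)
  have hi1 : Integrable (E.indicator (1 : (Ed → ℝ) → ℝ)) nu := (integrable_const (1:ℝ)).indicator hEm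
  have hint : Integrable (fun w => TT (pw w) 0 ((N : ℤ) • x) ^ 2) nu := sq_int _ _
  have pt : ∀ w : Ed → ℝ, TT (pw w) 0 ((N : ℤ) • x) ≤ N * (mz μ x + 1 / 2) +
      ((N * Λ)⁻¹ * TT (pw w) 0 ((N : ℤ) • x) ^ 2 + (N * Λ) * E.indicator (1 : (Ed → ℝ) → ℝ) w) := by
    intro w
    have hT := TT_nonneg (pw_nonneg w) 0 ((N : ℤ) • x)
    have hmu := mz_nonneg h x
    by_cases hw : w ∈ E
    · rw [Set.indicator_of_mem hw, Pi.one_apply, mul_one]
      generalize TT (pw w) 0 ((N : ℤ) • x) = T at hT ⊢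
      have e1 : 0 ≤ (N * Λ)⁻¹ * (T - N * Λ) ^ 2 := by positivity
      have e2 : (N * Λ)⁻¹ * (T - N * Λ) ^ 2 = (N * Λ)⁻¹ * T ^ 2 - 2 * T + N * Λ := by
        field_simp
        ring
      have e3 : 0 ≤ N * (mz μ x + 1 / 2) := by positivity
      linarith
    · rw [Set.indicator_of_notMem hw, mul_zero, add_zero]
      rw [hE, Set.mem_setOf_eq, not_le, abs_lt] at hw
      have e1 : TT (pw w) 0 ((N : ℤ) • x) / N ≤ mz μ x + 1 / 2 := by linarith [hw.2]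
      rw [div_le_iff₀ hN0] at e1
      have e2 : 0 ≤ (N * Λ)⁻¹ * TT (pw w) 0 ((N : ℤ) • x) ^ 2 := by positivity
      linarith
  have hi2 : Integrable (fun w => (N * Λ)⁻¹ * TT (pw w) 0 ((N : ℤ) • x) ^ 2 +
      (N * Λ) * E.indicator (1 : (Ed → ℝ) → ℝ) w) nu := (hint.const_mul _).add (hi1.const_mul _)
  have hi3 : Integrable (fun w => N * (mz μ x + 1 / 2) + ((N * Λ)⁻¹ * TT (pw w) 0 ((N : ℤ) • x) ^ 2 +
      (N * Λ) * E.indicator (1 : (Ed → ℝ) → ℝ) w)) nu := (integrable_const _).add hi2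
  have e1 := integral_mono (integrable_TT 0 ((N : ℤ) • x)) hi3 pt
  have e0 : ∫ w, E.indicator (1 : (Ed → ℝ) → ℝ) w ∂nu = nu.real E := integral_indicator_one hEm
  rw [integral_add (integrable_const _) hi2, integral_add (hint.const_mul _) (hi1.const_mul _),
    integral_const, integral_const_mul, integral_const_mul, probReal_univ, one_smul, e0] at e1
  have e2 := sq_chain x N
  rw [← hM] at e2
  have e3 : (N * Λ)⁻¹ * ∫ w, TT (pw w) 0 ((N : ℤ) • x) ^ 2 ∂nu ≤ N * (1 / 4) := by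
    rw [inv_mul_le_iff₀ (by positivity)]
    refine e2.trans ?_
    have : (N:ℝ) * Λ * (N * (1 / 4)) = (N:ℝ) ^ 2 * (Λ / 4) := by ring
    rw [this]
    refine mul_le_mul_of_nonneg_left ?_ (by positivity)
    rw [hΛ]; linarith
  have e4 : (N * Λ) * nu.real E ≤ N * (1 / 4) := by
    rw [mul_assoc]
    refine mul_le_mul_of_nonneg_left ?_ hN0.le
    have e5 : Λ * nu.real E ≤ Λ * (1 / (4 * Λ)) := mul_le_mul_of_nonneg_left hN1.le hΛ0.le
    have e6 : Λ * (1 / (4 * Λ)) = 1 / 4 := by field_simp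
    linarith
  unfold hm
  linarith

end Q69.FM
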