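import Pool.Agent.Q69.FM.D
import Pool.Agent.Q69.FM.E

/-!
# First passage percolation: lower tail about the mean gives a bound for the nonrandom fluctuations
-/

set_option autoImplicit false

open MeasureTheory ProbabilityTheory Finset Filter
open scoped Topology Pointwise

namespace Q69.FM

open Q70.Fp Q69.FL

variable {μ : ℝ × ℝ → ℝ}

/-- a vector in the scaled hull of short vectors can be rounded -/
lemma round_hull (h : Shape μ) {n : ℕ} {x : ℤ × ℤ} {W : ℝ} (hW : 0 ≤ W) (hx : cv x ∈ W • Kn n) :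
    ∃ x' : ℤ × ℤ, dd 0 x' ≤ 3 * n ∧ hm x ≤ W - mz μ x' + hm x' := by
  classical
  obtain ⟨q, hq, hq'⟩ := Set.mem_smul_set.1 hx
  obtain ⟨ι, hι, z, w, h1, h2, h3, h4, h5⟩ := eq_pos_convex_span_of_mem_convexHull hq
  have hcard : Fintype.card ι ≤ 3 := by
    have e1 := h2.card_le_finrank_succ
    have e2 : Module.finrank ℝ (vectorSpan ℝ (Set.range z)) ≤ Module.finrank ℝ (ℝ × ℝ) :=
      Submodule.finrank_le _
    have e3 : Module.finrank ℝ (ℝ × ℝ) = 2 := by simp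
    omega
  have hrep : ∀ i, ∃ (y : ℤ × ℤ) (c : ℝ), 0 ≤ c ∧ dd 0 y ≤ n ∧ (W * w i) • z i = c • cv y ∧
      c * hm y ≤ W * w i := by
    intro i
    have hWi : 0 ≤ W * w i := mul_nonneg hW (h3 i).le
    rcases h1 ⟨i, rfl⟩ with hz | ⟨y, y1, y2, y3⟩
    · refine ⟨0, 0, le_rfl, by rw [dd_self]; omega, ?_, ?_⟩
      · rw [hz, smul_zero, zero_smul]
      · rw [zero_mul]; exact hWi
    · have hpos : 0 < hm y := by
        have e1 := (hm_Sub h).low y
        have e2 : (1:ℝ) ≤ dd 0 y := by exact_mod_cast dd_pos y1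
        linarith
      refine ⟨y, W * w i * (hm y)⁻¹, by positivity, y2, ?_, ?_⟩
      · rw [y3, smul_smul]
      · rw [mul_assoc, inv_mul_cancel₀ hpos.ne', mul_one]
  choose y c hc0 hy hcy hcm using hrep
  have hxs : cv x = ∑ i, c i • cv (y i) := by
    rw [← hq', ← h5, Finset.smul_sum]
    refine Finset.sum_congr rfl fun i _ => ?_
    rw [smul_smul, hcy]
  have hsum : ∑ i, c i * hm (y i) ≤ W := by
    calc ∑ i, c i * hm (y i) ≤ ∑ i, W * w i := Finset.sum_le_sum fun i _ => hcm i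
      _ = W := by rw [← Finset.mul_sum, h4, mul_one]
  obtain ⟨f, hf⟩ : ∃ f : ι → ℝ, f = fun i => c i - (⌊c i⌋₊ : ℝ) := ⟨_, rfl⟩
  have hf0 : ∀ i, 0 ≤ f i := fun i => by
    rw [hf]
    have := Nat.floor_le (hc0 i)
    show 0 ≤ c i - (⌊c i⌋₊ : ℝ)
    linarith
  have hf1 : ∀ i, f i ≤ 1 := fun i => by
    rw [hf]
    have := Nat.lt_floor_add_one (c i)
    show c i - (⌊c i⌋₊ : ℝ) ≤ 1
    linarith
  obtain ⟨u, hu⟩ : ∃ u : ℤ × ℤ, u = ∑ i, ((⌊c i⌋₊ : ℕ) : ℤ) • y i := ⟨_, rfl⟩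
  have cvsum : cv u = ∑ i, (⌊c i⌋₊ : ℝ) • cv (y i) := by
    rw [hu]
    have e1 : ∀ s : Finset ι, cv (∑ i ∈ s, ((⌊c i⌋₊ : ℕ) : ℤ) • y i) =
        ∑ i ∈ s, (⌊c i⌋₊ : ℝ) • cv (y i) := by
      intro s
      induction s using Finset.induction_on with
      | empty => simp [cv_zero]
      | insert a s ha ih => rw [Finset.sum_insert ha, Finset.sum_insert ha, cv_add, ih, cv_smul]
    exact e1 _
  have cvx' : cv (x - u) = ∑ i, f i • cv (y i) := by
    have e1 : cv x = cv (x - u) + cv u := by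
      rw [← cv_add]
      congr 1
      abel
    have e2 : cv (x - u) = cv x - cv u := by rw [e1]; abel
    rw [e2, hxs, cvsum, ← Finset.sum_sub_distrib]
    refine Finset.sum_congr rfl fun i _ => ?_
    rw [hf, sub_smul]
  refine ⟨x - u, ?_, ?_⟩
  · -- length
    have e1 : ∀ v : ℤ × ℤ, (dd 0 v : ℝ) = |(cv v).1| + |(cv v).2| := by
      intro v
      simp only [dd, cv, Prod.fst_zero, Prod.snd_zero, sub_zero]
      push_cast [Nat.cast_natAbs]
      rfl
    have e2 : (dd 0 (x - u) : ℝ) ≤ ∑ i, f i * (dd 0 (y i) : ℝ) := by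
      rw [e1, cvx', Prod.fst_sum, Prod.snd_sum]
      have g1 := Finset.abs_sum_le_sum_abs (fun i => (f i • cv (y i)).1) Finset.univ
      have g2 := Finset.abs_sum_le_sum_abs (fun i => (f i • cv (y i)).2) Finset.univ
      refine (add_le_add g1 g2).trans ?_
      rw [← Finset.sum_add_distrib]
      refine Finset.sum_le_sum fun i _ => le_of_eq ?_
      rw [e1, Prod.smul_fst, Prod.smul_snd, smul_eq_mul, smul_eq_mul, abs_mul, abs_mul,
        abs_of_nonneg (hf0 i), mul_add]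
    have e3 : ∑ i, f i * (dd 0 (y i) : ℝ) ≤ ∑ _i : ι, (n:ℝ) := by
      refine Finset.sum_le_sum fun i _ => ?_
      have g1 : (dd 0 (y i) : ℝ) ≤ n := by exact_mod_cast hy i
      calc f i * (dd 0 (y i) : ℝ) ≤ 1 * n := mul_le_mul (hf1 i) g1 (by positivity) (by norm_num)
        _ = n := one_mul _
    rw [Finset.sum_const, Finset.card_univ, nsmul_eq_mul] at e3
    have e4 : (Fintype.card ι : ℝ) * n ≤ 3 * n :=
      mul_le_mul_of_nonneg_right (by exact_mod_cast hcard) (by positivity)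
    have e5 : (dd 0 (x - u) : ℝ) ≤ 3 * n := by linarith
    exact_mod_cast e5
  · have e1 := hm_add u (x - u)
    rw [show u + (x - u) = x by abel] at e1
    have e2 : hm u ≤ ∑ i, (⌊c i⌋₊ : ℝ) * hm (y i) := by
      rw [hu]
      refine (Finset.le_sum_of_subadditive hm hm_zero.le hm_add _ _).trans ?_
      exact Finset.sum_le_sum fun i _ => mean_chain (y i) ⌊c i⌋₊
    have e3 : mz μ (x - u) ≤ ∑ i, f i * hm (y i) := by
      show μ (cv (x - u)) ≤ _
      rw [cvx']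
      have hμ0 : μ 0 = 0 := by
        have := h.hom 0 0 le_rfl
        simpa using this
      refine (Finset.le_sum_of_subadditive μ hμ0.le (mu_add h) _ _).trans ?_
      refine Finset.sum_le_sum fun i _ => ?_
      rw [h.hom _ _ (hf0 i)]
      exact mul_le_mul_of_nonneg_left (mz_le_mean h (y i)) (hf0 i)
    have e4 : ∑ i, (⌊c i⌋₊ : ℝ) * hm (y i) + ∑ i, f i * hm (y i) = ∑ i, c i * hm (y i) := by
      rw [← Finset.sum_add_distrib]
      refine Finset.sum_congr rfl fun i _ => ?_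
      rw [hf]
      ring
    linarith

/-- the nonrandom fluctuations -/
theorem mean_bound (h : Shape μ) {a : ℝ} (ha : 0 < a) (ha1 : a < 1) (hS : Se hm a) :
    ∃ C : ℝ, 0 < C ∧ ∀ v : ℤ × ℤ, hm v ≤ mz μ v + C * (dd 0 v : ℝ) ^ a := by
  obtain ⟨j0, A, hA, hK⟩ := Kn_iter h ha ha1 (split_mean h ha hS)
  -- every vector is in a scaled hull
  have rep : ∀ j, j0 ≤ j → ∀ x : ℤ × ℤ,
      cv x ∈ ((mz μ x + 1) * Real.exp (A * (((2:ℝ) ^ j) ^ (a - 1)))) • Kn (2 ^ j) := by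
    intro j hj x
    obtain ⟨N, hN1, hN⟩ := mean_lim h x
    have hN0 : (0:ℝ) < N := by exact_mod_cast hN1
    obtain ⟨J, hJ⟩ : ∃ J : ℕ, J = max j (dd 0 ((N : ℤ) • x)) := ⟨_, rfl⟩
    have e1 : dd 0 ((N : ℤ) • x) ≤ 2 ^ J := by
      have f1 : dd 0 ((N : ℤ) • x) ≤ J := by rw [hJ]; exact le_max_right _ _
      have f2 : J < 2 ^ J := Nat.lt_two_pow_self
      omega
    have e2 := mem_self h e1
    obtain ⟨q, hq, hq'⟩ := Set.mem_smul_set.1 e2
    obtain ⟨r, hr, rfl⟩ := Set.mem_smul_set.1 (hK j hj J (by rw [hJ]; exact le_max_left _ _) hq)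
    rw [smul_smul, cv_smul] at hq'
    have e3 : cv x = ((N:ℝ)⁻¹ * (hm ((N : ℤ) • x) * Real.exp (A * (((2:ℝ) ^ j) ^ (a - 1))))) • r := by
      rw [mul_smul, hq', smul_smul, inv_mul_cancel₀ hN0.ne', one_smul]
    rw [e3]
    have hmn := hm_nonneg ((N : ℤ) • x)
    refine scale_mono (by positivity) ?_ (Set.smul_mem_smul_set hr)
    rw [← mul_assoc]
    refine mul_le_mul_of_nonneg_right ?_ (Real.exp_pos _).le
    rw [inv_mul_le_iff₀ hN0]
    exact hN
  -- one step of the induction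
  obtain ⟨B, hB⟩ : ∃ B : ℝ, B = 1 + 96 * (A * Real.exp A) := ⟨_, rfl⟩
  have hB0 : 0 < B := by rw [hB]; positivity
  have step : ∀ x : ℤ × ℤ, 12 * 2 ^ j0 ≤ dd 0 x → ∃ x' : ℤ × ℤ, 4 * dd 0 x' ≤ dd 0 x ∧
      hm x - mz μ x ≤ B * (dd 0 x : ℝ) ^ a + (hm x' - mz μ x') := by
    intro x hx
    obtain ⟨m, hm'⟩ : ∃ m : ℕ, m = dd 0 x := ⟨_, rfl⟩
    rw [← hm'] at hx ⊢
    obtain ⟨j, hj⟩ : ∃ j : ℕ, j = Nat.log 2 (m / 12) := ⟨_, rfl⟩
    have hp0 : 1 ≤ 2 ^ j0 := Nat.one_le_two_pow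
    have hm12 : 2 ^ j0 ≤ m / 12 := by omega
    have g1 : 2 ^ j ≤ m / 12 := by
      rw [hj]; exact Nat.pow_log_le_self 2 (by omega)
    have g2 : m / 12 < 2 ^ (j + 1) := by
      rw [hj]; exact Nat.lt_pow_succ_log_self (by norm_num) _
    have g3 : j0 ≤ j := by
      rw [hj]; exact Nat.le_log_of_pow_le (by norm_num) hm12
    have g4 : 12 * 2 ^ j ≤ m := by omega
    have g5 : m < 24 * 2 ^ j := by
      rw [pow_succ] at g2
      omega
    have hmx := mz_nonneg h x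
    obtain ⟨x', h1, h2⟩ := round_hull h (by positivity) (rep j g3 x)
    refine ⟨x', by omega, ?_⟩
    obtain ⟨ρ, hρ⟩ : ∃ ρ : ℝ, ρ = ((2:ℝ) ^ j) ^ (a - 1) := ⟨_, rfl⟩
    rw [← hρ] at h2
    have hm0 : (0:ℝ) < m := by
      have : 0 < m := by omega
      exact_mod_cast this
    have hm1 : (1:ℝ) ≤ m := by
      have : 1 ≤ m := by omega
      exact_mod_cast this
    have hj1 : (1:ℝ) ≤ (2:ℝ) ^ j := one_le_pow₀ (by norm_num)
    have hρ0 : 0 < ρ := by rw [hρ]; positivity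
    have hρ1 : ρ ≤ 1 := by rw [hρ]; exact Real.rpow_le_one_of_one_le_of_nonpos hj1 (by linarith)
    have hexp : Real.exp (A * ρ) ≤ 1 + A * Real.exp A * ρ := by
      have f1 := Real.add_one_le_exp (-(A * ρ))
      have f2 : Real.exp (A * ρ) * Real.exp (-(A * ρ)) = 1 := by rw [← Real.exp_add]; simp
      have f3 : Real.exp (A * ρ) ≤ Real.exp A := Real.exp_le_exp.2 (by nlinarith)
      have f4 : Real.exp (A * ρ) * (-(A * ρ) + 1) ≤ Real.exp (A * ρ) * Real.exp (-(A * ρ)) :=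
        mul_le_mul_of_nonneg_left f1 (Real.exp_pos _).le
      rw [f2] at f4
      have f5 : A * ρ * Real.exp (A * ρ) ≤ A * ρ * Real.exp A :=
        mul_le_mul_of_nonneg_left f3 (by positivity)
      linarith
    have hρm : (m:ℝ) * ρ ≤ 24 * (m:ℝ) ^ a := by
      have f1 : (m:ℝ) / 24 ≤ (2:ℝ) ^ j := by
        have : (m:ℝ) < 24 * (2:ℝ) ^ j := by exact_mod_cast g5
        linarith
      have f2 : ρ ≤ ((m:ℝ) / 24) ^ (a - 1) := by
        rw [hρ]
        exact Real.rpow_le_rpow_of_nonpos (by positivity) f1 (by linarith)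
      have f3 : ((m:ℝ) / 24) ^ (a - 1) ≤ 24 * (m:ℝ) ^ (a - 1) := by
        rw [Real.div_rpow hm0.le (by norm_num), div_eq_mul_inv, ← Real.rpow_neg (by norm_num), mul_comm]
        refine mul_le_mul_of_nonneg_right ?_ (by positivity)
        calc (24:ℝ) ^ (-(a - 1)) ≤ (24:ℝ) ^ (1:ℝ) :=
              Real.rpow_le_rpow_of_exponent_le (by norm_num) (by linarith)
          _ = 24 := Real.rpow_one _
      have f4 : (m:ℝ) * (m:ℝ) ^ (a - 1) = (m:ℝ) ^ a := by
        rw [Real.rpow_sub_one hm0.ne']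
        field_simp
      calc (m:ℝ) * ρ ≤ (m:ℝ) * (24 * (m:ℝ) ^ (a - 1)) :=
            mul_le_mul_of_nonneg_left (f2.trans f3) hm0.le
        _ = 24 * ((m:ℝ) * (m:ℝ) ^ (a - 1)) := by ring
        _ = _ := by rw [f4]
    have hma : (1:ℝ) ≤ (m:ℝ) ^ a := Real.one_le_rpow hm1 ha.le
    have hup : mz μ x + 1 ≤ 4 * (m:ℝ) := by
      have := mz_up h x
      rw [← hm'] at this
      linarith
    have e1 : (mz μ x + 1) * Real.exp (A * ρ) ≤ (mz μ x + 1) * (1 + A * Real.exp A * ρ) :=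
      mul_le_mul_of_nonneg_left hexp (by linarith)
    have e2 : (mz μ x + 1) * (A * Real.exp A * ρ) ≤ 96 * (A * Real.exp A) * (m:ℝ) ^ a := by
      calc (mz μ x + 1) * (A * Real.exp A * ρ) ≤ 4 * (m:ℝ) * (A * Real.exp A * ρ) :=
            mul_le_mul_of_nonneg_right hup (by positivity)
        _ = 4 * (A * Real.exp A) * ((m:ℝ) * ρ) := by ring
        _ ≤ 4 * (A * Real.exp A) * (24 * (m:ℝ) ^ a) :=
            mul_le_mul_of_nonneg_left hρm (by positivity)
        _ = _ := by ring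
    rw [hB, add_mul, one_mul]
    have e3 : (mz μ x + 1) * (1 + A * Real.exp A * ρ) = (mz μ x + 1) + (mz μ x + 1) * (A * Real.exp A * ρ) := by
      ring
    linarith
  -- the induction
  have h4a : (4:ℝ) ^ (-a) < 1 := Real.rpow_lt_one_of_one_lt_of_neg (by norm_num) (by linarith)
  obtain ⟨K, hK'⟩ : ∃ K : ℝ, K = B / (1 - (4:ℝ) ^ (-a)) + 24 * 2 ^ j0 := ⟨_, rfl⟩
  have h1a : 0 < 1 - (4:ℝ) ^ (-a) := by linarith
  have hK0 : 0 < K := by rw [hK']; positivity
  have hKB : B + K * (4:ℝ) ^ (-a) ≤ K := by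
    have e1 : B / (1 - (4:ℝ) ^ (-a)) * (1 - (4:ℝ) ^ (-a)) = B := div_mul_cancel₀ _ h1a.ne'
    have e2 : 0 ≤ 24 * (2:ℝ) ^ j0 * (1 - (4:ℝ) ^ (-a)) := by positivity
    have e3 : K * (1 - (4:ℝ) ^ (-a)) = B / (1 - (4:ℝ) ^ (-a)) * (1 - (4:ℝ) ^ (-a)) +
        24 * (2:ℝ) ^ j0 * (1 - (4:ℝ) ^ (-a)) := by rw [hK']; ring
    linarith
  have main : ∀ m : ℕ, ∀ x : ℤ × ℤ, dd 0 x = m → hm x - mz μ x ≤ K * (m:ℝ) ^ a := by
    intro m
    induction m using Nat.strong_induction_on with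
    | _ m ih =>
      intro x hx
      by_cases hc : 12 * 2 ^ j0 ≤ m
      · obtain ⟨x', h1, h2⟩ := step x (by rw [hx]; exact hc)
        rw [hx] at h1 h2
        have hm0 : 0 < m := by
          have : 1 ≤ 2 ^ j0 := Nat.one_le_two_pow
          omega
        have h3 := ih (dd 0 x') (by omega) x' rfl
        have h4 : (dd 0 x' : ℝ) ^ a ≤ (4:ℝ) ^ (-a) * (m:ℝ) ^ a := by
          have f1 : (dd 0 x' : ℝ) ≤ (m:ℝ) / 4 := by
            have : (4:ℝ) * (dd 0 x' : ℝ) ≤ m := by exact_mod_cast h1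
            linarith
          calc (dd 0 x' : ℝ) ^ a ≤ ((m:ℝ) / 4) ^ a := Real.rpow_le_rpow (by positivity) f1 ha.le
            _ = _ := by
              rw [Real.div_rpow (by positivity) (by norm_num), Real.rpow_neg (by norm_num)]
              ring
        have h5 : K * (dd 0 x' : ℝ) ^ a ≤ K * ((4:ℝ) ^ (-a) * (m:ℝ) ^ a) :=
          mul_le_mul_of_nonneg_left h4 hK0.le
        have h6 : (B + K * (4:ℝ) ^ (-a)) * (m:ℝ) ^ a ≤ K * (m:ℝ) ^ a :=
          mul_le_mul_of_nonneg_right hKB (by positivity)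
        linarith
      · push Not at hc
        have e1 := hm_up x
        rw [hx] at e1
        have e2 := mz_nonneg h x
        rcases Nat.eq_zero_or_pos m with h0 | h0
        · subst h0
          have : 0 ≤ K * ((0:ℕ):ℝ) ^ a := by positivity
          simp only [Nat.cast_zero] at e1 this ⊢
          linarith
        · have hm1 : (1:ℝ) ≤ m := by exact_mod_cast h0
          have hma : (1:ℝ) ≤ (m:ℝ) ^ a := Real.one_le_rpow hm1 ha.le
          have hc' : (m:ℝ) ≤ 12 * 2 ^ j0 := by exact_mod_cast hc.le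
          have e3 : 24 * (2:ℝ) ^ j0 ≤ K := by
            rw [hK']
            have : 0 ≤ B / (1 - (4:ℝ) ^ (-a)) := by positivity
            linarith
          have e4 : K * 1 ≤ K * (m:ℝ) ^ a := mul_le_mul_of_nonneg_left hma hK0.le
          linarith
  exact ⟨K, hK0, fun v => by linarith [main _ v rfl]⟩

end Q69.FM
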