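import Pool.Agent.Q69.FM.F

/-!
# First passage percolation: central moments and concentration about arbitrary numbers
-/

set_option autoImplicit false

open MeasureTheory ProbabilityTheory Finset Filter
open scoped Topology Pointwise

namespace Q69.FM

open Q70.Fp Q69.FL

variable {μ : ℝ × ℝ → ℝ}

/-- second moment -/
lemma sq_up {v : ℤ × ℤ} (hv : v ≠ 0) : ∫ w, TT (pw w) 0 v ^ 2 ∂nu ≤ 40 * (dd 0 v : ℝ) ^ 2 := by
  obtain ⟨S, h1, h2, -, h3, h4⟩ := exists_major 0 v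
  obtain ⟨n, hn⟩ : ∃ n : ℕ, n = dd 0 v := ⟨_, rfl⟩
  rw [← hn] at h4 ⊢
  have hn1 : (1:ℝ) ≤ n := by rw [hn]; exact_mod_cast dd_pos hv
  have hl : Real.log 2 ≤ 7 / 10 := by
    have := Real.log_two_lt_d9
    linarith
  have hl0 : 0 < Real.log 2 := Real.log_pos one_lt_two
  have pt : ∀ w : Ed → ℝ, TT (pw w) 0 v ^ 2 ≤ 8 * (n:ℝ) ^ 2 +
      32 * ((2 ^ n : ℝ)⁻¹ * Real.exp (1 / 2 * S w)) := by
    intro w
    have e2 : Real.exp (1 / 2 * S w - Real.log 2 * (n : ℝ)) =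
        (2 ^ n : ℝ)⁻¹ * Real.exp (1 / 2 * S w) := by
      rw [Real.exp_sub, mul_comm (Real.log 2), Real.exp_nat_mul, Real.exp_log two_pos]
      field_simp
    rw [← e2]
    have hT := TT_nonneg (pw_nonneg w) 0 v
    have hTS := h2 w
    generalize TT (pw w) 0 v = T at hT hTS ⊢
    by_cases hc : T ≤ 4 * (Real.log 2 * n)
    · have f1 : T ≤ 14 / 5 * n := by
        have : Real.log 2 * (n:ℝ) ≤ 7 / 10 * n := mul_le_mul_of_nonneg_right hl (by linarith)
        linarith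
      have f2 : T ^ 2 ≤ (14 / 5 * (n:ℝ)) ^ 2 := pow_le_pow_left₀ hT f1 2
      have f3 : 0 < Real.exp (1 / 2 * S w - Real.log 2 * (n : ℝ)) := Real.exp_pos _
      nlinarith [sq_nonneg (n:ℝ)]
    · push Not at hc
      have f1 : T / 4 ≤ 1 / 2 * S w - Real.log 2 * (n : ℝ) := by linarith
      have f2 := Real.quadratic_le_exp_of_nonneg (show 0 ≤ T / 4 by positivity)
      have f3 : Real.exp (T / 4) ≤ Real.exp (1 / 2 * S w - Real.log 2 * (n : ℝ)) :=
        Real.exp_le_exp.2 f1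
      nlinarith [sq_nonneg (n:ℝ)]
  have hi : Integrable (fun w => 8 * (n:ℝ) ^ 2 +
      32 * ((2 ^ n : ℝ)⁻¹ * Real.exp (1 / 2 * S w))) nu :=
    (integrable_const _).add ((h3.const_mul _).const_mul _)
  have e3 := integral_mono (sq_int 0 v) hi pt
  rw [integral_add (integrable_const _) ((h3.const_mul _).const_mul _), integral_const,
    integral_const_mul, integral_const_mul, h4, probReal_univ, one_smul,
    inv_mul_cancel₀ (by positivity)] at e3
  nlinarith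

/-- powers of the distance from a number -/
lemma abs_int (h : Shape μ) {p : ℝ} (hp : 0 < p) {v : ℤ × ℤ} (hv : v ≠ 0) :
    Integrable (fun w => |TT (pw w) 0 v - mz μ v| ^ p) nu := by
  obtain ⟨C, -, hC⟩ := pos_moment h (a := 2) (by norm_num) (HH_two h) hp
  have h1 := (hC v hv).1
  have h0 : (0:ℝ) ≤ 3 * (dd 0 v : ℝ) := by positivity
  have hi : Integrable (fun w => max (TT (pw w) 0 v - mz μ v) 0 ^ p + (3 * (dd 0 v : ℝ)) ^ p) nu :=
    h1.add (integrable_const _)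
  refine hi.mono' ((continuous_abs.measurable.comp
    ((measurable_TT 0 v).sub_const _)).pow_const p).aestronglyMeasurable
    (Eventually.of_forall fun w => ?_)
  have e1 := TT_nonneg (pw_nonneg w) 0 v
  have e2 := mz_up h v
  rw [Real.norm_eq_abs, abs_of_nonneg (by positivity)]
  rcases le_total (mz μ v) (TT (pw w) 0 v) with hc | hc
  · rw [max_eq_left (by linarith), abs_of_nonneg (by linarith)]
    have : 0 ≤ (3 * (dd 0 v : ℝ)) ^ p := by positivity
    linarith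
  · rw [abs_of_nonpos (by linarith)]
    have f1 : (-(TT (pw w) 0 v - mz μ v)) ^ p ≤ (3 * (dd 0 v : ℝ)) ^ p :=
      Real.rpow_le_rpow (by linarith) (by linarith) hp.le
    have f2 : 0 ≤ max (TT (pw w) 0 v - mz μ v) 0 ^ p := by positivity
    linarith

lemma add_pow_le {x y p : ℝ} (hx : 0 ≤ x) (hy : 0 ≤ y) (hp : 0 < p) :
    (x + y) ^ p ≤ 2 ^ p * (x ^ p + y ^ p) := by
  have hx' : 0 ≤ x ^ p := by positivity
  have hy' : 0 ≤ y ^ p := by positivity
  rcases le_total x y with h | h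
  · calc (x + y) ^ p ≤ (2 * y) ^ p := Real.rpow_le_rpow (by positivity) (by linarith) hp.le
      _ = 2 ^ p * y ^ p := Real.mul_rpow (by norm_num) hy
      _ ≤ _ := mul_le_mul_of_nonneg_left (by linarith) (by positivity)
  · calc (x + y) ^ p ≤ (2 * x) ^ p := Real.rpow_le_rpow (by positivity) (by linarith) hp.le
      _ = 2 ^ p * x ^ p := Real.mul_rpow (by norm_num) hx
      _ ≤ _ := mul_le_mul_of_nonneg_left (by linarith) (by positivity)

lemma abs_pow_le (h : Shape μ) {p : ℝ} (hp : 0 < p) (v : ℤ × ℤ) (w : Ed → ℝ) :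
    |TT (pw w) 0 v - hm v| ^ p ≤ 2 ^ p * (|TT (pw w) 0 v - mz μ v| ^ p + (hm v - mz μ v) ^ p) := by
  have e1 : mz μ v ≤ hm v := mz_le_mean h v
  have e2 : |TT (pw w) 0 v - hm v| ≤ |TT (pw w) 0 v - mz μ v| + (hm v - mz μ v) := by
    have := abs_sub_le (TT (pw w) 0 v) (mz μ v) (hm v)
    rw [abs_sub_comm (mz μ v), abs_of_nonneg (show 0 ≤ hm v - mz μ v by linarith)] at this
    exact this
  exact (Real.rpow_le_rpow (abs_nonneg _) e2 hp.le).trans (add_pow_le (abs_nonneg _) (by linarith) hp)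

lemma central_int (h : Shape μ) {p : ℝ} (hp : 0 < p) {v : ℤ × ℤ} (hv : v ≠ 0) :
    Integrable (fun w => |TT (pw w) 0 v - hm v| ^ p) nu := by
  have hi : Integrable (fun w => 2 ^ p * (|TT (pw w) 0 v - mz μ v| ^ p + (hm v - mz μ v) ^ p)) nu :=
    ((abs_int h hp hv).add (integrable_const _)).const_mul _
  refine hi.mono' ((continuous_abs.measurable.comp
    ((measurable_TT 0 v).sub_const _)).pow_const p).aestronglyMeasurable
    (Eventually.of_forall fun w => ?_)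
  rw [Real.norm_eq_abs, abs_of_nonneg (by positivity)]
  exact abs_pow_le h hp v w

lemma central_le (h : Shape μ) {p : ℝ} (hp : 0 < p) {v : ℤ × ℤ} (hv : v ≠ 0) :
    ∫ w, |TT (pw w) 0 v - hm v| ^ p ∂nu ≤
      2 ^ p * (∫ w, |TT (pw w) 0 v - mz μ v| ^ p ∂nu + (hm v - mz μ v) ^ p) := by
  have hi1 := abs_int h hp hv
  have hi : Integrable (fun w => 2 ^ p * (|TT (pw w) 0 v - mz μ v| ^ p + (hm v - mz μ v) ^ p)) nu :=
    (hi1.add (integrable_const _)).const_mul _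
  refine (integral_mono (central_int h hp hv) hi (abs_pow_le h hp v)).trans (le_of_eq ?_)
  rw [integral_const_mul, integral_add hi1 (integrable_const _), integral_const, probReal_univ,
    one_smul]

/-- Markov -/
lemma central_markov (h : Shape μ) {p a : ℝ} (hp : 0 < p) {v : ℤ × ℤ} (hv : v ≠ 0) {M : ℝ}
    (hM : ∫ w, |TT (pw w) 0 v - hm v| ^ p ∂nu ≤ M) :
    nu.real {w | (dd 0 v : ℝ) ^ a < |TT (pw w) 0 v - hm v|} ≤ M * (dd 0 v : ℝ) ^ (-(a * p)) := by
  have hn0 : (0:ℝ) < (dd 0 v : ℝ) := by exact_mod_cast dd_pos hv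
  have hpos : 0 < (dd 0 v : ℝ) ^ (a * p) := by positivity
  have h1 := mul_meas_ge_le_integral_of_nonneg (μ := nu)
    (f := fun w => |TT (pw w) 0 v - hm v| ^ p)
    (Eventually.of_forall fun w => by positivity) (central_int h hp hv) ((dd 0 v : ℝ) ^ (a * p))
  have h2 : nu.real {w | (dd 0 v : ℝ) ^ a < |TT (pw w) 0 v - hm v|} ≤
      nu.real {w | (dd 0 v : ℝ) ^ (a * p) ≤ |TT (pw w) 0 v - hm v| ^ p} := by
    refine measureReal_mono ?_ (measure_ne_top _ _)
    intro w hw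
    have hw' : (dd 0 v : ℝ) ^ a < |TT (pw w) 0 v - hm v| := hw
    show (dd 0 v : ℝ) ^ (a * p) ≤ |TT (pw w) 0 v - hm v| ^ p
    rw [Real.rpow_mul hn0.le]
    exact Real.rpow_le_rpow (by positivity) hw'.le hp.le
  have h3 : (dd 0 v : ℝ) ^ (a * p) * nu.real {w | (dd 0 v : ℝ) ^ a < |TT (pw w) 0 v - hm v|} ≤ M :=
    (mul_le_mul_of_nonneg_left h2 hpos.le).trans (h1.trans hM)
  rw [Real.rpow_neg hn0.le, ← div_eq_mul_inv, le_div_iff₀ hpos, mul_comm]
  exact h3

/-- concentration about a number bounds the mean -/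
lemma mean_of_conc {v : ℤ × ℤ} (hv : v ≠ 0) {m s δ : ℝ} (hδ : 0 < δ)
    (hlt : nu.real {w | s < |TT (pw w) 0 v - m|} < 1) :
    hm v ≤ m + s + δ * (40 * (dd 0 v : ℝ) ^ 2) + δ⁻¹ * nu.real {w | s < |TT (pw w) 0 v - m|} := by
  set E : Set (Ed → ℝ) := {w | s < |TT (pw w) 0 v - m|} with hE
  have hEm : MeasurableSet E := measurableSet_lt measurable_const
    (continuous_abs.measurable.comp ((measurable_TT 0 v).sub_const _))
  have hms : 0 ≤ m + s := by
    obtain ⟨w, hw, -, -⟩ := exists_out E ∅ ∅ (by rw [measureReal_empty, add_zero, add_zero]; exact hlt)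
    rw [hE, Set.mem_setOf_eq, not_lt, abs_le] at hw
    have := TT_nonneg (pw_nonneg w) 0 v
    linarith [hw.2]
  have hi1 : Integrable (E.indicator (1 : (Ed → ℝ) → ℝ)) nu := (integrable_const (1:ℝ)).indicator hEm
  have pt : ∀ w : Ed → ℝ, TT (pw w) 0 v ≤ (m + s) +
      (δ * TT (pw w) 0 v ^ 2 + δ⁻¹ * E.indicator (1 : (Ed → ℝ) → ℝ) w) := by
    intro w
    have hT := TT_nonneg (pw_nonneg w) 0 v
    by_cases hw : w ∈ E
    · rw [Set.indicator_of_mem hw, Pi.one_apply, mul_one]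
      generalize TT (pw w) 0 v = T at hT ⊢
      have e1 : 0 ≤ δ * (T - (2 * δ)⁻¹) ^ 2 := by positivity
      have e2 : δ * (T - (2 * δ)⁻¹) ^ 2 = δ * T ^ 2 - T + δ⁻¹ / 4 := by
        field_simp
        ring
      have e3 : 0 < δ⁻¹ := by positivity
      linarith
    · rw [Set.indicator_of_notMem hw, mul_zero, add_zero]
      rw [hE, Set.mem_setOf_eq, not_lt, abs_le] at hw
      have e1 : 0 ≤ δ * TT (pw w) 0 v ^ 2 := by positivity
      linarith [hw.2]
  have hi0 : Integrable (fun w => TT (pw w) 0 v ^ 2) nu := sq_int 0 v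
  have hi2 : Integrable (fun w => δ * TT (pw w) 0 v ^ 2 + δ⁻¹ * E.indicator (1 : (Ed → ℝ) → ℝ) w) nu :=
    (hi0.const_mul _).add (hi1.const_mul _)
  have hi3 : Integrable (fun w => (m + s) +
      (δ * TT (pw w) 0 v ^ 2 + δ⁻¹ * E.indicator (1 : (Ed → ℝ) → ℝ) w)) nu :=
    (integrable_const _).add hi2
  have e1 := integral_mono (integrable_TT 0 v) hi3 pt
  have e0 : ∫ w, E.indicator (1 : (Ed → ℝ) → ℝ) w ∂nu = nu.real E := integral_indicator_one hEm
  rw [integral_add (integrable_const _) hi2, integral_add (hi0.const_mul _) (hi1.const_mul _),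
    integral_const, integral_const_mul, integral_const_mul, probReal_univ, one_smul, e0] at e1
  have e2 := mul_le_mul_of_nonneg_left (sq_up hv) hδ.le
  unfold hm
  linarith

/-- concentration about arbitrary numbers gives the lower tail about the mean -/
lemma low_of_conc {b ζ q : ℝ} (hq0 : 0 < q) (hζ : 0 < ζ) (hq : 2 * (1 - b) ≤ q) {C : ℝ}
    (m : ℤ × ℤ → ℝ)
    (H : ∀ v : ℤ × ℤ, v ≠ 0 → nu.real {w | (dd 0 v : ℝ) ^ (b + ζ) < |TT (pw w) 0 v - m v|} ≤
      C * (dd 0 v : ℝ) ^ (-q)) :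
    Ll hm (b + 2 * ζ) q := by
  obtain ⟨C', hC'⟩ : ∃ C' : ℝ, C' = max C 1 := ⟨_, rfl⟩
  have hC'1 : 1 ≤ C' := by rw [hC']; exact le_max_right _ _
  have hCC : C ≤ C' := by rw [hC']; exact le_max_left _ _
  refine of_ev (fun v => measureReal_le_one) hq0 (show 0 < C' by linarith) ?_
  filter_upwards [eventually_ge_atTop 1,
    pow_small (K := C') (show -q < 0 by linarith),
    pow_small (K := C' + 42) (show b + ζ < b + 2 * ζ by linarith)] with n hn1 u1 u2 v hv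
  have hn1' : (1:ℝ) ≤ n := by exact_mod_cast hn1
  have hn0 : (0:ℝ) < n := by linarith
  have hv0 : v ≠ 0 := by
    rintro rfl
    rw [dd_self] at hv
    omega
  have h1 := H v hv0
  rw [hv] at h1 ⊢
  have h2 : C * (n:ℝ) ^ (-q) ≤ C' * (n:ℝ) ^ (-q) := mul_le_mul_of_nonneg_right hCC (by positivity)
  rw [Real.rpow_zero] at u1
  obtain ⟨δ, hδ⟩ : ∃ δ : ℝ, δ = (n:ℝ) ^ (b + ζ - 2) := ⟨_, rfl⟩
  have hδ0 : 0 < δ := by rw [hδ]; positivity
  have h3 := mean_of_conc hv0 (m := m v) (s := (n:ℝ) ^ (b + ζ)) hδ0 (by linarith)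
  rw [hv] at h3
  have h4 : δ * (40 * (n:ℝ) ^ 2) = 40 * (n:ℝ) ^ (b + ζ) := by
    have : δ * (n:ℝ) ^ 2 = (n:ℝ) ^ (b + ζ) := by
      rw [hδ, ← Real.rpow_two, ← Real.rpow_add hn0]
      congr 1; ring
    linarith
  have h5 : δ⁻¹ * nu.real {w | (n:ℝ) ^ (b + ζ) < |TT (pw w) 0 v - m v|} ≤ C' * (n:ℝ) ^ (b + ζ) := by
    have e1 : δ⁻¹ = (n:ℝ) ^ (-(b + ζ - 2)) := by rw [hδ, Real.rpow_neg hn0.le]
    have e2 : (n:ℝ) ^ (-(b + ζ - 2)) * (n:ℝ) ^ (-q) ≤ (n:ℝ) ^ (b + ζ) := by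
      rw [← Real.rpow_add hn0]
      exact Real.rpow_le_rpow_of_exponent_le hn1' (by linarith)
    calc δ⁻¹ * nu.real {w | (n:ℝ) ^ (b + ζ) < |TT (pw w) 0 v - m v|} ≤ δ⁻¹ * (C' * (n:ℝ) ^ (-q)) :=
          mul_le_mul_of_nonneg_left (h1.trans h2) (by positivity)
      _ = C' * ((n:ℝ) ^ (-(b + ζ - 2)) * (n:ℝ) ^ (-q)) := by rw [e1]; ring
      _ ≤ _ := mul_le_mul_of_nonneg_left e2 (by linarith)
  refine le_trans (measureReal_mono ?_ (measure_ne_top _ _)) (h1.trans h2)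
  intro w hw
  have hw' : TT (pw w) 0 v < hm v - (n:ℝ) ^ (b + 2 * ζ) := hw
  show (n:ℝ) ^ (b + ζ) < |TT (pw w) 0 v - m v|
  have e3 : 0 < (n:ℝ) ^ (b + ζ) := by positivity
  have e4 : 0 < (n:ℝ) ^ (b + 2 * ζ) := by positivity
  rw [abs_sub_comm]
  refine lt_of_lt_of_le ?_ (le_abs_self _)
  linarith

end Q69.FM
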