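import Pool.Agent.Q69.FM.G
import Pool.Agent.Q70.FpR

/-!
# First passage percolation: both tails about the mean
-/

set_option autoImplicit false

open MeasureTheory ProbabilityTheory Finset Filter
open scoped Topology Pointwise

namespace Q69.FM

open Q70.Fp Q69.FL

variable {μ : ℝ × ℝ → ℝ}

/-- the tails at a power of `t` -/
lemma rate_t {b : ℝ} (hb1 : b < 1) {ζ : ℝ} (hζ : 0 < ζ) (hζ1 : ζ < 1 - b) {F : ℝ → ℝ → ℝ}
    (hF0 : ∀ r t, 0 ≤ F r t)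
    (hF : ∃ C : ℝ, ∀ t : ℝ, 1 ≤ t → ∀ r : ℝ, 0 ≤ r → r < 1 →
      F r t ≤ C * Real.exp (-((r * t ^ (1 - b - ζ / 2)) ^ (1 / (1 - b))))) {q : ℝ} (hq : 0 < q) :
    Asymptotics.IsBigO atTop (fun t : ℝ => F (t ^ (b - 1 + ζ)) t) (fun t : ℝ => t ^ (-q)) := by
  obtain ⟨C, hC⟩ := hF
  have hb' : 0 < 1 - b := by linarith
  set κ : ℝ := ζ / 2 / (1 - b) with hκ
  have hκ0 : 0 < κ := by positivity
  obtain ⟨C1, hC1, hE⟩ := exp_poly (q / κ) (by positivity) (c := 1) one_pos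
  refine Asymptotics.IsBigO.of_bound (max C 1 * C1) ?_
  filter_upwards [eventually_gt_atTop 1] with t ht
  have ht0 : 0 < t := by linarith
  rw [Real.norm_eq_abs, abs_of_nonneg (hF0 _ _), Real.norm_eq_abs, abs_of_nonneg (by positivity)]
  have h1 := hC t ht.le (t ^ (b - 1 + ζ)) (by positivity)
    (Real.rpow_lt_one_of_one_lt_of_neg ht (by linarith))
  refine h1.trans ?_
  have e1 : (t ^ (b - 1 + ζ) * t ^ (1 - b - ζ / 2)) ^ (1 / (1 - b)) = t ^ κ := by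
    rw [← Real.rpow_add ht0, ← Real.rpow_mul ht0.le]
    congr 1
    rw [hκ]
    ring
  rw [e1, mul_assoc]
  have e2 := hE _ (Real.one_le_rpow ht.le hκ0.le)
  rw [one_mul, ← Real.rpow_mul ht0.le, show κ * -(q / κ) = -q by field_simp] at e2
  have e3 := Real.exp_pos (-(t ^ κ))
  calc C * Real.exp (-(t ^ κ)) ≤ max C 1 * Real.exp (-(t ^ κ)) := by
        gcongr
        exact le_max_left _ _
    _ ≤ _ := by gcongr

/-- the tails at a power of the distance -/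
lemma rate_v {b : ℝ} (hb : 0 < b) (hb1 : b < 1) {F : ℝ → ℤ × ℤ → ℝ}
    (hmono : ∀ (s s' : ℝ) (v : ℤ × ℤ), s ≤ s' → F s' v ≤ F s v)
    (hF : ∀ ζ : ℝ, 0 < ζ → ∃ C : ℝ, ∀ v : ℤ × ℤ, v ≠ 0 → ∀ s : ℝ, 0 < s → s ≤ (dd 0 v : ℝ) →
      F s v ≤ C * Real.exp (-((s / (dd 0 v : ℝ) ^ (b + ζ)) ^ (1 / (1 - b)))))
    {ζ : ℝ} (hζ : 0 < ζ) {q : ℝ} (hq : 0 < q) :
    ∃ C : ℝ, 0 < C ∧ ∀ v : ℤ × ℤ, v ≠ 0 → F ((dd 0 v : ℝ) ^ (b + ζ)) v ≤ C * (dd 0 v : ℝ) ^ (-q) := by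
  set ζ' : ℝ := min ζ (1 - b) with hζ'
  have k0 : 0 < ζ' := lt_min hζ (by linarith)
  have k1 : ζ' ≤ ζ := min_le_left _ _
  have k2 : ζ' ≤ 1 - b := min_le_right _ _
  obtain ⟨C, hC⟩ := hF (ζ' / 2) (by positivity)
  have hb' : 0 < 1 - b := by linarith
  set κ : ℝ := ζ' / 2 / (1 - b) with hκ
  have hκ0 : 0 < κ := by positivity
  obtain ⟨C1, hC1, hE⟩ := exp_poly (q / κ) (by positivity) (c := 1) one_pos
  refine ⟨max C 1 * C1, by positivity, fun v hv => ?_⟩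
  have hn1 : (1:ℝ) ≤ dd 0 v := by exact_mod_cast dd_pos hv
  have hn0 : (0:ℝ) < dd 0 v := by linarith
  have h1 : F ((dd 0 v : ℝ) ^ (b + ζ)) v ≤ F ((dd 0 v : ℝ) ^ (b + ζ')) v :=
    hmono _ _ _ (Real.rpow_le_rpow_of_exponent_le hn1 (by linarith))
  have h2 : (dd 0 v : ℝ) ^ (b + ζ') ≤ dd 0 v := by
    conv_rhs => rw [← Real.rpow_one (dd 0 v : ℝ)]
    exact Real.rpow_le_rpow_of_exponent_le hn1 (by linarith)
  refine h1.trans ((hC v hv _ (by positivity) h2).trans ?_)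
  have e1 : ((dd 0 v : ℝ) ^ (b + ζ') / (dd 0 v : ℝ) ^ (b + ζ' / 2)) ^ (1 / (1 - b)) =
      (dd 0 v : ℝ) ^ κ := by
    rw [← Real.rpow_sub hn0, ← Real.rpow_mul hn0.le]
    congr 1
    rw [hκ]
    ring
  rw [e1, mul_assoc]
  have e2 := hE _ (Real.one_le_rpow hn1 hκ0.le)
  rw [one_mul, ← Real.rpow_mul hn0.le, show κ * -(q / κ) = -q by field_simp] at e2
  have e3 := Real.exp_pos (-((dd 0 v : ℝ) ^ κ))
  calc C * Real.exp (-((dd 0 v : ℝ) ^ κ)) ≤ max C 1 * Real.exp (-((dd 0 v : ℝ) ^ κ)) := by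
        gcongr
        exact le_max_left _ _
    _ ≤ _ := by gcongr

/-- both tails about the mean -/
lemma mean_tail (h : Shape μ) {b : ℝ} (hb1 : b < 1) (hO : ∀ ζ : ℝ, 0 < ζ → Opt μ b ζ)
    (hU : ∀ ζ : ℝ, 0 < ζ → OptU μ b ζ)
    (hM : ∀ ζ : ℝ, 0 < ζ → ∃ C : ℝ, ∀ v : ℤ × ℤ, v ≠ 0 →
      hm v ≤ mz μ v + C * (dd 0 v : ℝ) ^ (b + ζ)) (hb : 0 < b)
    {ζ : ℝ} (hζ : 0 < ζ) :
    ∃ C : ℝ, ∀ v : ℤ × ℤ, v ≠ 0 → ∀ s : ℝ, 0 < s → s ≤ (dd 0 v : ℝ) →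
      nu.real {w | s < |TT (pw w) 0 v - hm v|} ≤
        C * Real.exp (-((s / (dd 0 v : ℝ) ^ (b + ζ)) ^ (1 / (1 - b)))) := by
  obtain ⟨C1, hC1, h1⟩ := hO (ζ / 2) (by positivity)
  obtain ⟨C2, hC2, h2⟩ := hU (ζ / 2) (by positivity)
  obtain ⟨C3', h3'⟩ := hM (ζ / 2) (by positivity)
  obtain ⟨C3, hC3⟩ : ∃ C3 : ℝ, C3 = max C3' 1 := ⟨_, rfl⟩
  have hC31 : 1 ≤ C3 := by rw [hC3]; exact le_max_right _ _
  have hC32 : C3' ≤ C3 := by rw [hC3]; exact le_max_left _ _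
  obtain ⟨β, hβ⟩ : ∃ β : ℝ, β = 1 / (1 - b) := ⟨_, rfl⟩
  have hb' : 0 < 1 - b := by linarith
  have hβ0 : 0 < β := by rw [hβ]; positivity
  obtain ⟨N0, hN0⟩ := eventually_atTop.1 ((tendsto_natCast_atTop_atTop (R := ℝ)).eventually
    (rpow_small (K := 2) (show b + ζ / 2 < b + ζ by linarith)))
  rw [← hβ]
  refine ⟨C1 + C2 + Real.exp ((2 * C3) ^ β) + Real.exp ((N0:ℝ) ^ β), fun v hv s hs hs1 => ?_⟩
  have hn1 : (1:ℝ) ≤ dd 0 v := by exact_mod_cast dd_pos hv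
  have hn0 : (0:ℝ) < dd 0 v := by linarith
  have hpos : 0 < (dd 0 v : ℝ) ^ (b + ζ) := by positivity
  have hpos2 : 0 < (dd 0 v : ℝ) ^ (b + ζ / 2) := by positivity
  have hle : (dd 0 v : ℝ) ^ (b + ζ / 2) ≤ (dd 0 v : ℝ) ^ (b + ζ) :=
    Real.rpow_le_rpow_of_exponent_le hn1 (by linarith)
  have hE : 0 < Real.exp (-((s / (dd 0 v : ℝ) ^ (b + ζ)) ^ β)) := Real.exp_pos _
  have p1 : 0 < Real.exp ((2 * C3) ^ β) := Real.exp_pos _
  have p2 : 0 < Real.exp ((N0:ℝ) ^ β) := Real.exp_pos _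
  have trivialCase : ∀ x : ℝ, 0 ≤ x → s / (dd 0 v : ℝ) ^ (b + ζ) ≤ x →
      (1:ℝ) ≤ Real.exp (x ^ β) * Real.exp (-((s / (dd 0 v : ℝ) ^ (b + ζ)) ^ β)) := by
    intro x hx hsx
    rw [← Real.exp_add]
    refine Real.one_le_exp ?_
    have := Real.rpow_le_rpow (by positivity) hsx hβ0.le
    linarith
  have hone : nu.real {w : Ed → ℝ | s < |TT (pw w) 0 v - hm v|} ≤ 1 := measureReal_le_one
  have expand : (C1 + C2 + Real.exp ((2 * C3) ^ β) + Real.exp ((N0:ℝ) ^ β)) *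
      Real.exp (-((s / (dd 0 v : ℝ) ^ (b + ζ)) ^ β)) =
      C1 * Real.exp (-((s / (dd 0 v : ℝ) ^ (b + ζ)) ^ β)) +
      C2 * Real.exp (-((s / (dd 0 v : ℝ) ^ (b + ζ)) ^ β)) +
      Real.exp ((2 * C3) ^ β) * Real.exp (-((s / (dd 0 v : ℝ) ^ (b + ζ)) ^ β)) +
      Real.exp ((N0:ℝ) ^ β) * Real.exp (-((s / (dd 0 v : ℝ) ^ (b + ζ)) ^ β)) := by ring
  have q1 : 0 ≤ C1 * Real.exp (-((s / (dd 0 v : ℝ) ^ (b + ζ)) ^ β)) := by positivity
  have q2 : 0 ≤ C2 * Real.exp (-((s / (dd 0 v : ℝ) ^ (b + ζ)) ^ β)) := by positivity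
  have q3 : 0 ≤ Real.exp ((2 * C3) ^ β) * Real.exp (-((s / (dd 0 v : ℝ) ^ (b + ζ)) ^ β)) := by
    positivity
  have q4 : 0 ≤ Real.exp ((N0:ℝ) ^ β) * Real.exp (-((s / (dd 0 v : ℝ) ^ (b + ζ)) ^ β)) := by
    positivity
  rw [expand]
  by_cases hA : s ≤ 2 * C3 * (dd 0 v : ℝ) ^ (b + ζ / 2)
  · have e1 : s / (dd 0 v : ℝ) ^ (b + ζ) ≤ 2 * C3 := by
      rw [div_le_iff₀ hpos]
      exact hA.trans (mul_le_mul_of_nonneg_left hle (by linarith))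
    have := trivialCase (2 * C3) (by linarith) e1
    linarith
  · push Not at hA
    by_cases hB : N0 ≤ dd 0 v
    · have e0 := hN0 _ hB
      have hmz : mz μ v ≤ hm v := mz_le_mean h v
      have e1 : hm v - mz μ v < s / 2 := by
        have g1 := h3' v hv
        have g2 : C3' * (dd 0 v : ℝ) ^ (b + ζ / 2) ≤ C3 * (dd 0 v : ℝ) ^ (b + ζ / 2) :=
          mul_le_mul_of_nonneg_right hC32 hpos2.le
        linarith
      have e2 := h1 v hv (s / 2) (by positivity)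
      have e3 := h2 v hv (s / 2) (by positivity) (by linarith)
      rw [← hβ] at e2 e3
      have e4 : Real.exp (-((s / 2 / (dd 0 v : ℝ) ^ (b + ζ / 2)) ^ β)) ≤
          Real.exp (-((s / (dd 0 v : ℝ) ^ (b + ζ)) ^ β)) := by
        rw [Real.exp_le_exp]
        refine neg_le_neg (Real.rpow_le_rpow (by positivity) ?_ hβ0.le)
        rw [div_le_div_iff₀ hpos hpos2]
        have : s * (2 * (dd 0 v : ℝ) ^ (b + ζ / 2)) ≤ s * (dd 0 v : ℝ) ^ (b + ζ) :=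
          mul_le_mul_of_nonneg_left e0 hs.le
        linarith
      have hsub : {w : Ed → ℝ | s < |TT (pw w) 0 v - hm v|} ⊆
          {w | TT (pw w) 0 v < mz μ v - s / 2} ∪ {w | mz μ v + s / 2 < TT (pw w) 0 v} := by
        intro w hw
        have hw' : s < |TT (pw w) 0 v - hm v| := hw
        rcases lt_abs.1 hw' with hc | hc
        · exact Or.inr (show mz μ v + s / 2 < TT (pw w) 0 v by linarith)
        · exact Or.inl (show TT (pw w) 0 v < mz μ v - s / 2 by linarith)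
      have e5 := (measureReal_mono (μ := nu) hsub (measure_ne_top _ _)).trans
        (measureReal_union_le _ _)
      have e6 := mul_le_mul_of_nonneg_left e4 hC1.le
      have e7 := mul_le_mul_of_nonneg_left e4 hC2.le
      linarith
    · push Not at hB
      have hB' : (dd 0 v : ℝ) ≤ N0 := by exact_mod_cast hB.le
      have e1 : s / (dd 0 v : ℝ) ^ (b + ζ) ≤ (N0:ℝ) := by
        rw [div_le_iff₀ hpos]
        have g1 : (1:ℝ) ≤ (dd 0 v : ℝ) ^ (b + ζ) := Real.one_le_rpow hn1 (by positivity)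
        have g2 : (N0:ℝ) * 1 ≤ (N0:ℝ) * (dd 0 v : ℝ) ^ (b + ζ) :=
          mul_le_mul_of_nonneg_left g1 (by linarith)
        linarith
      have := trivialCase (N0:ℝ) (by linarith) e1
      linarith

end Q69.FM
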