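import Pool.Agent.Q69.FM.H

/-!
# First passage percolation, lower tail: fast pairs in boxes
-/

set_option autoImplicit false

open MeasureTheory ProbabilityTheory Finset Filter
open scoped Topology

namespace Q69.FM

open Q70.Fp Q69.FL

variable {Φ : ℤ × ℤ → ℝ}

lemma TB_sh (a x y : ℤ × ℤ) (R : ℕ) (w : Ed → ℝ) :
    TB (pw (sh a w)) R x y = TB (pw w) R (x + a) (y + a) := by
  unfold TB
  congr 1
  ext s
  constructor
  · rintro ⟨n, p, ⟨⟨h1, h2, h3⟩, h4⟩, rfl⟩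
    refine ⟨n, fun i => p i + a, ⟨⟨by simp [h1], by simp [h2], fun i hi => (adj_add a).2 (h3 i hi)⟩,
      fun i hi => by rw [dd_add]; exact h4 i hi⟩, ?_⟩
    refine Finset.sum_congr rfl fun i _ => ?_
    simp [pw, sh]
  · rintro ⟨n, p, ⟨⟨h1, h2, h3⟩, h4⟩, rfl⟩
    refine ⟨n, fun i => p i - a, ⟨⟨by simp [h1], by simp [h2], fun i hi => ?_⟩, fun i hi => ?_⟩, ?_⟩
    · rw [← adj_add a]; simpa using h3 i hi
    · rw [← dd_add x (p i - a) a]
      simpa using h4 i hi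
    · refine Finset.sum_congr rfl fun i _ => ?_
      simp [pw, sh]

/-- a fast pair near a point -/
def Fb (Φ : ℤ × ℤ → ℝ) (W : Ed → ℝ) (s : ℕ) (g : ℝ) (c : ℤ × ℤ) : Prop :=
  ∃ u ∈ ball (2 * s) c, ∃ v ∈ ball s u, TB W (66 * s) u v < Φ (v - u) - g

lemma Fb_set (s : ℕ) (g : ℝ) (c : ℤ × ℤ) : {w : Ed → ℝ | Fb Φ (pw w) s g c} =
    ⋃ u ∈ ball (2 * s) c, ⋃ v ∈ ball s u, {w | TB (pw w) (66 * s) u v < Φ (v - u) - g} := by
  ext w
  simp only [Fb, Set.mem_setOf_eq, Set.mem_iUnion, exists_prop]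

lemma measurable_Fb (s : ℕ) (g : ℝ) (c : ℤ × ℤ) :
    MeasurableSet {w : Ed → ℝ | Fb Φ (pw w) s g c} := by
  rw [Fb_set]
  refine Finset.measurableSet_biUnion _ fun u _ => Finset.measurableSet_biUnion _ fun v _ => ?_
  exact measurableSet_lt (measurable_TB _ _ _) measurable_const

lemma Fb_dep {s : ℕ} {g : ℝ} {c : ℤ × ℤ} {w w' : Ed → ℝ}
    (h : ∀ e ∈ be (68 * s) c, w e = w' e) : Fb Φ (pw w) s g c ↔ Fb Φ (pw w') s g c := by
  unfold Fb
  refine exists_congr fun u => and_congr_right fun hu => ?_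
  have : ∀ v, TB (pw w) (66 * s) u v = TB (pw w') (66 * s) u v := by
    intro v
    refine TB_dep fun e => ?_
    refine Sym2.inductionOn e fun a b => ?_
    intro he
    refine h _ ?_
    rw [mem_be] at he ⊢
    rw [mem_ball] at hu
    have h1 := dd_tri c u a
    have h2 := dd_tri c u b
    omega
  simp only [this]

lemma Fb_sh (s : ℕ) (g : ℝ) (c : ℤ × ℤ) :
    nu.real {w | Fb Φ (pw w) s g c} = nu.real {w | Fb Φ (pw w) s g 0} := by
  have hmb : Measurable (sh c) := measurable_pi_iff.2 fun e => measurable_pi_apply _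
  conv_rhs => rw [← map_sh c]
  rw [map_measureReal_apply hmb (measurable_Fb s g 0)]
  congr 1
  ext w
  simp only [Set.mem_preimage, Set.mem_setOf_eq, Fb, TB_sh]
  constructor
  · rintro ⟨u, hu, v, hv, huv⟩
    rw [mem_ball] at hu hv
    refine ⟨u - c, ?_, v - c, ?_, ?_⟩
    · rw [mem_ball, ← dd_add 0 (u - c) c]
      simpa using hu
    · rw [mem_ball, ← dd_add (u - c) (v - c) c]
      simpa using hv
    · rw [show v - c - (u - c) = v - u by abel, show u - c + c = u by abel,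
        show v - c + c = v by abel]
      exact huv
  · rintro ⟨u, hu, v, hv, huv⟩
    rw [mem_ball] at hu hv
    refine ⟨u + c, ?_, v + c, ?_, ?_⟩
    · rw [mem_ball]
      have := dd_add 0 u c
      rw [zero_add] at this
      rw [this]
      exact hu
    · rw [mem_ball, dd_add]
      exact hv
    · rw [show v + c - (u + c) = v - u by abel]
      exact huv

/-- a small passage time forces fast pairs in many boxes which are far from each other -/
lemma far_box (h : Sub Φ) {w : Ed → ℝ} (hw : ∀ e, 0 ≤ w e) {v : ℤ × ℤ} {n m₁ r : ℕ}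
    (hn : dd 0 v = n) (hm1 : 1 ≤ m₁) {S D g : ℝ} (hS1 : 1 ≤ S)
    (hD : 0 ≤ D) (hg : 0 ≤ g) (hT : TT w 0 v < Φ v - S)
    (G1 : ¬ Bad w 0 (66 * n + 1) (3 * (n:ℝ)))
    (G2 : ∀ x ∈ ball (66 * n) 0, ∀ y ∈ ball (66 * n) 0, dd x y = 66 * m₁ → 3 * (m₁:ℝ) ≤ TT w x y)
    (G3 : ∀ x ∈ ball (66 * n) 0, ∀ y ∈ ball (66 * n) 0, dd x y ≤ 664 * (66 * m₁) →
      TT w x y < 3 * ((664 * (66 * m₁) : ℕ) : ℝ))
    (G4 : ∀ x ∈ ball (66 * n) 0, ∀ y ∈ ball (66 * n) 0, dd x y ≤ 66 * m₁ →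
      TB w (66 * (66 * m₁)) x y ≤ TT w x y)
    (G5 : ∀ x ∈ ball (66 * n) 0, ∀ y ∈ ball (66 * n) 0, dd x y ≤ 66 * m₁ →
      Φ (y - x) - D ≤ TT w x y)
    (hr : 43825 * (r:ℝ) * D + (n:ℝ) / m₁ * g + D + 1 ≤ S) :
    ∃ I : Finset (ℤ × ℤ), I ⊆ (ball (66 * n) 0).image (rd (66 * m₁)) ∧ I.card = r ∧
      (∀ x ∈ I, ∀ y ∈ I, x ≠ y → 2 * (68 * (66 * m₁)) < dd x y) ∧
      ∀ x ∈ I, Fb Φ w (66 * m₁) g x := by
  classical
  have hup : Φ v ≤ 3 * (n:ℝ) := by rw [← hn]; exact h.up v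
  have hm0 : (0:ℝ) < m₁ := by exact_mod_cast hm1
  -- a nearly optimal walk
  obtain ⟨N, p, hp, hlt⟩ := exists_lt (show TT w 0 v < TT w 0 v + 1 by linarith)
  have hlt3 : Wt w p N < 3 * (n:ℝ) := by linarith
  have hin : ∀ j ≤ N, p j ∈ ball (66 * n) 0 := by
    intro j hj
    rw [mem_ball]
    by_contra hcon
    push Not at hcon
    obtain ⟨q, h1, h2, h3, h4⟩ := bad_of_exit hw hp hj hcon
    exact G1 ⟨q, h1, h2, h3, h4.trans hlt3.le⟩
  obtain ⟨k, z, z0, z1, z2, z3, z4⟩ := cut_walk hw (show 1 ≤ 66 * m₁ by omega) v N 0 p hp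
  have hzin : ∀ i ≤ k, z i ∈ ball (66 * n) 0 := by
    intro i hi
    obtain ⟨j, hj, hj'⟩ := z3 i hi
    rw [hj']; exact hin j hj
  have hopt : ∑ i ∈ range k, TT w (z i) (z (i + 1)) + TT w (z k) v < TT w (z 0) v + 1 := by
    rw [z0]; exact lt_of_le_of_lt z4 hlt
  -- the number of pieces
  have hge : ∀ i j : ℕ, i ≤ j → j ≤ k → ((j:ℝ) - i) * (3 * m₁) ≤
      ∑ l ∈ Finset.Ico i j, TT w (z l) (z (l + 1)) := by
    intro i j hij hj
    calc ((j:ℝ) - i) * (3 * m₁) = ∑ _l ∈ Finset.Ico i j, (3 * (m₁:ℝ)) := by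
          rw [Finset.sum_const, Nat.card_Ico, nsmul_eq_mul]
          push_cast [Nat.cast_sub hij]
          ring
      _ ≤ _ := by
          refine Finset.sum_le_sum fun l hl => ?_
          rw [Finset.mem_Ico] at hl
          exact G2 _ (hzin l (by omega)) _ (hzin (l + 1) (by omega)) (z1 l (by omega))
  have hk : (k:ℝ) ≤ n / m₁ := by
    have e1 := hge 0 k (Nat.zero_le _) le_rfl
    rw [← Finset.range_eq_Ico] at e1
    have e2 := TT_nonneg hw (z k) v
    rw [le_div_iff₀ hm0]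
    push_cast at e1
    nlinarith [hopt, z4]
  -- pieces far apart
  have hfar : ∀ i j : ℕ, i + 43825 ≤ j → j ≤ k → 664 * (66 * m₁) < dd (z i) (z j) := by
    intro i j hij hj
    by_contra hcon
    push Not at hcon
    have e1 := hge i j (by omega) hj
    have e2 := chain_opt hw hopt (show i ≤ j by omega) hj
    have e3 := G3 _ (hzin i (by omega)) _ (hzin j hj) hcon
    have e4 : (i:ℝ) + 43825 ≤ j := by exact_mod_cast hij
    have e5 : (1:ℝ) ≤ m₁ := by exact_mod_cast hm1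
    push_cast at e3
    nlinarith
  -- fast pieces
  set F : Finset ℕ := (range k).filter
    (fun i => TT w (z i) (z (i + 1)) < Φ (z (i + 1) - z i) - g) with hF
  have hdef : ∀ i < k, Φ (z (i + 1) - z i) - TT w (z i) (z (i + 1)) ≤ D := by
    intro i hi
    have := G5 _ (hzin i (by omega)) (z (i + 1)) (hzin (i + 1) (by omega)) (z1 i hi).le
    linarith
  have hcard : 43825 * r ≤ F.card := by
    by_contra hcon
    push Not at hcon
    have c1 : (F.card : ℝ) ≤ 43825 * r := by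
      have : F.card ≤ 43825 * r := hcon.le
      exact_mod_cast this
    have c2 : Φ v ≤ ∑ i ∈ range k, Φ (z (i + 1) - z i) + Φ (v - z k) := by
      have e1 := h.add (z k) (v - z k)
      have e2 := F_sum h z k
      rw [z0, sub_zero] at e2
      rw [show z k + (v - z k) = v by abel] at e1
      linarith
    have c3 : Φ (v - z k) - D ≤ TT w (z k) v :=
      G5 _ (hzin k le_rfl) v (mem_ball.2 (by omega)) z2.le
    have c4 : ∑ i ∈ range k, (Φ (z (i + 1) - z i) - TT w (z i) (z (i + 1))) ≤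
        F.card * D + k * g := by
      rw [← Finset.sum_filter_add_sum_filter_not (range k)
        (fun i => TT w (z i) (z (i + 1)) < Φ (z (i + 1) - z i) - g)]
      refine add_le_add ?_ ?_
      · calc _ ≤ ∑ _i ∈ F, D := Finset.sum_le_sum fun i hi => by
              rw [Finset.mem_filter, Finset.mem_range] at hi
              exact hdef i hi.1
          _ = _ := by rw [Finset.sum_const, nsmul_eq_mul]
      · calc _ ≤ ∑ _i ∈ (range k).filter (fun i => ¬ TT w (z i) (z (i + 1)) <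
                Φ (z (i + 1) - z i) - g), g := Finset.sum_le_sum fun i hi => by
              rw [Finset.mem_filter, not_lt] at hi
              linarith [hi.2]
          _ = (((range k).filter (fun i => ¬ TT w (z i) (z (i + 1)) <
                Φ (z (i + 1) - z i) - g)).card : ℝ) * g := by rw [Finset.sum_const, nsmul_eq_mul]
          _ ≤ k * g := by
              refine mul_le_mul_of_nonneg_right ?_ hg
              have := Finset.card_filter_le (range k) (fun i => ¬ TT w (z i) (z (i + 1)) <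
                Φ (z (i + 1) - z i) - g)
              rw [Finset.card_range] at this
              exact_mod_cast this
    rw [Finset.sum_sub_distrib] at c4
    have c5 : (F.card : ℝ) * D ≤ 43825 * r * D := mul_le_mul_of_nonneg_right c1 hD
    have c6 : (k:ℝ) * g ≤ n / m₁ * g := mul_le_mul_of_nonneg_right hk hg
    linarith
  -- one residue class
  obtain ⟨ρ, -, hρ⟩ := Finset.exists_le_card_fiber_of_mul_le_card_of_maps_to
    (s := F) (t := range 43825) (f := fun i => i % 43825) (n := r)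
    (fun i _ => Finset.mem_range.2 (Nat.mod_lt _ (by norm_num))) ⟨0, by simp⟩
    (by rw [Finset.card_range]; exact hcard)
  set F' := F.filter (fun i => i % 43825 = ρ) with hF'
  obtain ⟨F'', hF1, hF2⟩ := Finset.exists_subset_card_eq hρ
  have hmem : ∀ i ∈ F'', i < k ∧ TT w (z i) (z (i + 1)) < Φ (z (i + 1) - z i) - g ∧
      i % 43825 = ρ := by
    intro i hi
    have := hF1 hi
    rw [hF', Finset.mem_filter, hF, Finset.mem_filter, Finset.mem_range] at this
    exact ⟨this.1.1, this.1.2, this.2⟩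
  have hs1 : 1 ≤ 66 * m₁ := by omega
  have hdist : ∀ i ∈ F'', ∀ j ∈ F'', i < j →
      2 * (68 * (66 * m₁)) < dd (rd (66 * m₁) (z i)) (rd (66 * m₁) (z j)) := by
    intro i hi j hj hij
    have e1 := hmem i hi
    have e2 := hmem j hj
    have e3 := hfar i j (by omega) (by omega)
    have e4 := dd_rd hs1 (z i)
    have e5 := dd_rd hs1 (z j)
    have e6 := dd_tri (z i) (rd (66 * m₁) (z i)) (z j)
    have e7 := dd_tri (rd (66 * m₁) (z i)) (rd (66 * m₁) (z j)) (z j)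
    rw [dd_comm (rd (66 * m₁) (z j))] at e7
    omega
  have hinj : Set.InjOn (fun i => rd (66 * m₁) (z i)) (F'' : Set ℕ) := by
    intro i hi j hj hij
    rcases lt_trichotomy i j with hlt | heq | hgt
    · have := hdist i hi j hj hlt
      simp only at hij
      rw [hij, dd_self] at this
      omega
    · exact heq
    · have := hdist j hj i hi hgt
      simp only at hij
      rw [hij, dd_self] at this
      omega
  refine ⟨F''.image (fun i => rd (66 * m₁) (z i)), ?_, ?_, ?_, ?_⟩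
  · intro x hx
    obtain ⟨i, hi, rfl⟩ := Finset.mem_image.1 hx
    exact Finset.mem_image.2 ⟨z i, hzin i (hmem i hi).1.le, rfl⟩
  · rw [Finset.card_image_of_injOn hinj, hF2]
  · intro x hx y hy hxy
    obtain ⟨i, hi, rfl⟩ := Finset.mem_image.1 hx
    obtain ⟨j, hj, rfl⟩ := Finset.mem_image.1 hy
    rcases lt_trichotomy i j with hlt | heq | hgt
    · exact hdist i hi j hj hlt
    · rw [heq] at hxy; exact absurd rfl hxy
    · rw [dd_comm]; exact hdist j hj i hi hgt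
  · intro x hx
    obtain ⟨i, hi, rfl⟩ := Finset.mem_image.1 hx
    obtain ⟨hik, hfast, -⟩ := hmem i hi
    have d1 := dd_rd hs1 (z i)
    have d3 := z1 i hik
    refine ⟨z i, mem_ball.2 (by rw [dd_comm]; exact d1), z (i + 1), mem_ball.2 d3.le, ?_⟩
    exact lt_of_le_of_lt (G4 _ (hzin i hik.le) _ (hzin (i + 1) (by omega)) d3.le) hfast

/-- many fast pieces far from each other are unlikely -/
lemma indep_box (Q : Finset (ℤ × ℤ)) (s r : ℕ) (g p : ℝ)
    (hp : ∀ x ∈ Q, nu.real {w | Fb Φ (pw w) s g x} ≤ p) (hp0 : 0 ≤ p) :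
    nu.real {w | ∃ I : Finset (ℤ × ℤ), I ⊆ Q ∧ I.card = r ∧
      (∀ x ∈ I, ∀ y ∈ I, x ≠ y → 2 * (68 * s) < dd x y) ∧
      ∀ x ∈ I, Fb Φ (pw w) s g x} ≤ (Q.card * p) ^ r := by
  classical
  obtain ⟨F, hF⟩ : ∃ F : Finset (ℤ × ℤ) → Prop,
      F = fun I => ∀ x ∈ I, ∀ y ∈ I, x ≠ y → 2 * (68 * s) < dd x y := ⟨_, rfl⟩
  set P := (Q.powersetCard r).filter F with hP
  have hsub : {w | ∃ I : Finset (ℤ × ℤ), I ⊆ Q ∧ I.card = r ∧
      (∀ x ∈ I, ∀ y ∈ I, x ≠ y → 2 * (68 * s) < dd x y) ∧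
      ∀ x ∈ I, Fb Φ (pw w) s g x} ⊆ ⋃ I ∈ P, {w | ∀ x ∈ I, Fb Φ (pw w) s g x} := by
    rintro w ⟨I, h1, h2, h3, h4⟩
    simp only [Set.mem_iUnion, Set.mem_setOf_eq, exists_prop]
    refine ⟨I, ?_, h4⟩
    rw [hP, Finset.mem_filter, Finset.mem_powersetCard, hF]
    exact ⟨⟨h1, h2⟩, h3⟩
  refine (measureReal_mono hsub (measure_ne_top _ _)).trans
    ((measureReal_biUnion_finset_le _ _).trans ?_)
  have key : ∀ I ∈ P, nu.real {w | ∀ x ∈ I, Fb Φ (pw w) s g x} ≤ p ^ r := by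
    intro I hI
    rw [hP, Finset.mem_filter, Finset.mem_powersetCard, hF] at hI
    obtain ⟨⟨h1, h2⟩, h3⟩ := hI
    have e1 : nu.real {w | ∀ x ∈ I, Fb Φ (pw w) s g x} =
        ∫ w, ∏ x ∈ I, Set.indicator {w : Ed → ℝ | Fb Φ (pw w) s g x} (1 : (Ed → ℝ) → ℝ) w ∂nu := by
      have hms : MeasurableSet {w : Ed → ℝ | ∀ x ∈ I, Fb Φ (pw w) s g x} := by
        have : {w : Ed → ℝ | ∀ x ∈ I, Fb Φ (pw w) s g x} =
            ⋂ x ∈ I, {w : Ed → ℝ | Fb Φ (pw w) s g x} := by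
          ext w; simp
        rw [this]
        exact Finset.measurableSet_biInter _ fun x _ => measurable_Fb s g x
      rw [← integral_indicator_one hms]
      refine integral_congr_ae (Eventually.of_forall fun w => ?_)
      beta_reduce
      by_cases hw : ∀ x ∈ I, Fb Φ (pw w) s g x
      · rw [Set.indicator_of_mem (show w ∈ {w : Ed → ℝ | ∀ x ∈ I, Fb Φ (pw w) s g x} from hw)]
        rw [Finset.prod_eq_one]
        · rfl
        · intro x hx
          rw [Set.indicator_of_mem (show w ∈ {w : Ed → ℝ | Fb Φ (pw w) s g x} from hw x hx)]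
          rfl
      · rw [Set.indicator_of_notMem (show w ∉ {w : Ed → ℝ | ∀ x ∈ I, Fb Φ (pw w) s g x} from hw)]
        push Not at hw
        obtain ⟨x, hx, hx'⟩ := hw
        symm
        refine Finset.prod_eq_zero hx ?_
        rw [Set.indicator_of_notMem (show w ∉ {w : Ed → ℝ | Fb Φ (pw w) s g x} from hx')]
    rw [e1, integral_prod_disj I (fun x => be (68 * s) x)
      (fun x => Set.indicator {w : Ed → ℝ | Fb Φ (pw w) s g x} (1 : (Ed → ℝ) → ℝ))]
    · calc _ ≤ ∏ _x ∈ I, p := by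
            refine Finset.prod_le_prod (fun x _ => integral_nonneg fun w => ?_) fun x hx => ?_
            · exact Set.indicator_nonneg (fun _ _ => zero_le_one) w
            · rw [integral_indicator_one (measurable_Fb s g x)]
              exact hp x (h1 hx)
        _ = p ^ r := by rw [Finset.prod_const, h2]
    · intro x
      exact measurable_one.indicator (measurable_Fb s g x)
    · intro x w w' hw
      have := Fb_dep (Φ := Φ) (g := g) hw
      by_cases h5 : Fb Φ (pw w) s g x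
      · rw [Set.indicator_of_mem (show w ∈ {w : Ed → ℝ | Fb Φ (pw w) s g x} from h5),
          Set.indicator_of_mem (show w' ∈ {w : Ed → ℝ | Fb Φ (pw w) s g x} from this.1 h5)]
        rfl
      · rw [Set.indicator_of_notMem (show w ∉ {w : Ed → ℝ | Fb Φ (pw w) s g x} from h5),
          Set.indicator_of_notMem (show w' ∉ {w : Ed → ℝ | Fb Φ (pw w) s g x} from
            fun h6 => h5 (this.2 h6))]
    · intro x hx y hy hxy
      exact be_disj (h3 x hx y hy hxy)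
  calc _ ≤ ∑ _I ∈ P, p ^ r := Finset.sum_le_sum key
    _ = P.card * p ^ r := by rw [Finset.sum_const, nsmul_eq_mul]
    _ ≤ (Q.card : ℝ) ^ r * p ^ r := by
        refine mul_le_mul_of_nonneg_right ?_ (by positivity)
        have e1 : P.card ≤ Q.card ^ r := by
          refine (Finset.card_filter_le _ _).trans ?_
          rw [Finset.card_powersetCard]
          exact Nat.choose_le_pow _ _
        exact_mod_cast e1
    _ = _ := by rw [mul_pow]

/-- the lower tail at one scale -/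
lemma prob_box (h : Sub Φ) {v : ℤ × ℤ} {n m₁ r : ℕ} (hn : dd 0 v = n) (hm1 : 1 ≤ m₁)
    (hmn : m₁ ≤ n) {S D g p0 d0 : ℝ} (hS1 : 1 ≤ S) (hD : 0 ≤ D)
    (hg : 0 ≤ g) (hp0 : 0 ≤ p0) (hd0 : 0 ≤ d0)
    (h5 : ∀ z : ℤ × ℤ, dd 0 z ≤ 66 * m₁ → nu.real {w | TT (pw w) 0 z < Φ z - D} ≤ d0)
    (hp : nu.real {w | Fb Φ (pw w) (66 * m₁) g 0} ≤ p0)
    (hr : 43825 * (r:ℝ) * D + (n:ℝ) / m₁ * g + D + 1 ≤ S) :
    nu.real {w | TT (pw w) 0 v < Φ v - S} ≤ (133 * (n:ℝ)) ^ 4 * (5 * (1 / 2) ^ m₁ + d0) +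
      ((((ball (66 * n) 0).image (rd (66 * m₁))).card : ℝ) * p0) ^ r := by
  classical
  set Bl := ball (66 * n) 0 with hBl
  set Q := Bl.image (rd (66 * m₁)) with hQ
  have hn1 : 1 ≤ n := by omega
  have hn1' : (1:ℝ) ≤ n := by exact_mod_cast hn1
  have hcard : (Bl.card : ℝ) ≤ (133 * n) ^ 2 := by
    have e1 : Bl.card ≤ (133 * n) ^ 2 := by
      refine (card_ball (66 * n)).trans (Nat.pow_le_pow_left (by omega) 2)
    exact_mod_cast e1
  have hN2 : (1:ℝ) ≤ (133 * (n:ℝ)) ^ 2 := one_le_pow₀ (by linarith)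
  have hN4 : (133 * (n:ℝ)) ^ 4 = (133 * n) ^ 2 * (133 * n) ^ 2 := by ring
  have hN24 : (133 * (n:ℝ)) ^ 2 ≤ (133 * n) ^ 4 := by
    rw [hN4]; exact le_mul_of_one_le_left (by positivity) hN2
  have hN14 : (1:ℝ) ≤ (133 * (n:ℝ)) ^ 4 := hN2.trans hN24
  -- the exceptional sets
  let A1 : Set (Ed → ℝ) := {w | Bad (pw w) 0 (66 * n + 1) (3 * (n:ℝ))}
  let A2 : Set (Ed → ℝ) := ⋃ x ∈ Bl, ⋃ y ∈ Bl.filter (fun y => dd x y = 66 * m₁),
    {w | TT (pw w) x y < 3 * (m₁:ℝ)}
  let A3 : Set (Ed → ℝ) := ⋃ x ∈ Bl, ⋃ y ∈ Bl.filter (fun y => dd x y ≤ 664 * (66 * m₁)),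
    {w | 3 * ((664 * (66 * m₁) : ℕ) : ℝ) ≤ TT (pw w) x y}
  let A4 : Set (Ed → ℝ) := ⋃ x ∈ Bl, ⋃ y ∈ Bl.filter (fun y => dd x y ≤ 66 * m₁),
    {w | TT (pw w) x y < TB (pw w) (66 * (66 * m₁)) x y}
  let A6 : Set (Ed → ℝ) := ⋃ x ∈ Bl, ⋃ y ∈ Bl.filter (fun y => dd x y ≤ 66 * m₁),
    {w | TT (pw w) x y < Φ (y - x) - D}
  let A7 : Set (Ed → ℝ) := {w | ∃ I : Finset (ℤ × ℤ), I ⊆ Q ∧ I.card = r ∧
      (∀ x ∈ I, ∀ y ∈ I, x ≠ y → 2 * (68 * (66 * m₁)) < dd x y) ∧
      ∀ x ∈ I, Fb Φ (pw w) (66 * m₁) g x}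
  have key := union7 {w | TT (pw w) 0 v < Φ v - S} A1 A2 A3 A4 ∅ A6 A7 (by
    intro w hw n1 n2 n3 n4 _ n6
    simp only [A2, A3, A4, A6, Set.mem_iUnion, Set.mem_setOf_eq, exists_prop, not_exists,
      Finset.mem_filter, not_and, not_lt, and_imp, not_le] at n2 n3 n4 n6
    exact far_box h (pw_nonneg w) hn hm1 hS1 hD hg hw n1 n2 n3 n4 n6 hr)
  rw [measureReal_empty, add_zero] at key
  have hcf : ∀ P : (ℤ × ℤ) → Prop, ∀ [DecidablePred P], (Bl.filter P).card ≤ Bl.card :=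
    fun P _ => Finset.card_filter_le _ _
  have hBB : (Bl.card : ℝ) * Bl.card ≤ (133 * (n:ℝ)) ^ 4 := by
    rw [hN4]; exact mul_le_mul hcard hcard (by positivity) (by positivity)
  have pairs : ∀ (P : (ℤ × ℤ) → (ℤ × ℤ) → Prop) [∀ x, DecidablePred (P x)]
      (T : (ℤ × ℤ) → (ℤ × ℤ) → Set (Ed → ℝ)) (p : ℝ), 0 ≤ p → (∀ x y, P x y → nu.real (T x y) ≤ p) →
      nu.real (⋃ x ∈ Bl, ⋃ y ∈ Bl.filter (P x), T x y) ≤ (133 * (n:ℝ)) ^ 4 * p := by
    intro P _ T p hp' hT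
    refine (union_pairs Bl _ T hp' (fun x _ => hcf _) fun x _ y hy => hT x y
      (Finset.mem_filter.1 hy).2).trans ?_
    rw [← mul_assoc]
    exact mul_le_mul_of_nonneg_right hBB hp'
  have b1 : nu.real A1 ≤ (133 * (n:ℝ)) ^ 4 * (1 / 2) ^ m₁ := by
    calc _ ≤ ((1:ℝ) / 2) ^ n := bad_le 0 (by omega)
      _ ≤ (1 / 2) ^ m₁ := half_mono hmn
      _ ≤ _ := le_mul_of_one_le_left (by positivity) hN14
  have b2 : nu.real A2 ≤ (133 * (n:ℝ)) ^ 4 * (1 / 2) ^ m₁ :=
    pairs (fun x y => dd x y = 66 * m₁) (fun x y => {w | TT (pw w) x y < 3 * (m₁:ℝ)}) _ (by positivity)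
      fun x y hxy => low_le hxy.ge
  have b3 : nu.real A3 ≤ (133 * (n:ℝ)) ^ 4 * (1 / 2) ^ m₁ :=
    pairs (fun x y => dd x y ≤ 664 * (66 * m₁))
      (fun x y => {w | 3 * ((664 * (66 * m₁) : ℕ) : ℝ) ≤ TT (pw w) x y}) _ (by positivity)
      fun x y hxy => (straight hxy).trans (half_mono (by omega))
  have b4 : nu.real A4 ≤ (133 * (n:ℝ)) ^ 4 * (2 * (1 / 2) ^ m₁) :=
    pairs (fun x y => dd x y ≤ 66 * m₁)
      (fun x y => {w | TT (pw w) x y < TB (pw w) (66 * (66 * m₁)) x y}) _ (by positivity)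
      fun x y hxy => (local_le hxy).trans (by
        have : ((1:ℝ) / 2) ^ (66 * m₁) ≤ (1 / 2) ^ m₁ := half_mono (by omega)
        linarith)
  have b6 : nu.real A6 ≤ (133 * (n:ℝ)) ^ 4 * d0 :=
    pairs (fun x y => dd x y ≤ 66 * m₁) (fun x y => {w | TT (pw w) x y < Φ (y - x) - D}) _ hd0
      fun x y hxy => by
        have hd : dd 0 (y - x) = dd x y := by
          simp only [dd, Prod.fst_sub, Prod.snd_sub, Prod.fst_zero, Prod.snd_zero]; omega
        have e1 := nu_TT_sh x y (measurableSet_Iio (a := Φ (y - x) - D))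
        have e2 := h5 (y - x) (by rw [hd]; exact hxy)
        have e3 : {w : Ed → ℝ | TT (pw w) x y < Φ (y - x) - D} =
          {w | TT (pw w) x y ∈ Set.Iio (Φ (y - x) - D)} := rfl
        rw [e3, e1]
        exact e2
  have b7 : nu.real A7 ≤ ((Q.card : ℝ) * p0) ^ r :=
    indep_box Q (66 * m₁) r g _ (fun x _ => by rw [Fb_sh]; exact hp) hp0
  linarith

end Q69.FM
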