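import Pool.Agent.Q69.FM.I

/-!
# First passage percolation, lower tail: boxes without fast pairs, no rate needed
-/

set_option autoImplicit false

open MeasureTheory ProbabilityTheory Finset Filter
open scoped Topology

namespace Q69.FM

open Q70.Fp Q69.FL

variable {Φ : ℤ × ℤ → ℝ}

/-- no fast pair in the box, with probability at least `exp (-N ^ ζ)` -/
def Bx (Φ : ℤ × ℤ → ℝ) (b ζ : ℝ) : Prop := ∀ᶠ N : ℕ in atTop, Real.exp (-((N:ℝ) ^ ζ)) ≤
  nu.real {w | ∀ u ∈ ball N 0, ∀ v ∈ ball N 0, Φ (v - u) - (N:ℝ) ^ (b + ζ) ≤ TT (pw w) u v}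

lemma indep_no (J s : ℕ) (g : ℝ) (c : ℕ → ℤ × ℤ)
    (hc : ∀ i ∈ range J, ∀ j ∈ range J, i ≠ j → 2 * (68 * s) < dd (c i) (c j)) :
    nu.real {w | ∀ i ∈ range J, ¬ Fb Φ (pw w) s g (c i)} =
      (1 - nu.real {w | Fb Φ (pw w) s g 0}) ^ J := by
  classical
  have hmeas : ∀ i, MeasurableSet {w : Ed → ℝ | ¬ Fb Φ (pw w) s g (c i)} := fun i =>
    (measurable_Fb s g (c i)).compl
  have hone : ∀ i, nu.real {w : Ed → ℝ | ¬ Fb Φ (pw w) s g (c i)} =
      1 - nu.real {w | Fb Φ (pw w) s g 0} := by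
    intro i
    have e1 := measureReal_compl (μ := nu) (measurable_Fb (Φ := Φ) s g (c i))
    rw [probReal_univ, Fb_sh] at e1
    exact e1
  have hms : MeasurableSet {w : Ed → ℝ | ∀ i ∈ range J, ¬ Fb Φ (pw w) s g (c i)} := by
    have : {w : Ed → ℝ | ∀ i ∈ range J, ¬ Fb Φ (pw w) s g (c i)} =
        ⋂ i ∈ range J, {w : Ed → ℝ | ¬ Fb Φ (pw w) s g (c i)} := by
      ext w; simp
    rw [this]
    exact Finset.measurableSet_biInter _ fun i _ => hmeas i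
  have e1 : nu.real {w | ∀ i ∈ range J, ¬ Fb Φ (pw w) s g (c i)} =
      ∫ w, ∏ i ∈ range J, Set.indicator {w : Ed → ℝ | ¬ Fb Φ (pw w) s g (c i)}
        (1 : (Ed → ℝ) → ℝ) w ∂nu := by
    rw [← integral_indicator_one hms]
    refine integral_congr_ae (Eventually.of_forall fun w => ?_)
    beta_reduce
    by_cases hw : ∀ i ∈ range J, ¬ Fb Φ (pw w) s g (c i)
    · rw [Set.indicator_of_mem (show w ∈ {w : Ed → ℝ | ∀ i ∈ range J, ¬ Fb Φ (pw w) s g (c i)} from hw)]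
      rw [Finset.prod_eq_one]
      · rfl
      · intro i hi
        rw [Set.indicator_of_mem (show w ∈ {w : Ed → ℝ | ¬ Fb Φ (pw w) s g (c i)} from hw i hi)]
        rfl
    · rw [Set.indicator_of_notMem
        (show w ∉ {w : Ed → ℝ | ∀ i ∈ range J, ¬ Fb Φ (pw w) s g (c i)} from hw)]
      push Not at hw
      obtain ⟨i, hi, hi'⟩ := hw
      symm
      refine Finset.prod_eq_zero hi ?_
      rw [Set.indicator_of_notMem (show w ∉ {w : Ed → ℝ | ¬ Fb Φ (pw w) s g (c i)} from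
        fun h => h hi')]
  rw [e1, integral_prod_disj (range J) (fun i => be (68 * s) (c i))
    (fun i => Set.indicator {w : Ed → ℝ | ¬ Fb Φ (pw w) s g (c i)} (1 : (Ed → ℝ) → ℝ))]
  · rw [Finset.prod_congr rfl (fun i _ => by
      rw [integral_indicator_one (hmeas i), hone i]), Finset.prod_const, Finset.card_range]
  · intro i
    exact measurable_one.indicator (hmeas i)
  · intro i w w' hw
    have := Fb_dep (Φ := Φ) (g := g) hw
    by_cases h5 : Fb Φ (pw w) s g (c i)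
    · rw [Set.indicator_of_notMem (show w ∉ {w : Ed → ℝ | ¬ Fb Φ (pw w) s g (c i)} from
          fun h => h h5),
        Set.indicator_of_notMem (show w' ∉ {w : Ed → ℝ | ¬ Fb Φ (pw w) s g (c i)} from
          fun h => h (this.1 h5))]
    · rw [Set.indicator_of_mem (show w ∈ {w : Ed → ℝ | ¬ Fb Φ (pw w) s g (c i)} from h5),
        Set.indicator_of_mem (show w' ∈ {w : Ed → ℝ | ¬ Fb Φ (pw w) s g (c i)} from
          fun h6 => h5 (this.2 h6))]
      rfl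
  · intro i hi j hj hij
    exact be_disj (hc i hi j hj hij)

/-- a large box contains many independent small ones -/
lemma box_rate {b : ℝ} (hb : 0 < b) (hB : ∀ ζ : ℝ, 0 < ζ → Bx Φ b ζ) {a : ℝ}
    (ha : b < a) : ∃ δ C : ℝ, 0 < δ ∧ 0 < C ∧ ∀ᶠ s : ℕ in atTop,
      nu.real {w | Fb Φ (pw w) s ((s:ℝ) ^ a) 0} ≤ C * (s:ℝ) ^ (-δ) := by
  obtain ⟨ζ0, hζ0⟩ : ∃ ζ0 : ℝ, ζ0 = (a - b) / 3 := ⟨_, rfl⟩
  have hζ00 : 0 < ζ0 := by rw [hζ0]; linarith
  obtain ⟨η, hη⟩ : ∃ η : ℝ, η = (a - b) / (3 * (b + ζ0)) := ⟨_, rfl⟩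
  have hη0 : 0 < η := by
    rw [hη]
    have : 0 < a - b := by linarith
    positivity
  have hexp0 : (1 + η) * (b + ζ0) < a := by
    have e1 : η * (b + ζ0) = (a - b) / 3 := by
      rw [hη]
      have : b + ζ0 ≠ 0 := by positivity
      field_simp
    rw [add_mul, e1, one_mul, hζ0]
    linarith
  obtain ⟨ζ, hζ⟩ : ∃ ζ : ℝ, ζ = min ζ0 (η / 2 / (1 + η)) := ⟨_, rfl⟩
  have hζp : 0 < ζ := by rw [hζ]; exact lt_min hζ00 (by positivity)
  have hz1 : ζ ≤ ζ0 := by rw [hζ]; exact min_le_left _ _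
  have hz2 : (1 + η) * ζ ≤ η / 2 := by
    have : ζ ≤ η / 2 / (1 + η) := by rw [hζ]; exact min_le_right _ _
    rw [le_div_iff₀ (by positivity)] at this
    linarith
  have hexp : (1 + η) * (b + ζ) < a := by
    refine lt_of_le_of_lt ?_ hexp0
    gcongr
  obtain ⟨N0, hN0⟩ := eventually_atTop.1 (hB ζ hζp)
  refine ⟨η / 2, 2 * 137 ^ ζ, by positivity, by positivity, ?_⟩
  have tη : Tendsto (fun s : ℕ => (s:ℝ) ^ η) atTop atTop :=
    (tendsto_rpow_atTop hη0).comp tendsto_natCast_atTop_atTop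
  filter_upwards [eventually_ge_atTop 1, eventually_ge_atTop N0, tη.eventually_ge_atTop 2,
    (tendsto_natCast_atTop_atTop (R := ℝ)).eventually (rpow_small (K := 137 ^ (b + ζ)) hexp)]
    with s hs1 hsN u1 u2
  have hs0 : (0:ℝ) < s := by exact_mod_cast hs1
  obtain ⟨J, hJ⟩ : ∃ J : ℕ, J = ⌊(s:ℝ) ^ η⌋₊ := ⟨_, rfl⟩
  have J_up : (J:ℝ) ≤ (s:ℝ) ^ η := by rw [hJ]; exact Nat.floor_le (by positivity)
  have J_lo : (s:ℝ) ^ η / 2 ≤ J := by
    have : (s:ℝ) ^ η < J + 1 := by rw [hJ]; exact Nat.lt_floor_add_one _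
    linarith
  have hJ1 : 1 ≤ J := by
    have : (1:ℝ) ≤ J := by linarith
    exact_mod_cast this
  obtain ⟨L, hL⟩ : ∃ L : ℕ, L = 136 * s + 1 := ⟨_, rfl⟩
  have hNle : N0 ≤ J * L := by
    have : L ≤ J * L := Nat.le_mul_of_pos_left L hJ1
    omega
  have hbox := hN0 (J * L) hNle
  have hJL : ((J * L : ℕ) : ℝ) ≤ 137 * (s:ℝ) ^ (1 + η) := by
    have f1 : (L:ℝ) ≤ 137 * s := by
      have : (1:ℝ) ≤ s := by exact_mod_cast hs1
      rw [hL]; push_cast; linarith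
    rw [Nat.cast_mul, Real.rpow_add hs0, Real.rpow_one]
    calc (J:ℝ) * L ≤ (s:ℝ) ^ η * (137 * s) := by gcongr
      _ = 137 * (s * (s:ℝ) ^ η) := by ring
  have hNup : ((J * L : ℕ) : ℝ) ^ (b + ζ) ≤ (s:ℝ) ^ a := by
    calc ((J * L : ℕ) : ℝ) ^ (b + ζ) ≤ (137 * (s:ℝ) ^ (1 + η)) ^ (b + ζ) :=
          Real.rpow_le_rpow (by positivity) hJL (by positivity)
      _ = 137 ^ (b + ζ) * (s:ℝ) ^ ((1 + η) * (b + ζ)) := by
          rw [Real.mul_rpow (by norm_num) (by positivity), ← Real.rpow_mul hs0.le]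
      _ ≤ _ := u2
  have hNζ : ((J * L : ℕ) : ℝ) ^ ζ ≤ 137 ^ ζ * (s:ℝ) ^ (η / 2) := by
    calc ((J * L : ℕ) : ℝ) ^ ζ ≤ (137 * (s:ℝ) ^ (1 + η)) ^ ζ :=
          Real.rpow_le_rpow (by positivity) hJL (by positivity)
      _ = 137 ^ ζ * (s:ℝ) ^ ((1 + η) * ζ) := by
          rw [Real.mul_rpow (by norm_num) (by positivity), ← Real.rpow_mul hs0.le]
      _ ≤ 137 ^ ζ * (s:ℝ) ^ (η / 2) := by
          refine mul_le_mul_of_nonneg_left ?_ (by positivity)
          exact Real.rpow_le_rpow_of_exponent_le (by exact_mod_cast hs1) hz2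
  obtain ⟨cc, hcc⟩ : ∃ cc : ℕ → ℤ × ℤ, cc = fun j => (((j * L : ℕ) : ℤ), 0) := ⟨_, rfl⟩
  have hfar : ∀ i ∈ range J, ∀ j ∈ range J, i ≠ j → 2 * (68 * s) < dd (cc i) (cc j) := by
    intro i _ j _ hij
    have e1 : dd (cc i) (cc j) = (((j:ℤ) - i).natAbs) * L := by
      rw [hcc]
      simp only [dd, sub_self, Int.natAbs_zero, add_zero]
      push_cast
      rw [← sub_mul, Int.natAbs_mul, Int.natAbs_natCast]
    rw [e1]
    have e2 : 1 ≤ ((j:ℤ) - i).natAbs := by omega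
    have e3 : 1 * L ≤ ((j:ℤ) - i).natAbs * L := Nat.mul_le_mul_right L e2
    omega
  have hsub : {w : Ed → ℝ | ∀ u ∈ ball (J * L) 0, ∀ v ∈ ball (J * L) 0,
      Φ (v - u) - ((J * L : ℕ) : ℝ) ^ (b + ζ) ≤ TT (pw w) u v} ⊆
      {w | ∀ i ∈ range J, ¬ Fb Φ (pw w) s ((s:ℝ) ^ a) (cc i)} := by
    intro w hw i hi hF
    rw [Finset.mem_range] at hi
    obtain ⟨u, hu, v, hv, huv⟩ := hF
    rw [mem_ball] at hu hv
    have d1 : dd 0 (cc i) = i * L := by
      rw [hcc]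
      simp only [dd, Prod.fst_zero, Prod.snd_zero, sub_zero, Int.natAbs_zero, add_zero,
        Int.natAbs_natCast]
    have d2 := dd_tri 0 (cc i) u
    have d3 := dd_tri 0 u v
    have d4 : (i + 1) * L ≤ J * L := Nat.mul_le_mul_right L hi
    have d5 : (i + 1) * L = i * L + L := by ring
    have hw' := hw u (mem_ball.2 (by omega)) v (mem_ball.2 (by omega))
    have e1 := TT_le_TB (pw_nonneg w) (R := 66 * s) (x := u) (y := v) (by omega)
    linarith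
  have h1 : Real.exp (-(((J * L : ℕ) : ℝ) ^ ζ)) ≤
      (1 - nu.real {w | Fb Φ (pw w) s ((s:ℝ) ^ a) 0}) ^ J := by
    rw [← indep_no J s ((s:ℝ) ^ a) cc hfar]
    exact hbox.trans (measureReal_mono hsub (measure_ne_top _ _))
  obtain ⟨p, hp⟩ : ∃ p : ℝ, p = nu.real {w : Ed → ℝ | Fb Φ (pw w) s ((s:ℝ) ^ a) 0} := ⟨_, rfl⟩
  rw [← hp] at h1 ⊢
  have hp1 : p ≤ 1 := by rw [hp]; exact measureReal_le_one
  have hp0 : 0 ≤ p := by rw [hp]; exact measureReal_nonneg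
  have h2 : (1 - p) ^ J ≤ Real.exp (-(p * J)) := by
    calc (1 - p) ^ J ≤ (Real.exp (-p)) ^ J :=
          pow_le_pow_left₀ (by linarith) (Real.one_sub_le_exp_neg p) J
      _ = Real.exp (-(p * J)) := by rw [← Real.exp_nat_mul]; congr 1; ring
  have h3 : p * J ≤ ((J * L : ℕ) : ℝ) ^ ζ := by
    have := Real.exp_le_exp.1 (h1.trans h2)
    linarith
  have hsη : 0 < (s:ℝ) ^ (η / 2) := by positivity
  have h4 : p * ((s:ℝ) ^ η / 2) ≤ 137 ^ ζ * (s:ℝ) ^ (η / 2) := by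
    have := mul_le_mul_of_nonneg_left J_lo hp0
    linarith
  have h5 : (s:ℝ) ^ η = (s:ℝ) ^ (η / 2) * (s:ℝ) ^ (η / 2) := by
    rw [← Real.rpow_add hs0]; congr 1; ring
  rw [Real.rpow_neg hs0.le, ← div_eq_mul_inv, le_div_iff₀ hsη]
  have h6 : p * (s:ℝ) ^ (η / 2) * (s:ℝ) ^ (η / 2) ≤ 2 * 137 ^ ζ * (s:ℝ) ^ (η / 2) := by
    rw [h5] at h4
    linarith
  exact le_of_mul_le_mul_right h6 hsη

/-- the step from one scale to a larger one -/
lemma stepB (h : Sub Φ) {b1 A a η δ Cf : ℝ} (hb10 : 0 < b1)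
    (hη0 : 0 < η) (hη1 : η < 1) (hA : 0 < A) (hδ : 0 < δ) (hCf : 0 < Cf) (h1 : η + (1 - η) * b1 < a)
    (h2 : (1 - η) * A < a) (h3 : 2 * η - (1 - η) * δ < 0)
    (hF : ∀ᶠ s : ℕ in atTop, nu.real {w | Fb Φ (pw w) s ((s:ℝ) ^ b1) 0} ≤ Cf * (s:ℝ) ^ (-δ))
    (hS : Se Φ A) : Se Φ a := by
  obtain ⟨κ5, c5, C5, hκ5, hc5, hC5, hU⟩ := unifL h hA hS
  obtain ⟨s0, hs0⟩ := eventually_atTop.1 hF
  set τ : ℝ := 1 - η with hτ
  have hτ0 : 0 < τ := by rw [hτ]; linarith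
  have hτ1 : τ < 1 := by rw [hτ]; linarith
  set ε : ℝ := (a - τ * A) / 2 with hε
  have hε0 : 0 < ε := by rw [hε]; linarith
  have ha0 : 0 < a := lt_trans (by positivity) h2
  set κ' : ℝ := min (min (τ / 2) (τ * κ5 / 2)) (ε / 2) with hκ'
  have hκ'0 : 0 < κ' := lt_min (lt_min (by positivity) (by positivity)) (by positivity)
  have hk1 : κ' < τ := by
    have e1 : κ' ≤ τ / 2 := (min_le_left _ _).trans (min_le_left _ _)
    linarith
  have hk2 : κ' < τ * κ5 := by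
    have e1 : κ' ≤ τ * κ5 / 2 := (min_le_left _ _).trans (min_le_right _ _)
    have e2 : 0 < τ * κ5 := by positivity
    linarith
  have hk3 : κ' < ε := by
    have e1 : κ' ≤ ε / 2 := min_le_right _ _
    linarith
  have hl2 : 0 < Real.log 2 := Real.log_pos one_lt_two
  have tt : Tendsto (fun n : ℕ => (n:ℝ) ^ τ) atTop atTop :=
    (tendsto_rpow_atTop hτ0).comp tendsto_natCast_atTop_atTop
  have te : Tendsto (fun n : ℕ => (n:ℝ) ^ ε) atTop atTop :=
    (tendsto_rpow_atTop hε0).comp tendsto_natCast_atTop_atTop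
  have hprod : ∀ᶠ n : ℕ in atTop, 72 * Cf * (n:ℝ) ^ (2 * η - τ * δ) ≤ 1 := by
    have e1 := (tendsto_natCast_atTop_atTop (R := ℝ)).eventually
      (rpow_small (K := 72 * Cf) h3)
    filter_upwards [e1] with n e1
    rwa [Real.rpow_zero] at e1
  obtain ⟨C', hC', hfin⟩ := of_ev_exp
    (P := fun v => nu.real {w | TT (pw w) 0 v < Φ v - (dd 0 v : ℝ) ^ a})
    (fun v => measureReal_le_one) hκ'0 (C := 3) (by norm_num) (by
      filter_upwards [eventually_ge_atTop 1, tt.eventually_ge_atTop 2,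
        te.eventually_ge_atTop 1, tt.eventually_ge_atTop ((s0:ℝ) + 1), hprod,
        pow_small (K := 43825 * 66 ^ A) (show ε + τ * A < a by rw [hε]; linarith),
        pow_small (K := 2 * 66 ^ b1) h1, pow_small (K := 66 ^ A) h2,
        pow_small (K := 1) ha0, absorb (133 ^ 4 * 5) (show 0 < Real.log 2 / 2 by positivity) hκ'0 hk1,
        absorb (133 ^ 4 * C5) hc5 hκ'0 hk2, absorb 2 hl2 hκ'0 hk3] with n hn1 u1 u3 u4 u5 u6 u7 u8
        u9 u10 u11 u12 v hv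
      have hn1' : (1:ℝ) ≤ n := by exact_mod_cast hn1
      have hn0 : (0:ℝ) < n := by linarith
      set t : ℝ := (n:ℝ) ^ τ with ht
      have ht0 : 0 < t := by positivity
      have htn : t ≤ n := by
        calc t ≤ (n:ℝ) ^ (1:ℝ) := Real.rpow_le_rpow_of_exponent_le hn1' hτ1.le
          _ = n := Real.rpow_one _
      set m₁ : ℕ := ⌊t⌋₊ with hm₁
      set r : ℕ := ⌊(n:ℝ) ^ ε⌋₊ with hr
      have m_up : (m₁:ℝ) ≤ t := Nat.floor_le ht0.le
      have m_lo' : t < m₁ + 1 := Nat.lt_floor_add_one t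
      have m_lo : t / 2 ≤ m₁ := by linarith
      have r_up : (r:ℝ) ≤ (n:ℝ) ^ ε := Nat.floor_le (by positivity)
      have r_lo : (n:ℝ) ^ ε < r + 1 := Nat.lt_floor_add_one _
      have hm1 : 1 ≤ m₁ := by
        have : (1:ℝ) ≤ m₁ := by linarith
        exact_mod_cast this
      have hms : s0 ≤ m₁ := by
        have : (s0:ℝ) ≤ m₁ := by linarith
        exact_mod_cast this
      have hmn : m₁ ≤ n := by
        have : (m₁:ℝ) ≤ n := by linarith
        exact_mod_cast this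
      have hm0 : (0:ℝ) < m₁ := by exact_mod_cast hm1
      set D : ℝ := ((66 * m₁ : ℕ) : ℝ) ^ A with hD
      set g : ℝ := ((66 * m₁ : ℕ) : ℝ) ^ b1 with hg
      have hpush : ((66 * m₁ : ℕ) : ℝ) = 66 * m₁ := by push_cast; ring
      have D_up : D ≤ 66 ^ A * (n:ℝ) ^ (τ * A) := by
        rw [hD, hpush, Real.rpow_mul hn0.le, ← Real.mul_rpow (by norm_num) ht0.le]
        exact Real.rpow_le_rpow (by positivity) (by linarith) hA.le
      have g_up : g ≤ 66 ^ b1 * (n:ℝ) ^ (τ * b1) := by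
        rw [hg, hpush, Real.rpow_mul hn0.le, ← Real.mul_rpow (by norm_num) ht0.le]
        exact Real.rpow_le_rpow (by positivity) (by linarith) hb10.le
      have hD0 : 0 ≤ D := by positivity
      have hg0 : 0 ≤ g := by positivity
      -- the numbers
      have f2 : (n:ℝ) / m₁ ≤ 2 * (n:ℝ) ^ η := by
        have e1 : (n:ℝ) = (n:ℝ) ^ η * t := by
          rw [ht, ← Real.rpow_add hn0, hτ, show η + (1 - η) = 1 by ring, Real.rpow_one]
        rw [div_le_iff₀ hm0]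
        calc (n:ℝ) = (n:ℝ) ^ η * t := e1
          _ = 2 * (n:ℝ) ^ η * (t / 2) := by ring
          _ ≤ 2 * (n:ℝ) ^ η * m₁ := by gcongr
      have hr' : 43825 * (r:ℝ) * D + (n:ℝ) / m₁ * g + D + 1 ≤ (n:ℝ) ^ a := by
        have f1 : 43825 * (r:ℝ) * D ≤ 43825 * 66 ^ A * (n:ℝ) ^ (ε + τ * A) := by
          calc 43825 * (r:ℝ) * D ≤ 43825 * (n:ℝ) ^ ε * (66 ^ A * (n:ℝ) ^ (τ * A)) := by gcongr
            _ = 43825 * 66 ^ A * ((n:ℝ) ^ ε * (n:ℝ) ^ (τ * A)) := by ring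
            _ = _ := by rw [← Real.rpow_add hn0]
        have f3 : (n:ℝ) / m₁ * g ≤ 2 * 66 ^ b1 * (n:ℝ) ^ (η + τ * b1) := by
          calc (n:ℝ) / m₁ * g ≤ (2 * (n:ℝ) ^ η) * (66 ^ b1 * (n:ℝ) ^ (τ * b1)) := by gcongr
            _ = 2 * 66 ^ b1 * ((n:ℝ) ^ η * (n:ℝ) ^ (τ * b1)) := by ring
            _ = _ := by rw [← Real.rpow_add hn0]
        rw [Real.rpow_zero, mul_one] at u9
        linarith
      have hS1 : (1:ℝ) ≤ (n:ℝ) ^ a := Real.one_le_rpow hn1' ha0.le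
      -- fast pairs
      have hp : nu.real {w | Fb Φ (pw w) (66 * m₁) g 0} ≤ Cf * t ^ (-δ) := by
        refine (hs0 (66 * m₁) (by omega)).trans (mul_le_mul_of_nonneg_left ?_ hCf.le)
        refine Real.rpow_le_rpow_of_nonpos ht0 ?_ (by linarith)
        rw [hpush]
        linarith
      have h5 : ∀ z : ℤ × ℤ, dd 0 z ≤ 66 * m₁ → nu.real {w | TT (pw w) 0 z < Φ z - D} ≤
          C5 * Real.exp (-(c5 * ((66 * m₁ : ℕ) : ℝ) ^ κ5)) :=
        fun z hz => hU (66 * m₁) (by omega) z hz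
      have main := prob_box h hv hm1 hmn hS1 hD0 hg0 (show 0 ≤ Cf * t ^ (-δ) by positivity)
        (show 0 ≤ C5 * Real.exp (-(c5 * ((66 * m₁ : ℕ) : ℝ) ^ κ5)) by positivity) h5 hp hr'
      rw [hv]
      refine main.trans ?_
      -- the fast pairs are rare
      have cQ : (((ball (66 * n) 0).image (rd (66 * m₁))).card : ℝ) ≤ 36 * (n:ℝ) ^ (2 * η) := by
        have e1 : (((ball (66 * n) 0).image (rd (66 * m₁))).card : ℝ) ≤
            (2 * ((66 * n / (66 * m₁) : ℕ) : ℝ) + 2) ^ 2 := by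
          exact_mod_cast count_rd (show 1 ≤ 66 * m₁ by omega) (66 * n)
        have e2 : ((66 * n / (66 * m₁) : ℕ) : ℝ) ≤ 2 * (n:ℝ) ^ η := by
          rw [Nat.mul_div_mul_left _ _ (by norm_num : 0 < 66)]
          exact Nat.cast_div_le.trans f2
        have e3 : (1:ℝ) ≤ (n:ℝ) ^ η := Real.one_le_rpow hn1' hη0.le
        have e4 : (n:ℝ) ^ (2 * η) = ((n:ℝ) ^ η) ^ 2 := by
          rw [mul_comm 2 η, Real.rpow_mul hn0.le, Real.rpow_two]
        rw [e4]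
        calc _ ≤ (2 * ((66 * n / (66 * m₁) : ℕ) : ℝ) + 2) ^ 2 := e1
          _ ≤ (6 * (n:ℝ) ^ η) ^ 2 := pow_le_pow_left₀ (by positivity) (by linarith) 2
          _ = _ := by ring
      have prodle : (((ball (66 * n) 0).image (rd (66 * m₁))).card : ℝ) * (Cf * t ^ (-δ)) ≤ 1 / 2 := by
        have e1 : (((ball (66 * n) 0).image (rd (66 * m₁))).card : ℝ) * (Cf * t ^ (-δ)) ≤
            36 * (n:ℝ) ^ (2 * η) * (Cf * t ^ (-δ)) := by gcongr
        have e2 : (n:ℝ) ^ (2 * η) * t ^ (-δ) = (n:ℝ) ^ (2 * η - τ * δ) := by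
          rw [ht, ← Real.rpow_mul hn0.le, ← Real.rpow_add hn0]
          congr 1
          ring
        have e3 : 36 * (n:ℝ) ^ (2 * η) * (Cf * t ^ (-δ)) = 36 * Cf * (n:ℝ) ^ (2 * η - τ * δ) := by
          rw [← e2]; ring
        linarith
      have p3 : ((((ball (66 * n) 0).image (rd (66 * m₁))).card : ℝ) * (Cf * t ^ (-δ))) ^ r ≤
          Real.exp (-((n:ℝ) ^ κ')) := by
        refine (pow_le_pow_left₀ (by positivity) prodle r).trans ?_
        rw [half_exp]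
        have e1 : Real.exp (-(Real.log 2 * (r:ℝ))) ≤ 2 * Real.exp (-(Real.log 2 * (n:ℝ) ^ ε)) := by
          have : (2:ℝ) * Real.exp (-(Real.log 2 * (n:ℝ) ^ ε)) =
              Real.exp (Real.log 2 + -(Real.log 2 * (n:ℝ) ^ ε)) := by
            rw [Real.exp_add, Real.exp_log two_pos]
          rw [this, Real.exp_le_exp]
          have e3 := mul_le_mul_of_nonneg_left r_lo.le hl2.le
          rw [mul_add, mul_one] at e3
          linarith only [e3]
        have e2 : 2 * Real.exp (-(Real.log 2 * (n:ℝ) ^ ε)) ≤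
            2 * (n:ℝ) ^ 4 * Real.exp (-(Real.log 2 * (n:ℝ) ^ ε)) := by
          have : (1:ℝ) ≤ (n:ℝ) ^ 4 := one_le_pow₀ hn1'
          exact mul_le_mul_of_nonneg_right (by linarith only [this]) (Real.exp_pos _).le
        linarith
      have p1 : (133 * (n:ℝ)) ^ 4 * (5 * (1 / 2) ^ m₁) ≤ Real.exp (-((n:ℝ) ^ κ')) := by
        refine le_trans ?_ u10
        have e1 : ((1:ℝ) / 2) ^ m₁ ≤ Real.exp (-(Real.log 2 / 2 * (n:ℝ) ^ τ)) := by
          rw [half_exp, Real.exp_le_exp]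
          have : Real.log 2 * (t / 2) ≤ Real.log 2 * m₁ := by gcongr
          linarith
        calc (133 * (n:ℝ)) ^ 4 * (5 * (1 / 2) ^ m₁) = 133 ^ 4 * 5 * (n:ℝ) ^ 4 * (1 / 2) ^ m₁ := by ring
          _ ≤ _ := by gcongr
      have p2 : (133 * (n:ℝ)) ^ 4 * (C5 * Real.exp (-(c5 * ((66 * m₁ : ℕ) : ℝ) ^ κ5))) ≤
          Real.exp (-((n:ℝ) ^ κ')) := by
        refine le_trans ?_ u11
        have e1 : Real.exp (-(c5 * ((66 * m₁ : ℕ) : ℝ) ^ κ5)) ≤
            Real.exp (-(c5 * (n:ℝ) ^ (τ * κ5))) := by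
          rw [Real.exp_le_exp, Real.rpow_mul hn0.le]
          have : t ^ κ5 ≤ ((66 * m₁ : ℕ) : ℝ) ^ κ5 :=
            Real.rpow_le_rpow ht0.le (by rw [hpush]; linarith) hκ5.le
          have e2 := mul_le_mul_of_nonneg_left this hc5.le
          linarith
        calc (133 * (n:ℝ)) ^ 4 * (C5 * Real.exp (-(c5 * ((66 * m₁ : ℕ) : ℝ) ^ κ5)))
            = 133 ^ 4 * C5 * (n:ℝ) ^ 4 * Real.exp (-(c5 * ((66 * m₁ : ℕ) : ℝ) ^ κ5)) := by ring
          _ ≤ _ := by gcongr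
      rw [mul_add]
      linarith)
  exact ⟨κ', 1, C', hκ'0, one_pos, hC', fun v _ => by simpa using hfin v⟩

/-- boxes without fast pairs give stretched exponential bounds -/
lemma boostB (h : Sub Φ) {b : ℝ} (hb : 0 < b) (hB : ∀ ζ : ℝ, 0 < ζ → Bx Φ b ζ) {a : ℝ}
    (ha : b < a) : Se Φ a := by
  obtain ⟨b1, hb1⟩ : ∃ b1 : ℝ, b1 = (a + b) / 2 := ⟨_, rfl⟩
  have e1 : b < b1 := by rw [hb1]; linarith
  have e3 : b1 < a := by rw [hb1]; linarith
  obtain ⟨δ, Cf, hδ, hCf, hF⟩ := box_rate hb hB e1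
  -- a small η
  have c1 : Tendsto (fun η : ℝ => η + (1 - η) * b1) (𝓝[>] 0) (𝓝 b1) := by
    have : Tendsto (fun η : ℝ => η + (1 - η) * b1) (𝓝 0) (𝓝 (0 + (1 - 0) * b1)) := by
      apply Continuous.tendsto; fun_prop
    simpa using this.mono_left nhdsWithin_le_nhds
  have c2 : Tendsto (fun η : ℝ => 2 * η - (1 - η) * δ) (𝓝[>] 0) (𝓝 (-δ)) := by
    have : Tendsto (fun η : ℝ => 2 * η - (1 - η) * δ) (𝓝 0) (𝓝 (2 * 0 - (1 - 0) * δ)) := by
      apply Continuous.tendsto; fun_prop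
    have e : 2 * 0 - (1 - 0) * δ = -δ := by ring
    rw [e] at this
    exact this.mono_left nhdsWithin_le_nhds
  have c3 : ∀ᶠ η : ℝ in 𝓝[>] 0, η < 1 := by
    filter_upwards [Ioo_mem_nhdsGT one_pos] with η hη using hη.2
  have c4 : ∀ᶠ η : ℝ in 𝓝[>] 0, 0 < η := by
    filter_upwards [Ioo_mem_nhdsGT one_pos] with η hη using hη.1
  obtain ⟨η, h1, h2, h3, h4⟩ := ((c1.eventually_lt_const e3).and
    ((c2.eventually_lt_const (show -δ < 0 by linarith)).and (c3.and c4))).exists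
  set ρ : ℝ := 1 - η / 2 with hρ
  have hρ0 : 0 < ρ := by rw [hρ]; linarith
  have hρ1 : ρ < 1 := by rw [hρ]; linarith
  have ha0 : 0 < a := hb.trans ha
  have key : ∀ k : ℕ, Se Φ (max (2 * ρ ^ k) a) := by
    intro k
    induction k with
    | zero =>
      refine Se_mono ?_ (Se_two h)
      simp
    | succ k ih =>
      rcases le_total (2 * ρ ^ k) a with hc | hc
      · rw [max_eq_right hc] at ih
        exact Se_mono (le_max_right _ _) ih
      · rw [max_eq_left hc] at ih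
        have hA : 0 < 2 * ρ ^ k := by positivity
        refine stepB h (hb.trans e1) h4 h3 hA hδ hCf (lt_of_lt_of_le h1 (le_max_right _ _)) ?_ h2 hF ih
        refine lt_of_lt_of_le ?_ (le_max_left _ _)
        have hρ' : 1 - η < ρ := by rw [hρ]; linarith
        have e4 := mul_lt_mul_of_pos_left hρ' hA
        calc (1 - η) * (2 * ρ ^ k) = 2 * ρ ^ k * (1 - η) := by ring
          _ < 2 * ρ ^ k * ρ := e4
          _ = 2 * ρ ^ (k + 1) := by ring
  have hlim : Tendsto (fun k : ℕ => 2 * ρ ^ k) atTop (𝓝 (2 * 0)) :=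
    (tendsto_pow_atTop_nhds_zero_of_lt_one hρ0.le hρ1).const_mul 2
  rw [mul_zero] at hlim
  obtain ⟨k, hk⟩ := (hlim.eventually (gt_mem_nhds ha0)).exists
  have := key k
  rwa [max_eq_right hk.le] at this

/-- the converse -/
lemma Bx_half (h : Sub Φ) {b : ℝ} (hb : 0 < b) (hS : ∀ a, b < a → Se Φ a) {ζ : ℝ} (hζ : 0 < ζ) :
    ∃ N0 : ℕ, ∀ N : ℕ, N0 ≤ N → (1:ℝ) / 2 ≤
      nu.real {w | ∀ u ∈ ball N 0, ∀ v ∈ ball N 0, Φ (v - u) - (N:ℝ) ^ (b + ζ) ≤ TT (pw w) u v} := by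
  classical
  obtain ⟨κ, c, C, hκ, hc, hC, hU⟩ := unifL h (show 0 < b + ζ / 2 by positivity)
    (hS (b + ζ / 2) (by linarith))
  obtain ⟨N0, hN0⟩ := eventually_atTop.1 ((eventually_ge_atTop 1).and
    (((tendsto_natCast_atTop_atTop (R := ℝ)).eventually (rpow_small (K := 2 ^ (b + ζ / 2))
      (show b + ζ / 2 < b + ζ by linarith))).and
    ((absorb (3 ^ 4 * C * 2) hc (show 0 < κ / 2 by positivity) (show κ / 2 < κ by linarith)))))
  refine ⟨N0, fun N hN => ?_⟩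
  obtain ⟨hN1, u1, u2⟩ := hN0 N hN
  have hN1' : (1:ℝ) ≤ N := by exact_mod_cast hN1
  have hNp : (0:ℝ) < N := by linarith
  set Bl := ball N 0 with hBl
  let A6 : Set (Ed → ℝ) := ⋃ x ∈ Bl, ⋃ y ∈ Bl, {w | TT (pw w) x y < Φ (y - x) - ((2 * N : ℕ) : ℝ) ^ (b + ζ / 2)}
  have hcard : (Bl.card : ℝ) ≤ (3 * N) ^ 2 := by
    have e1 : Bl.card ≤ (3 * N) ^ 2 := (card_ball N).trans (Nat.pow_le_pow_left (by omega) 2)
    exact_mod_cast e1
  have b6 : nu.real A6 ≤ 1 / 2 := by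
    have e0 : nu.real A6 ≤ Bl.card * (Bl.card * (C * Real.exp (-(c * ((2 * N : ℕ) : ℝ) ^ κ)))) := by
      refine union_pairs Bl (fun _ => Bl) _ (c := Bl.card) (by positivity) (fun x _ => le_rfl) ?_
      intro x hx y hy
      rw [hBl, mem_ball] at hx hy
      have hd : dd 0 (y - x) = dd x y := by
        simp only [dd, Prod.fst_sub, Prod.snd_sub, Prod.fst_zero, Prod.snd_zero]; omega
      have d1 := dd_tri x 0 y
      have d2 := dd_comm x 0
      have e1 := nu_TT_sh x y (measurableSet_Iio (a := Φ (y - x) - ((2 * N : ℕ) : ℝ) ^ (b + ζ / 2)))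
      have e2 := hU (2 * N) (by omega) (y - x) (by rw [hd]; omega)
      have e3 : {w : Ed → ℝ | TT (pw w) x y < Φ (y - x) - ((2 * N : ℕ) : ℝ) ^ (b + ζ / 2)} =
        {w | TT (pw w) x y ∈ Set.Iio (Φ (y - x) - ((2 * N : ℕ) : ℝ) ^ (b + ζ / 2))} := rfl
      rw [e3, e1]
      exact e2
    have e1 : Real.exp (-(c * ((2 * N : ℕ) : ℝ) ^ κ)) ≤ Real.exp (-(c * (N : ℝ) ^ κ)) := by
      rw [Real.exp_le_exp]
      have : (N:ℝ) ^ κ ≤ ((2 * N : ℕ) : ℝ) ^ κ :=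
        Real.rpow_le_rpow hNp.le (by push_cast; linarith) hκ.le
      have := mul_le_mul_of_nonneg_left this hc.le
      linarith
    have e2 : (Bl.card : ℝ) * (Bl.card * (C * Real.exp (-(c * ((2 * N : ℕ) : ℝ) ^ κ)))) ≤
        (3 * N) ^ 2 * ((3 * N) ^ 2 * (C * Real.exp (-(c * (N : ℝ) ^ κ)))) := by gcongr
    have e3 : (3 * (N:ℝ)) ^ 2 * ((3 * N) ^ 2 * (C * Real.exp (-(c * (N : ℝ) ^ κ)))) =
        (3 ^ 4 * C * 2 * (N:ℝ) ^ 4 * Real.exp (-(c * (N : ℝ) ^ κ))) / 2 := by ring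
    have e4 : Real.exp (-((N:ℝ) ^ (κ / 2))) ≤ 1 := Real.exp_le_one_iff.2 (by
      have : 0 ≤ (N:ℝ) ^ (κ / 2) := by positivity
      linarith)
    linarith
  have hsub : A6ᶜ ⊆ {w | ∀ u ∈ ball N 0, ∀ v ∈ ball N 0, Φ (v - u) - (N:ℝ) ^ (b + ζ) ≤ TT (pw w) u v} := by
    intro w hw u hu v hv
    simp only [A6, Set.mem_compl_iff, Set.mem_iUnion, Set.mem_setOf_eq, exists_prop, not_exists,
      not_and, not_lt] at hw
    have e1 := hw u hu v hv
    have e2 : ((2 * N : ℕ) : ℝ) ^ (b + ζ / 2) ≤ (N:ℝ) ^ (b + ζ) := by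
      rw [show ((2 * N : ℕ) : ℝ) = 2 * (N:ℝ) by push_cast; ring, Real.mul_rpow (by norm_num) hNp.le]
      exact u1
    linarith
  have hm6 : MeasurableSet A6 := Finset.measurableSet_biUnion _ fun x _ =>
    Finset.measurableSet_biUnion _ fun y _ => measurableSet_lt (measurable_TT _ _) measurable_const
  have e1 := measureReal_compl (μ := nu) hm6
  rw [probReal_univ] at e1
  have e2 := measureReal_mono (μ := nu) hsub (measure_ne_top _ _)
  linarith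

lemma Bx_of_Se (h : Sub Φ) {b : ℝ} (hb : 0 < b) (hS : ∀ a, b < a → Se Φ a) {ζ : ℝ} (hζ : 0 < ζ) :
    Bx Φ b ζ := by
  obtain ⟨N0, hN0⟩ := Bx_half h hb hS hζ
  have tζ : Tendsto (fun s : ℕ => (s:ℝ) ^ ζ) atTop atTop :=
    (tendsto_rpow_atTop hζ).comp tendsto_natCast_atTop_atTop
  filter_upwards [eventually_ge_atTop N0, tζ.eventually_ge_atTop (Real.log 2)] with N h1 h2
  refine le_trans ?_ (hN0 N h1)
  calc Real.exp (-((N:ℝ) ^ ζ)) ≤ Real.exp (-Real.log 2) := Real.exp_le_exp.2 (by linarith)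
    _ = 1 / 2 := by rw [Real.exp_neg, Real.exp_log two_pos]; norm_num

end Q69.FM
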